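import Pool.Agent.Lib.HA.Defs
import Pool.Agent.Lib.SmNJ.XOkP

/-!
HA (all pointed hyperelliptic curves over a global function field, MP_950c68_ag), module Cnt.
The number of the twists. For a class `c = [d]` let `R` be the symmetric difference of `O` and of the places of odd order of `d`; the number of
`c` with given `R` is at most `κ = #{c unramified everywhere}` (finite). So the upper bounds follow from `card_Eff_le` (`R` effective squarefree of
degree `≤ N`, resp. `R ∋ v`). Lower bound: fix a finite `T₀` with `PrinOut T₀` (`exists_S`). Squarefree effective `R` prime to `T₀` and of degree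
`≤ N - deg T₀`: there is `x` with `div x = R` outside `T₀`; for general `O` multiply by `y` with `ord_v y = 1_O(v)` outside `T₀`, then the symmetric
difference is `R` outside `T₀`. The number of squarefree `R` is `≥ c q ^ N`: `SmNJ.xok` (`X.Ok q`) or `card_LF_ge` of helper4 (SmN/Fin/HalfAll).
-/

set_option autoImplicit false

open Polynomial

namespace Pool.Agent.HA

open Pool.Agent.BSDFF Pool.Agent.GBC Pool.Agent.GBU
open Pool.Agent.SmN.Fnl (Tws)
open IsLocalRing (ResidueField residue)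

variable {k K : Type} [Field k] [Field K] [Algebra k K]
variable [Finite k] [Algebra (RatFunc k) K] [IsScalarTower k (RatFunc k) K]
  [FiniteDimensional (RatFunc k) K] [Algebra.IsSeparable (RatFunc k) K]

section aux

open Pool.Agent.SmN.Fnl (Out dS)

omit [Finite k] [Algebra (RatFunc k) K] [IsScalarTower k (RatFunc k) K]
  [FiniteDimensional (RatFunc k) K] [Algebra.IsSeparable (RatFunc k) K]

/-- The symmetric difference of `O` and the places of odd order. -/
private def cntS (O : Set (Place k K)) (d : K) : Set (Place k K) :=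
  {v | ¬ (Even (ord v d) ↔ v ∉ O)}

private theorem cnt_fin (G : Geo k K) {O : Set (Place k K)} (hO : O.Finite) {d : K} (hd : d ≠ 0) :
    (cntS O d).Finite := by
  refine (hO.union (ord_finite G hd)).subset fun v hv => ?_
  by_contra hcon
  rw [Set.mem_union, not_or] at hcon
  apply hv
  have h1 : ord v d = 0 := by
    by_contra h
    exact hcon.2 h
  rw [h1]
  exact ⟨fun _ => hcon.1, fun _ => Even.zero⟩

private theorem cnt_ram {O : Set (Place k K)} {d : K} (h : (cntS O d).Finite) :
    ramO k O d = ∑ v ∈ h.toFinset, v.degree := by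
  classical
  unfold ramO
  rw [finsum_eq_sum_of_support_subset (s := h.toFinset)]
  · refine Finset.sum_congr rfl fun v hv => ?_
    rw [if_neg]
    exact (h.mem_toFinset.1 hv)
  · intro v hv
    rw [Finset.mem_coe, Set.Finite.mem_toFinset]
    intro hcon
    apply hv
    dsimp only
    rw [if_pos hcon]

/-- The symmetric difference depends on the class only. -/
private theorem cnt_congr (O : Set (Place k K)) {d e : Kˣ} (h : (d : Tws K) = (e : Tws K)) :
    cntS O (d : K) = cntS O (e : K) := by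
  rw [QuotientGroup.eq] at h
  obtain ⟨u, hu⟩ := h
  have h1 : (e : K) = d * (u : K) ^ 2 := by
    have h2 : e = d * u ^ 2 := by
      have h3 : u ^ 2 = d⁻¹ * e := hu
      rw [h3, mul_inv_cancel_left]
    rw [h2, Units.val_mul, Units.val_pow_eq_pow_val]
  ext v
  have h2 : Even (ord v (e : K)) ↔ Even (ord v (d : K)) := by
    rw [h1, ord_mul v d.ne_zero (pow_ne_zero _ u.ne_zero), ord_pow v u.ne_zero]
    push_cast
    rw [Int.even_add]
    have : Even (2 * ord v (u : K)) := even_two_mul _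
    simp [this]
  change ¬ (Even (ord v (d : K)) ↔ v ∉ O) ↔ ¬ (Even (ord v (e : K)) ↔ v ∉ O)
  rw [h2]

/-- The classes of even order everywhere. -/
private def cntX (k K : Type) [Field k] [Field K] [Algebra k K] : Set (Tws K) :=
  {c | ∃ u : Kˣ, (u : Tws K) = c ∧ ∀ w : Place k K, Even (ord w (u : K))}

private theorem cnt_X_fin [Finite k] (G : Geo k K) : (cntX k K).Finite := by
  classical
  obtain ⟨R, hR, hR'⟩ := exists_reps G
  have h1 : (⋃ E ∈ R, {x : K | x ∈ LL (-((2 : ℤ) • E))}).Finite := by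
    refine hR.biUnion fun E _ => ?_
    have := LL_finite G (-((2 : ℤ) • E))
    have h2 : Finite (LL (-((2 : ℤ) • E))) := Module.finite_of_finite k
    exact h2
  have h2 : ({u : Kˣ | (u : K) ∈ ⋃ E ∈ R, {x : K | x ∈ LL (-((2 : ℤ) • E))}}).Finite :=
    h1.preimage (fun a _ b _ h => Units.ext h)
  refine (h2.image (fun u : Kˣ => (u : Tws K))).subset ?_
  rintro c ⟨u, rfl, hu⟩
  obtain ⟨F, hF⟩ := exists_pdiv G u.ne_zero
  let D : Place k K →₀ ℤ := F.mapRange (fun n => n / 2) (by norm_num)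
  have hD : ∀ w, D w = F w / 2 := fun w => rfl
  have hD2 : F = (2 : ℤ) • D := by
    ext w
    rw [Finsupp.smul_apply, hD w, smul_eq_mul]
    have h3 := hu w
    rw [← hF w] at h3
    obtain ⟨m, hm⟩ := h3
    omega
  have hdeg : degD D = 0 := by
    have h3 : degD F = 0 := degD_prin G ⟨u, u.ne_zero, hF⟩
    rw [hD2, degD_zsmul] at h3
    omega
  obtain ⟨E, hE, y, hy, hyE⟩ := hR' D hdeg
  refine ⟨u * (Units.mk0 y hy ^ 2)⁻¹, ?_, ?_⟩
  · change ((u * (Units.mk0 y hy ^ 2)⁻¹ : Kˣ) : K) ∈ ⋃ E ∈ R, {x : K | x ∈ LL (-((2 : ℤ) • E))}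
    rw [Set.mem_iUnion₂]
    refine ⟨E, hE, ?_⟩
    change ((u * (Units.mk0 y hy ^ 2)⁻¹ : Kˣ) : K) ∈ LL (-((2 : ℤ) • E))
    rw [mem_LL_iff (Units.ne_zero _)]
    intro w
    rw [Units.val_mul, Units.val_inv_eq_inv_val, Units.val_pow_eq_pow_val, Units.val_mk0,
      ord_mul w u.ne_zero (inv_ne_zero (pow_ne_zero _ hy)), ord_inv w (pow_ne_zero _ hy),
      ord_pow w hy, ← hyE w, ← hF w, hD2]
    simp only [Finsupp.neg_apply, Finsupp.smul_apply, Finsupp.sub_apply, smul_eq_mul, neg_neg]
    push_cast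
    linarith
  · change ((u * (Units.mk0 y hy ^ 2)⁻¹ : Kˣ) : Tws K) = (u : Tws K)
    rw [QuotientGroup.eq]
    refine ⟨Units.mk0 y hy, ?_⟩
    change Units.mk0 y hy ^ 2 = _
    rw [mul_inv_rev, inv_inv, mul_assoc, inv_mul_cancel, mul_one]

private theorem cnt_sub {O : Set (Place k K)} {d e : Kˣ} (h : cntS O (d : K) = cntS O (e : K)) :
    ((d * e⁻¹ : Kˣ) : Tws K) ∈ cntX k K := by
  refine ⟨d * e⁻¹, rfl, fun w => ?_⟩
  rw [Units.val_mul, Units.val_inv_eq_inv_val, ord_mul w d.ne_zero (inv_ne_zero e.ne_zero),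
    ord_inv w e.ne_zero, ← sub_eq_add_neg, Int.even_sub]
  have h1 : w ∈ cntS O (d : K) ↔ w ∈ cntS O (e : K) := by rw [h]
  have h2 : ¬ (Even (ord w (d : K)) ↔ w ∉ O) ↔ ¬ (Even (ord w (e : K)) ↔ w ∉ O) := h1
  tauto

/-- The symmetric difference of a class. -/
private noncomputable def cntF (O : Set (Place k K)) (c : Tws K) : Finset (Place k K) :=
  open Classical in
  if h : (cntS O ((Quotient.out c : Kˣ) : K)).Finite then h.toFinset else ∅

private theorem cnt_F (G : Geo k K) {O : Set (Place k K)} (hO : O.Finite) (d : Kˣ) :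
    (∀ v, v ∈ cntF O (d : Tws K) ↔ v ∈ cntS O (d : K)) ∧
      ramO k O (d : K) = ∑ v ∈ cntF O (d : Tws K), v.degree := by
  classical
  have h1 : ((Quotient.out (d : Tws K) : Kˣ) : Tws K) = (d : Tws K) := Quotient.out_eq _
  have h2 := cnt_congr O h1
  have h3 := cnt_fin G hO (d := ((Quotient.out (d : Tws K) : Kˣ) : K)) (Units.ne_zero _)
  have h4 := cnt_fin G hO d.ne_zero
  have h5 : cntF O (d : Tws K) = h4.toFinset := by
    unfold cntF
    rw [dif_pos h3]
    ext v
    rw [Set.Finite.mem_toFinset, Set.Finite.mem_toFinset, h2]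
  rw [h5]
  exact ⟨fun v => Set.Finite.mem_toFinset _, cnt_ram h4⟩

/-- The fibres of the symmetric difference. -/
private theorem cnt_fib [Finite k] (G : Geo k K) {O : Set (Place k K)} (hO : O.Finite)
    {W : Set (Tws K)} {A : Set (Finset (Place k K))} (hA : A.Finite)
    (hWA : ∀ c ∈ W, cntF O c ∈ A) : W.Finite ∧ W.ncard ≤ (cntX k K).ncard * A.ncard := by
  classical
  have hX := cnt_X_fin G
  have hfib : ∀ b, (W ∩ (cntF O) ⁻¹' {b}).Finite ∧
      (W ∩ (cntF O) ⁻¹' {b}).ncard ≤ (cntX k K).ncard := by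
    intro b
    rcases (W ∩ (cntF O) ⁻¹' {b}).eq_empty_or_nonempty with h0 | ⟨c0, hc0⟩
    · rw [h0]
      exact ⟨Set.finite_empty, by rw [Set.ncard_empty]; exact Nat.zero_le _⟩
    · have hsub : (fun c => c * c0⁻¹) '' (W ∩ (cntF O) ⁻¹' {b}) ⊆ cntX k K := by
        rintro _ ⟨c, hc, rfl⟩
        obtain ⟨d, rfl⟩ := QuotientGroup.mk_surjective c
        obtain ⟨e, rfl⟩ := QuotientGroup.mk_surjective c0
        have h1 : cntF O (d : Tws K) = cntF O (e : Tws K) := by
          have h2 : cntF O (d : Tws K) = b := hc.2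
          have h3 : cntF O (e : Tws K) = b := hc0.2
          rw [h2, h3]
        have h2 : cntS O (d : K) = cntS O (e : K) := by
          ext v
          rw [← (cnt_F G hO d).1 v, ← (cnt_F G hO e).1 v, h1]
        exact cnt_sub h2
      have hinj : Function.Injective fun c : Tws K => c * c0⁻¹ := by
        intro a b h
        have h' : a * c0⁻¹ = b * c0⁻¹ := h
        rw [← inv_mul_cancel_right a c0, h', inv_mul_cancel_right]
      have hf : ((fun c => c * c0⁻¹) '' (W ∩ (cntF O) ⁻¹' {b})).Finite := hX.subset hsub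
      refine ⟨Set.Finite.of_finite_image hf hinj.injOn, ?_⟩
      rw [← Set.ncard_image_of_injective _ hinj]
      exact Set.ncard_le_ncard hsub hX
  have himg : (cntF O '' W) ⊆ A := by
    rintro _ ⟨c, hc, rfl⟩
    exact hWA c hc
  have hWf : W.Finite := Set.Finite.of_finite_fibers (cntF O) (hA.subset himg)
    fun b _ => (hfib b).1
  refine ⟨hWf, ?_⟩
  rw [Set.ncard_eq_toFinset_card W hWf]
  refine (Finset.card_le_mul_card_image (f := cntF O) hWf.toFinset (cntX k K).ncard ?_).trans
    (Nat.mul_le_mul_left _ ?_)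
  · intro b _
    have h1 := (hfib b).2
    rw [Set.ncard_eq_toFinset_card _ (hfib b).1] at h1
    refine le_trans (Finset.card_le_card fun c hc => ?_) h1
    rw [Finset.mem_filter, Set.Finite.mem_toFinset] at hc
    rw [Set.Finite.mem_toFinset]
    exact ⟨hc.1, hc.2⟩
  · rw [← Set.ncard_coe_finset]
    refine Set.ncard_le_ncard ?_ hA
    intro b hb
    rw [Finset.mem_coe, Finset.mem_image] at hb
    obtain ⟨c, hc, rfl⟩ := hb
    exact hWA c (hWf.mem_toFinset.1 hc)

/-- The finite sets of places of degree at most `N`. -/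
private def cntD (k K : Type) [Field k] [Field K] [Algebra k K] (N : ℕ) :
    Set (Finset (Place k K)) := {D | ∑ v ∈ D, v.degree ≤ N}

private theorem cnt_D [Finite k] (G : Geo k K) : ∃ B : ℕ, ∀ N : ℕ, (cntD k K N).Finite ∧
    (cntD k K N).ncard ≤ B * Nat.card k ^ N := by
  classical
  obtain ⟨B, hB⟩ := card_Eff_le G
  have hq : 2 ≤ Nat.card k := Finite.one_lt_card
  let T : Finset (Place k K) → (Place k K →₀ ℤ) := fun D => ∑ v ∈ D, Finsupp.single v 1
  have hT : ∀ D w, T D w = if w ∈ D then 1 else 0 := by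
    intro D w
    change (∑ v ∈ D, Finsupp.single v (1 : ℤ)) w = _
    rw [Finsupp.finsetSum_apply]
    simp only [Finsupp.single_apply]
    rw [Finset.sum_ite_eq']
  have hTinj : Function.Injective T := by
    intro D D' h
    ext w
    have h1 := DFunLike.congr_fun h w
    rw [hT, hT] at h1
    by_cases hw : w ∈ D <;> by_cases hw' : w ∈ D' <;> simp [hw, hw'] at h1 ⊢
  have hTE : ∀ D, T D ∈ Eff G ((∑ v ∈ D, v.degree : ℕ) : ℤ) := by
    intro D
    rw [mem_Eff]
    constructor
    · intro w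
      rw [hT, Finsupp.zero_apply]
      split_ifs <;> norm_num
    · change degHom k K (∑ v ∈ D, Finsupp.single v 1) = _
      rw [map_sum]
      push_cast
      refine Finset.sum_congr rfl fun v _ => ?_
      rw [degHom_apply, degD_single, mul_one]
  have hsub : ∀ N, T '' (cntD k K N) ⊆
      ((Finset.range (N + 1)).biUnion fun n => Eff G (n : ℤ) : Finset (Place k K →₀ ℤ)) := by
    rintro N _ ⟨D, hD, rfl⟩
    rw [Finset.mem_coe, Finset.mem_biUnion]
    refine ⟨∑ v ∈ D, v.degree, ?_, hTE D⟩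
    rw [Finset.mem_range]
    have : ∑ v ∈ D, v.degree ≤ N := hD
    omega
  refine ⟨2 * B, fun N => ?_⟩
  have hf : (T '' (cntD k K N)).Finite := (Finset.finite_toSet _).subset (hsub N)
  refine ⟨Set.Finite.of_finite_image hf hTinj.injOn, ?_⟩
  rw [← Set.ncard_image_of_injective _ hTinj]
  refine (Set.ncard_le_ncard (hsub N) (Finset.finite_toSet _)).trans ?_
  rw [Set.ncard_coe_finset]
  refine Finset.card_biUnion_le.trans ?_
  refine (Finset.sum_le_sum fun n _ => hB n).trans ?_
  rw [← Finset.mul_sum, mul_assoc, mul_left_comm]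
  refine Nat.mul_le_mul_left _ ?_
  -- geometric sum
  have hgeo : ∀ n : ℕ, ∑ i ∈ Finset.range (n + 1), Nat.card k ^ i ≤ 2 * Nat.card k ^ n := by
    intro n
    induction n with
    | zero => simp
    | succ n ih =>
      rw [Finset.sum_range_succ]
      have h1 : 2 * Nat.card k ^ n ≤ Nat.card k ^ (n + 1) := by
        rw [pow_succ, mul_comm]
        exact Nat.mul_le_mul_left _ hq
      omega
  exact hgeo N

private theorem cnt_Dv [Finite k] (v : Place k K) (B N : ℕ)
    (hB : ∀ N : ℕ, (cntD k K N).Finite ∧ (cntD k K N).ncard ≤ B * Nat.card k ^ N) :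
    ({D ∈ cntD k K N | v ∈ D} : Set (Finset (Place k K))).ncard * Nat.card k ^ v.degree ≤
      B * Nat.card k ^ N := by
  classical
  by_cases hN : v.degree ≤ N
  · have h1 : (fun D : Finset (Place k K) => D.erase v) ''
        ({D ∈ cntD k K N | v ∈ D} : Set (Finset (Place k K))) ⊆ cntD k K (N - v.degree) := by
      rintro _ ⟨D, ⟨hD, hv⟩, rfl⟩
      have h2 : ∑ w ∈ D, w.degree ≤ N := hD
      rw [← Finset.add_sum_erase _ _ hv] at h2
      change ∑ w ∈ D.erase v, w.degree ≤ N - v.degree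
      omega
    have hinj : Set.InjOn (fun D : Finset (Place k K) => D.erase v)
        ({D ∈ cntD k K N | v ∈ D} : Set (Finset (Place k K))) := by
      rintro D ⟨_, hv⟩ D' ⟨_, hv'⟩ h
      have h' : D.erase v = D'.erase v := h
      rw [← Finset.insert_erase hv, ← Finset.insert_erase hv', h']
    rw [← hinj.ncard_image]
    have h3 := (Set.ncard_le_ncard h1 (hB _).1).trans (hB _).2
    calc _ ≤ B * Nat.card k ^ (N - v.degree) * Nat.card k ^ v.degree := Nat.mul_le_mul_right _ h3
      _ = B * Nat.card k ^ N := by rw [mul_assoc, ← pow_add, Nat.sub_add_cancel hN]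
  · have h1 : ({D ∈ cntD k K N | v ∈ D} : Set (Finset (Place k K))) = ∅ := by
      rw [Set.eq_empty_iff_forall_notMem]
      rintro D ⟨hD, hv⟩
      have h2 : ∑ w ∈ D, w.degree ≤ N := hD
      have h3 : v.degree ≤ ∑ w ∈ D, w.degree :=
        Finset.single_le_sum (f := fun w : Place k K => w.degree) (fun _ _ => Nat.zero_le _) hv
      omega
    rw [h1, Set.ncard_empty, Nat.zero_mul]
    exact Nat.zero_le _

/-- The lower bound. -/
private theorem cnt_low [Finite k] (G : Geo k K) {T : Set (Place k K)} (hT : T.Finite)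
    (hP : PrinOut T) {O : Set (Place k K)} (hO : O.Finite) {n N : ℕ}
    (hfin : (TwO k O N fun _ => True).Finite) (hN : n + ∑ v ∈ hT.toFinset, v.degree ≤ N) :
    Nat.card {D : Finset (Out T) // dS Place.degree D = n} ≤ (TwO k O N fun _ => True).ncard := by
  classical
  obtain ⟨y, hy, hy'⟩ := hP (Finsupp.indicator hO.toFinset fun _ _ => (1 : ℤ))
  have hyO : ∀ w ∉ T, Even (ord w y) ↔ w ∉ O := by
    intro w hw
    rw [hy' w hw]
    by_cases h : w ∈ O
    · rw [Finsupp.indicator_of_mem (hO.mem_toFinset.2 h)]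
      simp [h]
    · rw [Finsupp.indicator_of_notMem (fun h' => h (hO.mem_toFinset.1 h'))]
      simp [h]
  have hx : ∀ D : Finset (Out T), ∃ x : K, x ≠ 0 ∧ ∀ w : Out T, Even (ord w.1 x) ↔ w ∉ D := by
    intro D
    obtain ⟨x, hx, hx'⟩ := hP (Finsupp.indicator (D.image Subtype.val) fun _ _ => (1 : ℤ))
    refine ⟨x, hx, fun w => ?_⟩
    rw [hx' w.1 w.2]
    by_cases h : w ∈ D
    · rw [Finsupp.indicator_of_mem (Finset.mem_image_of_mem _ h)]
      simp [h]
    · rw [Finsupp.indicator_of_notMem (fun h' => h (by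
        obtain ⟨w', h1, h2⟩ := Finset.mem_image.1 h'
        rwa [← Subtype.ext h2]))]
      simp [h]
  choose x hx hx' using hx
  let f : {D : Finset (Out T) // dS Place.degree D = n} → Tws K := fun D =>
    ((Units.mk0 (x D.1) (hx D.1) * Units.mk0 y hy : Kˣ) : Tws K)
  have hS : ∀ D : Finset (Out T), ∀ w : Out T, w.1 ∈ cntS O (x D * y) ↔ w ∈ D := by
    intro D w
    change ¬ (Even (ord w.1 (x D * y)) ↔ w.1 ∉ O) ↔ w ∈ D
    rw [ord_mul w.1 (hx D) hy, Int.even_add]
    have h1 := hyO w.1 w.2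
    have h2 := hx' D w
    tauto
  have hmem : ∀ D, f D ∈ TwO k O N fun _ => True := by
    intro D
    refine ⟨_, rfl, ?_, trivial⟩
    have h0 : ((Units.mk0 (x D.1) (hx D.1) * Units.mk0 y hy : Kˣ) : K) = x D.1 * y := rfl
    rw [h0]
    have hfS := cnt_fin G hO (mul_ne_zero (hx D.1) hy)
    rw [cnt_ram hfS]
    have h1 : hfS.toFinset ⊆ (D.1.image Subtype.val) ∪ hT.toFinset := by
      intro w hw
      rw [Set.Finite.mem_toFinset] at hw
      rw [Finset.mem_union, Set.Finite.mem_toFinset]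
      by_cases h : w ∈ T
      · exact Or.inr h
      · exact Or.inl (Finset.mem_image_of_mem Subtype.val ((hS D.1 ⟨w, h⟩).1 hw))
    refine (Finset.sum_le_sum_of_subset h1).trans ?_
    have h3 := Finset.sum_union_inter (s₁ := D.1.image Subtype.val) (s₂ := hT.toFinset)
      (f := fun v : Place k K => v.degree)
    rw [Finset.sum_image fun a _ b _ h => Subtype.ext h] at h3
    change _ = (∑ v ∈ D.1, (v : Place k K).degree) + _ at h3
    have h2 : ∑ v ∈ D.1, (v : Place k K).degree = n := D.2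
    omega
  have hinj : Function.Injective f := by
    intro D D' h
    have h1 := cnt_congr O h
    have h2 : cntS O (x D.1 * y) = cntS O (x D'.1 * y) := h1
    apply Subtype.ext
    ext w
    rw [← hS D.1 w, ← hS D'.1 w, h2]
  rw [← Nat.card_coe_set_eq]
  have := hfin.to_subtype
  exact Nat.card_le_card_of_injective (fun D => (⟨f D, hmem D⟩ : (TwO k O N fun _ => True : Set _)))
    fun D D' h => hinj (congrArg Subtype.val h)

end aux

theorem finite_TwO {O : Set (Place k K)} (hO : O.Finite) (N : ℕ) :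
    (TwO k O N fun _ => True).Finite := by
  obtain ⟨G, -⟩ := exists_geo k K
  obtain ⟨B, hB⟩ := cnt_D G
  refine (cnt_fib G hO (hB N).1 ?_).1
  rintro _ ⟨d, rfl, hd, -⟩
  change ∑ v ∈ cntF O (d : Tws K), v.degree ≤ N
  rwa [← (cnt_F G hO d).2]

theorem TwO_bounds (h2 : (2 : k) ≠ 0)
    (hk : ∀ x : K, IsIntegral k x → ∃ c : k, algebraMap k K c = x) :
    ∃ c C : ℝ, 0 < c ∧ 0 < C ∧ ∀ O : Set (Place k K), O.Finite → ∃ N₀ : ℕ, ∀ N ≥ N₀,
      c * (Nat.card k : ℝ) ^ N ≤ (TwO k O N fun _ => True).ncard ∧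
      ((TwO k O N fun _ => True).ncard : ℝ) ≤ C * (Nat.card k : ℝ) ^ N ∧
      ∀ v ∉ O, ((TwO k O N fun d => ¬ Even (ord v d)).ncard : ℝ) * (Nat.card k : ℝ) ^ v.degree ≤
        C * (Nat.card k : ℝ) ^ N := by
  classical
  obtain ⟨G, -⟩ := exists_geo k K
  obtain ⟨B, hB⟩ := cnt_D G
  obtain ⟨T, hT, -, -, hP⟩ := exists_S G ∅ Set.finite_empty
  obtain ⟨c, C, n₀, hG⟩ := Pool.Agent.SmN.Fnl.growth_of (Pool.Agent.SmNJ.xok k K hk hT)
  set τ : ℕ := ∑ v ∈ hT.toFinset, v.degree with hτ
  set κ : ℕ := (cntX k K).ncard with hκ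
  have hq : (0 : ℝ) < Nat.card k := by exact_mod_cast Nat.card_pos (α := k)
  have hc := hG.pos
  refine ⟨c / (Nat.card k : ℝ) ^ τ, κ * B + 1, by positivity, by positivity, fun O hO =>
    ⟨n₀ + τ, fun N hN => ⟨?_, ?_, ?_⟩⟩⟩
  · have h1 := cnt_low G hT hP hO (n := N - τ) (N := N) (finite_TwO hO N) (by
      rw [← hτ]
      omega)
    have h3 := hG.low (N - τ) (by omega)
    have h4 : c / (Nat.card k : ℝ) ^ τ * (Nat.card k : ℝ) ^ N = c * (Nat.card k : ℝ) ^ (N - τ) := by
      have h5 : (Nat.card k : ℝ) ^ N = (Nat.card k : ℝ) ^ (N - τ) * (Nat.card k : ℝ) ^ τ := by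
        rw [← pow_add, Nat.sub_add_cancel (by omega)]
      rw [h5]
      field_simp
    rw [h4]
    refine h3.trans ?_
    exact_mod_cast h1
  · have h1 := (cnt_fib G hO (W := TwO k O N fun _ => True) (hB N).1 (by
      rintro _ ⟨d, rfl, hd, -⟩
      change ∑ v ∈ cntF O (d : Tws K), v.degree ≤ N
      rwa [← (cnt_F G hO d).2])).2
    have h3 : (TwO k O N fun _ => True).ncard ≤ κ * (B * Nat.card k ^ N) :=
      h1.trans (Nat.mul_le_mul_left _ (hB N).2)
    have h4 : ((TwO k O N fun _ => True).ncard : ℝ) ≤ κ * (B * (Nat.card k : ℝ) ^ N) := by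
      exact_mod_cast h3
    have h5 : (0 : ℝ) ≤ (Nat.card k : ℝ) ^ N := by positivity
    nlinarith
  · intro v hv
    have hA : ({D ∈ cntD k K N | v ∈ D} : Set (Finset (Place k K))).Finite :=
      (hB N).1.subset fun D hD => hD.1
    have h1 := (cnt_fib G hO (W := TwO k O N fun d => ¬ Even (ord v d)) hA (by
      rintro _ ⟨d, rfl, hd, hodd⟩
      refine ⟨?_, ?_⟩
      · change ∑ v ∈ cntF O (d : Tws K), v.degree ≤ N
        rwa [← (cnt_F G hO d).2]
      · rw [(cnt_F G hO d).1 v]
        intro h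
        exact hodd (h.2 hv))).2
    have h3 := cnt_Dv v B N hB
    have h4 : (TwO k O N fun d => ¬ Even (ord v d)).ncard * Nat.card k ^ v.degree ≤
        κ * (B * Nat.card k ^ N) :=
      calc _ ≤ κ * ({D ∈ cntD k K N | v ∈ D} : Set (Finset (Place k K))).ncard *
            Nat.card k ^ v.degree := Nat.mul_le_mul_right _ h1
        _ = κ * (({D ∈ cntD k K N | v ∈ D} : Set (Finset (Place k K))).ncard *
            Nat.card k ^ v.degree) := mul_assoc _ _ _
        _ ≤ _ := Nat.mul_le_mul_left _ h3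
    have h5 : ((TwO k O N fun d => ¬ Even (ord v d)).ncard : ℝ) * (Nat.card k : ℝ) ^ v.degree ≤
        κ * (B * (Nat.card k : ℝ) ^ N) := by exact_mod_cast h4
    have h6 : (0 : ℝ) ≤ (Nat.card k : ℝ) ^ N := by positivity
    nlinarith

end Pool.Agent.HA
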