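import Pool.Agent.Lib.GBU.Pic
import Pool.Agent.Lib.GBU.Eff
import Pool.Agent.Lib.SmN.Fin.Kum
import Pool.Agent.Lib.SmJ.L.JacP

/-!
HA: the distribution of the `2`-power Selmer coranks in the family of ALL pointed hyperelliptic curves
of genus `g` over a global function field (MP_950c68_ag). Definitions.

`pol g a = X ^ (2 g + 1) + ∑ a j X ^ (2 g - 1 - j)`, `a : Fin (2 g) → R`; the weight of `a j` is
`j + 2`. `sc u a` = scaling; `Shp K g` = the vectors up to scaling (the shapes), `Crv K g` = the
vectors up to scaling by squares (the isomorphism classes of the pointed curves).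

`md v a` = the least `e` such that `ord v (a j) ≥ - (j + 2) e` for all `j`; `hgt k a` = the degree of
the divisor `∑ md v a`, invariant under scaling; `tdg k a` = the degree of the places at which
`md v a` is odd, invariant under scaling by squares. `Fam k K g M N P` = the classes of the curves
with `hgt ≤ M`, `tdg ≤ N` and the property `P`: the family of the final theorem.

For the proof: `Box g D` = the vectors with `a j ∈ L((j + 2) D)`, that is `md v a ≤ D v` for all `v`;
`TwO k O N P` = the classes `c` in `Kˣ / Kˣ²` such that the symmetric difference of `O` and the set of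
the places at which `c` has odd order has degree at most `N`.
-/

set_option autoImplicit false

open Polynomial

namespace Pool.Agent.HA

open Pool.Agent.BSDFF Pool.Agent.GBC Pool.Agent.GBU
open Pool.Agent.SmN.Fnl (Tws)
open IsLocalRing (ResidueField residue)

section pol

variable {R : Type*} [CommRing R]

/-- `X ^ (2 g + 1) + ∑ a j X ^ (2 g - 1 - j)`. -/
noncomputable def pol (g : ℕ) (a : Fin (2 * g) → R) : R[X] :=
  X ^ (2 * g + 1) + ∑ j : Fin (2 * g), C (a j) * X ^ (2 * g - 1 - (j : ℕ))

end pol

/-- The sum of the weights, `g (2 g + 3)`. -/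
def wt (g : ℕ) : ℕ := ∑ j : Fin (2 * g), ((j : ℕ) + 2)

section scaling

variable {K : Type} [Field K] {g : ℕ}

/-- Scaling: `a j ↦ u ^ (j + 2) a j`. -/
def sc (u : K) (a : Fin (2 * g) → K) : Fin (2 * g) → K := fun j => u ^ ((j : ℕ) + 2) * a j

theorem sc_one (a : Fin (2 * g) → K) : sc 1 a = a := by
  funext j
  simp [sc]

theorem sc_sc (u v : K) (a : Fin (2 * g) → K) : sc u (sc v a) = sc (u * v) a := by
  funext j
  rw [sc, sc, sc, ← mul_assoc, mul_pow]

/-- `a` and `b` differ by scaling: the curves are isomorphic up to a quadratic twist. -/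
def scRel (K : Type) [Field K] (g : ℕ) : Setoid (Fin (2 * g) → K) where
  r a b := ∃ u : K, u ≠ 0 ∧ b = sc u a
  iseqv := by
    refine ⟨fun a => ⟨1, one_ne_zero, (sc_one a).symm⟩, fun {a b} => ?_, fun {a b c} => ?_⟩
    · rintro ⟨u, hu, rfl⟩
      exact ⟨u⁻¹, inv_ne_zero hu, by rw [sc_sc, inv_mul_cancel₀ hu, sc_one]⟩
    · rintro ⟨u, hu, rfl⟩ ⟨v, hv, rfl⟩
      exact ⟨v * u, mul_ne_zero hv hu, sc_sc v u a⟩

/-- `a` and `b` define isomorphic pointed curves. -/
def crvRel (K : Type) [Field K] (g : ℕ) : Setoid (Fin (2 * g) → K) where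
  r a b := ∃ u : K, u ≠ 0 ∧ b = sc (u ^ 2) a
  iseqv := by
    refine ⟨fun a => ⟨1, one_ne_zero, ?_⟩, fun {a b} => ?_, fun {a b c} => ?_⟩
    · rw [one_pow, sc_one]
    · rintro ⟨u, hu, rfl⟩
      exact ⟨u⁻¹, inv_ne_zero hu, by rw [sc_sc, ← mul_pow, inv_mul_cancel₀ hu, one_pow, sc_one]⟩
    · rintro ⟨u, hu, rfl⟩ ⟨v, hv, rfl⟩
      exact ⟨v * u, mul_ne_zero hv hu, by rw [sc_sc, ← mul_pow]⟩

/-- The vectors up to scaling. -/
abbrev Shp (K : Type) [Field K] (g : ℕ) : Type := Quotient (scRel K g)

/-- The isomorphism classes of the pointed curves. -/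
abbrev Crv (K : Type) [Field K] (g : ℕ) : Type := Quotient (crvRel K g)

end scaling

section height

variable {k K : Type} [Field k] [Field K] [Algebra k K]

/-- The least `e` such that `a j` has at `v` a pole of order at most `(j + 2) e` for all `j`. -/
noncomputable def md (v : Place k K) {g : ℕ} (a : Fin (2 * g) → K) : ℤ :=
  sInf {e : ℤ | ∀ j : Fin (2 * g), PoleLE v (((j : ℕ) + 2) * e) (a j)}

/-- The height. -/
noncomputable def hgt (k : Type) {K : Type} [Field k] [Field K] [Algebra k K] {g : ℕ}
    (a : Fin (2 * g) → K) : ℤ := ∑ᶠ v : Place k K, (v.degree : ℤ) * md v a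

/-- The twist degree. -/
noncomputable def tdg (k : Type) {K : Type} [Field k] [Field K] [Algebra k K] {g : ℕ}
    (a : Fin (2 * g) → K) : ℕ := ∑ᶠ v : Place k K, if Even (md v a) then 0 else v.degree

/-- The isomorphism classes of the curves of height at most `M` and twist degree at most `N` with
the property `P`. -/
def Fam (k K : Type) [Field k] [Field K] [Algebra k K] (g M N : ℕ)
    (P : (Fin (2 * g) → K) → Prop) : Set (Crv K g) :=
  {C | ∃ a : Fin (2 * g) → K, Quotient.mk (crvRel K g) a = C ∧ (pol g a).Separable ∧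
    hgt k a ≤ M ∧ tdg k a ≤ N ∧ P a}

/-- The shapes of height at most `M` of the separable `pol g a` with the property `P`. -/
def Shapes (k K : Type) [Field k] [Field K] [Algebra k K] (g M : ℕ)
    (P : (Fin (2 * g) → K) → Prop) : Set (Shp K g) :=
  {z | ∃ a : Fin (2 * g) → K, Quotient.mk (scRel K g) a = z ∧ (pol g a).Separable ∧
    hgt k a ≤ M ∧ P a}

/-- The vectors `a` with `a j ∈ L((j + 2) D)`. -/
noncomputable def Box (g : ℕ) (D : Place k K →₀ ℤ) : Submodule k (Fin (2 * g) → K) :=
  Submodule.pi Set.univ fun j : Fin (2 * g) => LL (((j : ℕ) + 2) • D)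

/-- The places at which `md v a` is odd. -/
def Od (k : Type) {K : Type} [Field k] [Field K] [Algebra k K] {g : ℕ} (a : Fin (2 * g) → K) :
    Set (Place k K) := {v | ¬ Even (md v a)}

/-- The degree of the symmetric difference of `O` and the set of the places at which `d` has odd
order. -/
noncomputable def ramO (k : Type) {K : Type} [Field k] [Field K] [Algebra k K]
    (O : Set (Place k K)) (d : K) : ℕ :=
  open Classical in ∑ᶠ v : Place k K, if Even (ord v d) ↔ v ∉ O then 0 else v.degree

/-- The classes in `Kˣ / Kˣ²` which contain a `d` with `ramO k O d ≤ N` and the property `P`. -/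
def TwO (k : Type) {K : Type} [Field k] [Field K] [Algebra k K] (O : Set (Place k K)) (N : ℕ)
    (P : K → Prop) : Set (Tws K) :=
  {c | ∃ d : Kˣ, (d : Tws K) = c ∧ ramO k O (d : K) ≤ N ∧ P (d : K)}

end height

section red

variable {k K : Type} [Field k] [Field K] [Algebra k K]

open Classical in
/-- The reduction of an element of `K` (`0` if it is not integral at `v`). -/
noncomputable def red (v : Place k K) (x : K) : ResidueField v.ring :=
  if h : x ∈ v.ring then residue v.ring ⟨x, h⟩ else 0

/-- The reduction of a vector. -/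
noncomputable def redV (v : Place k K) {g : ℕ} (a : Fin (2 * g) → K) :
    Fin (2 * g) → ResidueField v.ring := fun j => red v (a j)

/-- `a` is integral at `v`. -/
def IntV (v : Place k K) {g : ℕ} (a : Fin (2 * g) → K) : Prop := ∀ j, a j ∈ v.ring

end red

section local_types

variable {F : Type} [Field F]

/-- `f` is irreducible. -/
def TypA (f : F[X]) : Prop := Irreducible f

/-- `f = (X - r) h`, `h` irreducible and prime to `X - r`. -/
def TypB (f : F[X]) : Prop :=
  ∃ (r : F) (h : F[X]), h.Monic ∧ Irreducible h ∧ f = (X - C r) * h ∧ h.eval r ≠ 0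

/-- `f = p h`, `p` an irreducible quadratic polynomial, `h` irreducible of odd degree. -/
def TypC (f : F[X]) : Prop :=
  ∃ p h : F[X], p.Monic ∧ Irreducible p ∧ p.natDegree = 2 ∧ h.Monic ∧ Irreducible h ∧
    Odd h.natDegree ∧ f = p * h

/-- `f = (X - r) ^ 2 h`, `h` irreducible and prime to `X - r`. -/
def TypN (f : F[X]) : Prop :=
  ∃ (r : F) (h : F[X]), h.Monic ∧ Irreducible h ∧ f = (X - C r) ^ 2 * h ∧ h.eval r ≠ 0

end local_types

section gen

variable {k K : Type} [Field k] [Field K] [Algebra k K] {g : ℕ}

/-- `a` is integral at `v` and its reduction has the type `T`. -/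
def At (v : Place k K) (T : (ResidueField v.ring)[X] → Prop) (a : Fin (2 * g) → K) : Prop :=
  IntV v a ∧ T (pol g (redV v a))

/-- The generic shapes: some multiple of `a` has the types `A`, `B`, `C` at three places (so the
Galois group of `pol g a` is the symmetric group; the degree of the place of type `C` is even, so
this holds also over the extensions of the field of constants) and the type `N` at a place of
degree at least `m` (a node), and the coefficients of weight two and three are not zero. -/
structure GenS (k : Type) {K : Type} [Field k] [Field K] [Algebra k K] {g : ℕ} (m : ℕ)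
    (a : Fin (2 * g) → K) : Prop where
  ne : ∀ j : Fin (2 * g), (j : ℕ) ≤ 1 → a j ≠ 0
  typ : ∃ u : K, u ≠ 0 ∧ (∃ v : Place k K, At v TypA (sc u a)) ∧
    (∃ v : Place k K, At v TypB (sc u a)) ∧
    (∃ v : Place k K, Even v.degree ∧ At v TypC (sc u a)) ∧
    ∃ v : Place k K, m ≤ v.degree ∧ At v TypN (sc u a)

end gen

section jac

variable (k : Type) {K : Type} [Field k] [Field K] [Algebra k K] (f : K[X])

/-- The conclusions for the Jacobian of `y ^ 2 = f(x)`, `f` of odd degree. -/
def GoodF (j : ℕ) : Prop := ∃ _ : SmJ.R.OddDeg f, SmJ.R.GoodP k f j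

/-- Corank `0` and finite `2`-power torsion of the Tate-Shafarevich group. -/
def ZeroF : Prop := ∃ _ : SmJ.R.OddDeg f, SmJ.R.ZeroP k f

/-- Corank `1`. -/
def OneF : Prop := ∃ _ : SmJ.R.OddDeg f, SmJ.R.OneP k f

end jac

end Pool.Agent.HA
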