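import Pool.Agent.Lib.HA.Defs
import Pool.Agent.Lib.HYP.C.Irr
import Pool.Agent.Lib.BSDP.C.Irr

/-!
HA (all pointed hyperelliptic curves over a global function field, MP_950c68_ag), module Irr.
At least half of the expected number of the irreducible polynomials over a finite field (the prime number
theorem for `F[X]`; look for it in the library: block of SMITH, `SmK`).
-/

set_option autoImplicit false

open Polynomial

namespace Pool.Agent.HA

open Pool.Agent.BSDFF Pool.Agent.GBC Pool.Agent.GBU
open Pool.Agent.SmN.Fnl (Tws)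
open IsLocalRing (ResidueField residue)

private theorem Irr_one (F : Type) [Field F] [Finite F] : Nat.card F ≤
    {h : F[X] | h.Monic ∧ Irreducible h ∧ h.natDegree = 1}.ncard := by
  have hinj : Function.Injective fun a : F => (X - C a : F[X]) := by
    intro a b h
    have h1 : C a = C b := sub_right_injective h
    exact C_injective h1
  have h1 : (Set.range fun a : F => (X - C a : F[X])).ncard = Nat.card F := by
    rw [← Nat.card_coe_set_eq]
    exact Nat.card_range_of_injective hinj
  rw [← h1]
  refine Set.ncard_le_ncard ?_ (BSDP.finite_irr 1)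
  rintro _ ⟨a, rfl⟩
  exact ⟨monic_X_sub_C a, irreducible_X_sub_C a, natDegree_X_sub_C a⟩

theorem card_irr {n : ℕ} (hn : 1 ≤ n) : ∃ Q₀ : ℕ, ∀ (F : Type) [Field F] [Finite F],
    Q₀ ≤ Nat.card F → (Nat.card F : ℝ) ^ n ≤
      2 * n * {h : F[X] | h.Monic ∧ Irreducible h ∧ h.natDegree = n}.ncard := by
  refine ⟨3, fun F _ _ hF => ?_⟩
  rcases Nat.lt_or_ge n 2 with h2 | h2
  · have h1 : n = 1 := by omega
    subst h1
    have h3 : (Nat.card F : ℝ) ≤
        ({h : F[X] | h.Monic ∧ Irreducible h ∧ h.natDegree = 1}.ncard : ℝ) := by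
      exact_mod_cast Irr_one F
    have h4 : (0 : ℝ) ≤ ({h : F[X] | h.Monic ∧ Irreducible h ∧ h.natDegree = 1}.ncard : ℝ) :=
      Nat.cast_nonneg _
    rw [pow_one, Nat.cast_one, mul_one]
    linarith
  · exact_mod_cast HYP.irr_card_ge hF n h2

end Pool.Agent.HA
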