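import Pool.Agent.Lib.HA.Defs
import Pool.Agent.Lib.HA.Irr
import Pool.Agent.Lib.HA.Pol

/-!
HA (all pointed hyperelliptic curves over a global function field, MP_950c68_ag), module DensC.
`TypC`: `h` irreducible of degree `2 g - 1` arbitrary, `p = x ^ 2 + b x + c` with `b = - h.coeff (2 g - 2)` (the
trace condition) and `(#F - 1) / 2` values of `c` with `b ^ 2 - 4 c` not a square. `TypN`: `h` irreducible of degree
`2 g - 1` arbitrary, `r = h.coeff (2 g - 2) / 2`; for `g ≥ 2` `h(r) ≠ 0` is automatic, for `g = 1` `h = X + c` and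
`r = c / 2`, `h(r) = 3 c / 2`: exclude `c = 0`. The maps are injective (unique factorization).
-/

set_option autoImplicit false

open Polynomial

namespace Pool.Agent.HA

open Pool.Agent.BSDFF Pool.Agent.GBC Pool.Agent.GBU
open Pool.Agent.SmN.Fnl (Tws)
open IsLocalRing (ResidueField residue)

private theorem dc_nonsq (F : Type) [Field F] [Finite F] (h2 : (2 : F) ≠ 0) :
    Nat.card F ≤ 2 * {s : F | ¬ IsSquare s}.ncard + 1 := by
  classical
  have := Fintype.ofFinite F
  obtain ⟨n, hn⟩ := FiniteField.exists_nonsquare (F := F) (by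
    intro h
    apply h2
    have h3 := ringChar.Nat.cast_ringChar (R := F)
    rw [h] at h3
    exact_mod_cast h3)
  have hn0 : n ≠ 0 := by
    rintro rfl
    exact hn ⟨0, by simp⟩
  have h3 : (Finset.univ.erase (0 : F)).card ≤
      2 * ((Finset.univ.erase (0 : F)).image fun x => n * x ^ 2).card := by
    refine Finset.card_le_mul_card_image _ 2 ?_
    intro a ha
    obtain ⟨y, hy, rfl⟩ := Finset.mem_image.mp ha
    refine (Finset.card_le_card (t := {y, -y}) ?_).trans Finset.card_le_two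
    intro x hx
    have h4 : n * x ^ 2 = n * y ^ 2 := (Finset.mem_filter.mp hx).2
    have h5 : x ^ 2 = y ^ 2 := mul_left_cancel₀ hn0 h4
    rcases sq_eq_sq_iff_eq_or_eq_neg.mp h5 with h6 | h6
    · simp [h6]
    · simp [h6]
  have h4 : ((Finset.univ.erase (0 : F)).image fun x => n * x ^ 2).card ≤
      {s : F | ¬ IsSquare s}.ncard := by
    rw [← Set.ncard_coe_finset]
    refine Set.ncard_le_ncard ?_ (Set.toFinite _)
    intro a ha
    obtain ⟨x, hx, rfl⟩ := Finset.mem_image.mp (Finset.mem_coe.mp ha)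
    have hx0 : x ≠ 0 := Finset.ne_of_mem_erase hx
    rintro ⟨r, hr⟩
    refine hn ⟨r / x, ?_⟩
    field_simp
    rw [hr]
    ring
  have h5 : (Finset.univ.erase (0 : F)).card + 1 = Nat.card F := by
    rw [Finset.card_erase_add_one (Finset.mem_univ _), Finset.card_univ, Nat.card_eq_fintype_card]
  omega

private theorem dc_mk {F : Type} [Field F] {g : ℕ} (hg : 1 ≤ g) {p h : F[X]} (hp : p.Monic)
    (hpd : p.natDegree = 2) (hh : h.Monic) (hhd : h.natDegree = 2 * g - 1)
    (ht : p.nextCoeff + h.nextCoeff = 0) :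
    pol g (fun j : Fin (2 * g) => (p * h).coeff (2 * g - 1 - (j : ℕ))) = p * h := by
  have h1 : (p * h).natDegree = 2 * g + 1 := by
    rw [hp.natDegree_mul hh, hpd, hhd]
    omega
  have h2 : (p * h).coeff (2 * g) = 0 := by
    have h3 := hp.nextCoeff_mul hh
    rw [ht, nextCoeff_of_natDegree_pos (by omega), h1] at h3
    exact h3
  obtain ⟨a, ha⟩ := exists_pol g (hp.mul hh) h1 h2
  rw [ha]
  congr 1
  funext j
  exact coeff_pol g a j

private theorem dc_dvd {F : Type} [Field F] {h h' : F[X]} (hh : h.Monic) (hi : Irreducible h)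
    (hh' : h'.Monic) (hi' : Irreducible h') (hd : h ∣ h') : h = h' :=
  eq_of_monic_of_associated hh hh' (hi.associated_of_dvd hi' hd)

theorem dens_C {g : ℕ} (hg : 1 ≤ g) : ∃ c : ℝ, 0 < c ∧ ∃ Q₀ : ℕ, ∀ (F : Type) [Field F]
    [Finite F], Q₀ ≤ Nat.card F → (2 : F) ≠ 0 →
      c * (Nat.card F : ℝ) ^ (2 * g) ≤ {a : Fin (2 * g) → F | TypC (pol g a)}.ncard := by
  obtain ⟨Q₁, hQ₁⟩ := card_irr (n := 2 * g - 1) (by omega)
  have hgr : (0 : ℝ) < ((2 * g - 1 : ℕ) : ℝ) := by
    have : 0 < 2 * g - 1 := by omega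
    exact_mod_cast this
  refine ⟨1 / (6 * ((2 * g - 1 : ℕ) : ℝ)), by positivity, max Q₁ 3, fun F _ _ hF h2 => ?_⟩
  have hF1 : Q₁ ≤ Nat.card F := le_trans (le_max_left _ _) hF
  have hF3 : 3 ≤ Nat.card F := le_trans (le_max_right _ _) hF
  have h4 : (4 : F) ≠ 0 := by
    have : (4 : F) = 2 * 2 := by norm_num
    rw [this]
    exact mul_ne_zero h2 h2
  set I : Set F[X] := {h : F[X] | h.Monic ∧ Irreducible h ∧ h.natDegree = 2 * g - 1} with hI
  set S : Set F := {s : F | ¬ IsSquare s} with hS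
  -- the quadratic polynomial
  let Q : F → F → F[X] := fun b s => X ^ 2 + (C b * X + C ((b ^ 2 - s) / 4))
  have hlt : ∀ b s : F, (C b * X + C ((b ^ 2 - s) / 4) : F[X]).degree < (2 : ℕ) := by
    intro b s
    refine lt_of_le_of_lt degree_linear_le ?_
    norm_num
  have hQm : ∀ b s : F, (Q b s).Monic := fun b s => monic_X_pow_add (hlt b s)
  have hQd : ∀ b s : F, (Q b s).natDegree = 2 := by
    intro b s
    refine natDegree_eq_of_degree_eq_some ?_
    simp only [Q]
    rw [degree_add_eq_left_of_degree_lt (by rw [degree_X_pow]; exact hlt b s), degree_X_pow]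
  have hQ0 : ∀ b s : F, (Q b s).coeff 0 = (b ^ 2 - s) / 4 := by
    intro b s
    simp [Q]
  have hQ1 : ∀ b s : F, (Q b s).nextCoeff = b := by
    intro b s
    rw [nextCoeff_of_natDegree_pos (by rw [hQd]; norm_num), hQd]
    simp [Q, coeff_C]
  have hQi : ∀ b s : F, ¬ IsSquare s → Irreducible (Q b s) := by
    intro b s hs
    rw [(hQm b s).irreducible_iff_roots_eq_zero_of_degree_le_three (by rw [hQd])
      (by rw [hQd]; norm_num)]
    refine Multiset.eq_zero_of_forall_notMem fun x hx => hs ⟨2 * x + b, ?_⟩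
    have hx1 : (Q b s).eval x = 0 := (mem_roots'.mp hx).2
    simp only [Q, eval_add, eval_pow, eval_X, eval_mul, eval_C] at hx1
    field_simp at hx1
    linear_combination -hx1
  let Φ : F[X] × F → (Fin (2 * g) → F) := fun z j =>
    (Q (-z.1.nextCoeff) z.2 * z.1).coeff (2 * g - 1 - (j : ℕ))
  have hΦ : ∀ z ∈ I ×ˢ S, pol g (Φ z) = Q (-z.1.nextCoeff) z.2 * z.1 := by
    rintro ⟨h, s⟩ ⟨⟨hh, hi, hd⟩, hs⟩
    exact dc_mk hg (hQm _ _) (hQd _ _) hh hd (by rw [hQ1]; simp)
  have hcard : (I ×ˢ S).ncard ≤ {a : Fin (2 * g) → F | TypC (pol g a)}.ncard := by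
    refine Set.ncard_le_ncard_of_injOn Φ ?_ ?_ (Set.toFinite _)
    · rintro ⟨h, s⟩ hz
      obtain ⟨⟨hh, hi, hd⟩, hs⟩ := hz
      refine ⟨Q (-h.nextCoeff) s, h, hQm _ _, hQi _ _ hs, hQd _ _, hh, hi, ?_, ?_⟩
      · rw [hd]
        exact ⟨g - 1, by omega⟩
      · exact hΦ (h, s) ⟨⟨hh, hi, hd⟩, hs⟩
    · rintro ⟨h, s⟩ hz ⟨h', s'⟩ hz' heq
      have e1 := hΦ _ hz
      have e2 := hΦ _ hz'
      rw [heq, e2] at e1
      obtain ⟨⟨hh, hi, hd⟩, hs⟩ := hz
      obtain ⟨⟨hh', hi', hd'⟩, hs'⟩ := hz'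
      simp only at e1 hh hi hd hs hh' hi' hd' hs'
      have e3 : h ∣ Q (-h'.nextCoeff) s' * h' := by
        rw [e1]
        exact dvd_mul_left _ _
      have e4 : h = h' := by
        rcases hi.prime.dvd_or_dvd e3 with h5 | h5
        · exfalso
          have h6 := dc_dvd hh hi (hQm _ _) (hQi _ _ hs') h5
          have h7 := hQd (-h'.nextCoeff) s'
          rw [← h6, hd] at h7
          omega
        · exact dc_dvd hh hi hh' hi' h5
      subst e4
      have e5 : Q (-h.nextCoeff) s' = Q (-h.nextCoeff) s := mul_right_cancel₀ hh.ne_zero e1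
      have e6 := congrArg (fun p : F[X] => p.coeff 0) e5
      simp only [hQ0] at e6
      have e7 : s = s' := by
        field_simp at e6
        linear_combination e6
      rw [e7]
  rw [Set.ncard_prod] at hcard
  have hI1 := hQ₁ F hF1
  have hS1 : Nat.card F ≤ 2 * S.ncard + 1 := dc_nonsq F h2
  have hS2 : Nat.card F ≤ 3 * S.ncard := by
    have : 1 ≤ S.ncard := by omega
    omega
  have hS3 : (Nat.card F : ℝ) ≤ 3 * (S.ncard : ℝ) := by exact_mod_cast hS2
  have hcard' : (I.ncard : ℝ) * (S.ncard : ℝ) ≤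
      ({a : Fin (2 * g) → F | TypC (pol g a)}.ncard : ℝ) := by exact_mod_cast hcard
  refine le_trans ?_ hcard'
  rw [div_mul_eq_mul_div, one_mul, div_le_iff₀ (by positivity)]
  have h6 : (Nat.card F : ℝ) ^ (2 * g) = (Nat.card F : ℝ) ^ (2 * g - 1) * Nat.card F := by
    rw [← pow_succ]
    congr 1
    omega
  rw [h6]
  have h7 : (0 : ℝ) ≤ (Nat.card F : ℝ) := Nat.cast_nonneg _
  have h8 : (0 : ℝ) ≤ (I.ncard : ℝ) := Nat.cast_nonneg _
  calc (Nat.card F : ℝ) ^ (2 * g - 1) * Nat.card F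
      ≤ (2 * ((2 * g - 1 : ℕ) : ℝ) * (I.ncard : ℝ)) * (3 * (S.ncard : ℝ)) :=
        mul_le_mul hI1 hS3 h7 (by positivity)
    _ = (I.ncard : ℝ) * (S.ncard : ℝ) * (6 * ((2 * g - 1 : ℕ) : ℝ)) := by ring

theorem dens_N {g : ℕ} (hg : 1 ≤ g) : ∃ c : ℝ, 0 < c ∧ ∃ Q₀ : ℕ, ∀ (F : Type) [Field F]
    [Finite F], Q₀ ≤ Nat.card F → (2 : F) ≠ 0 → (3 : F) ≠ 0 →
      c * (Nat.card F : ℝ) ^ (2 * g - 1) ≤ {a : Fin (2 * g) → F | TypN (pol g a)}.ncard := by
  obtain ⟨Q₁, hQ₁⟩ := card_irr (n := 2 * g - 1) (by omega)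
  have hg1 : 0 < 2 * g - 1 := by omega
  have hgr : (0 : ℝ) < ((2 * g - 1 : ℕ) : ℝ) := by exact_mod_cast hg1
  refine ⟨1 / (4 * ((2 * g - 1 : ℕ) : ℝ)), by positivity, max Q₁ (4 * (2 * g - 1)),
    fun F _ _ hF h2 h3 => ?_⟩
  have hF1 : Q₁ ≤ Nat.card F := le_trans (le_max_left _ _) hF
  have hF3 : 4 * (2 * g - 1) ≤ Nat.card F := le_trans (le_max_right _ _) hF
  set I : Set F[X] := {h : F[X] | h.Monic ∧ Irreducible h ∧ h.natDegree = 2 * g - 1} with hI
  have hIfin : I.Finite := BSDP.finite_irr (2 * g - 1)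
  -- the root
  let ρ : F[X] → F := fun h => h.nextCoeff / 2
  set J : Set F[X] := {h : F[X] | h ∈ I ∧ h.eval (ρ h) ≠ 0} with hJ
  have hIJ : I.ncard ≤ J.ncard + 1 := by
    have h4 : I ⊆ J ∪ {X} := by
      rintro h hh
      by_cases h5 : h.eval (ρ h) = 0
      · right
        obtain ⟨hm, hi, hd⟩ := hh
        have h6 : (X - C (ρ h)) ∣ h := dvd_iff_isRoot.mpr h5
        have h7 := dc_dvd (monic_X_sub_C _) (irreducible_X_sub_C _) hm hi h6
        have h8 : h.nextCoeff = -ρ h := by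
          conv_lhs => rw [← h7]
          rw [nextCoeff_X_sub_C]
        have h9 : ρ h = 0 := by
          have h10 : h.nextCoeff = 2 * ρ h := by
            simp only [ρ]
            field_simp
          have h11 : 3 * ρ h = 0 := by
            linear_combination h10.symm.trans h8
          rcases mul_eq_zero.mp h11 with h12 | h12
          · exact absurd h12 h3
          · exact h12
        rw [Set.mem_singleton_iff, ← h7, h9]
        simp
      · left
        exact ⟨hh, h5⟩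
    have hJfin : J.Finite := hIfin.subset fun h hh => hh.1
    calc I.ncard ≤ (J ∪ {X}).ncard := Set.ncard_le_ncard h4 (hJfin.union (Set.finite_singleton _))
      _ ≤ J.ncard + ({X} : Set F[X]).ncard := Set.ncard_union_le _ _
      _ = J.ncard + 1 := by rw [Set.ncard_singleton]
  let Q : F[X] → F[X] := fun h => (X - C (ρ h)) ^ 2
  have hQm : ∀ h, (Q h).Monic := fun h => (monic_X_sub_C _).pow 2
  have hQd : ∀ h, (Q h).natDegree = 2 := fun h => by
    simp only [Q]
    rw [natDegree_pow, natDegree_X_sub_C]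
  have hQ1 : ∀ h : F[X], (Q h).nextCoeff + h.nextCoeff = 0 := by
    intro h
    simp only [Q]
    rw [sq, (monic_X_sub_C _).nextCoeff_mul (monic_X_sub_C _), nextCoeff_X_sub_C]
    simp only [ρ]
    field_simp
    ring
  let Φ : F[X] → (Fin (2 * g) → F) := fun h j => (Q h * h).coeff (2 * g - 1 - (j : ℕ))
  have hΦ : ∀ h ∈ J, pol g (Φ h) = Q h * h := by
    rintro h ⟨⟨hh, hi, hd⟩, hs⟩
    exact dc_mk hg (hQm _) (hQd _) hh hd (hQ1 h)
  have hcard : J.ncard ≤ {a : Fin (2 * g) → F | TypN (pol g a)}.ncard := by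
    refine Set.ncard_le_ncard_of_injOn Φ ?_ ?_ (Set.toFinite _)
    · rintro h hz
      exact ⟨ρ h, h, hz.1.1, hz.1.2.1, hΦ h hz, hz.2⟩
    · rintro h hz h' hz' heq
      have e1 := hΦ _ hz
      have e2 := hΦ _ hz'
      rw [heq, e2] at e1
      obtain ⟨⟨hh, hi, hd⟩, hs⟩ := hz
      obtain ⟨⟨hh', hi', hd'⟩, hs'⟩ := hz'
      have e3 : h ∣ Q h' * h' := by
        rw [e1]
        exact dvd_mul_left _ _
      have e3' : h' ∣ Q h * h := by
        rw [← e1]
        exact dvd_mul_left _ _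
      rcases hi.prime.dvd_or_dvd e3 with h5 | h5
      · rcases hi'.prime.dvd_or_dvd e3' with h6 | h6
        · have h7 := dc_dvd hh hi (monic_X_sub_C _) (irreducible_X_sub_C _)
            (hi.prime.dvd_of_dvd_pow h5)
          have h8 := dc_dvd hh' hi' (monic_X_sub_C _) (irreducible_X_sub_C _)
            (hi'.prime.dvd_of_dvd_pow h6)
          have h9 : h' ^ 2 * h = h ^ 2 * h' := by
            have h10 : Q h = h' ^ 2 := by simp only [Q]; rw [← h8]
            have h11 : Q h' = h ^ 2 := by simp only [Q]; rw [← h7]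
            rw [h10, h11] at e1
            exact e1.symm
          have h12 : h * h' * h' = h * h' * h := by linear_combination h9
          exact (mul_left_cancel₀ (mul_ne_zero hh.ne_zero hh'.ne_zero) h12).symm
        · exact (dc_dvd hh' hi' hh hi h6).symm
      · exact dc_dvd hh hi hh' hi' h5
  have hI1 := hQ₁ F hF1
  have hcard' : (J.ncard : ℝ) ≤
      ({a : Fin (2 * g) → F | TypN (pol g a)}.ncard : ℝ) := by exact_mod_cast hcard
  refine le_trans ?_ hcard'
  have hIJ' : (I.ncard : ℝ) ≤ J.ncard + 1 := by exact_mod_cast hIJ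
  rw [div_mul_eq_mul_div, one_mul, div_le_iff₀ (by positivity)]
  have h7 : (1 : ℝ) ≤ (Nat.card F : ℝ) := by
    have : 1 ≤ Nat.card F := by omega
    exact_mod_cast this
  have h8 : 4 * ((2 * g - 1 : ℕ) : ℝ) ≤ (Nat.card F : ℝ) ^ (2 * g - 1) := by
    calc 4 * ((2 * g - 1 : ℕ) : ℝ) ≤ (Nat.card F : ℝ) := by exact_mod_cast hF3
      _ = (Nat.card F : ℝ) ^ 1 := (pow_one _).symm
      _ ≤ (Nat.card F : ℝ) ^ (2 * g - 1) := pow_le_pow_right₀ h7 (by omega)
  nlinarith [hI1, hIJ', hgr, h8]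

end Pool.Agent.HA
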