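import Pool.Agent.Lib.HA.Main
import Pool.Agent.Lib.SmNH.Fin.JtoEH

/-!
HA (all pointed hyperelliptic curves over a global function field, MP_950c68_ag), module Ell.
The case `g = 1`: all elliptic curves over a global function field (MP_48b749_nt).
-/

set_option autoImplicit false

open Polynomial WeierstrassCurve

namespace Pool.Agent.HA

open Pool.Agent.BSDFF Pool.Agent.BSDFF.MW Pool.Agent.GBC Pool.Agent.GBU Height
open Pool.Agent.SmN.Fnl
open Pool.Agent.SmJ.R (OddDeg GoodP ZeroP OneP goodOn_iff zeroOn_iff)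
open Pool.Agent.SmNH.Fnl (OrdP ord_short ordP_congr)
open IsLocalRing (ResidueField residue)

/-- The curve `y ^ 2 = x ^ 3 + a 0 x + a 1`. -/
def ell {K : Type} [Field K] (a : Fin (2 * 1) → K) : WeierstrassCurve K := ⟨0, 0, 0, a 0, a 1⟩

theorem pol_one {R : Type*} [CommRing R] (a : Fin (2 * 1) → R) :
    pol 1 a = X ^ 3 + C (a 0) * X + C (a 1) := by
  unfold pol
  have h : (∑ j : Fin (2 * 1), C (a j) * X ^ (2 * 1 - 1 - (j : ℕ)) : R[X]) =
      C (a 0) * X + C (a 1) := by
    change (∑ j : Fin 2, C (a j) * X ^ (2 * 1 - 1 - (j : ℕ)) : R[X]) = _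
    rw [Fin.sum_univ_two]
    simp
  rw [h, ← add_assoc]

section jinv

variable {K : Type} [Field K]

theorem c4_ell (a : Fin (2 * 1) → K) : (ell a).c₄ = -48 * a 0 := by
  rw [WeierstrassCurve.c₄, WeierstrassCurve.b₂, WeierstrassCurve.b₄, ell]
  ring

theorem disc_ell (a : Fin (2 * 1) → K) : (ell a).Δ = -64 * a 0 ^ 3 - 432 * a 1 ^ 2 := by
  rw [WeierstrassCurve.Δ, WeierstrassCurve.b₂, WeierstrassCurve.b₄, WeierstrassCurve.b₆,
    WeierstrassCurve.b₈, ell]
  ring

theorem j_sc (a : Fin (2 * 1) → K) {d : K} (hd : d ≠ 0) :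
    (ell (sc d a)).c₄ ^ 3 / (ell (sc d a)).Δ = (ell a).c₄ ^ 3 / (ell a).Δ := by
  have h0 : sc d a 0 = d ^ 2 * a 0 := rfl
  have h1 : sc d a 1 = d ^ 3 * a 1 := rfl
  rw [c4_ell, c4_ell, disc_ell, disc_ell, h0, h1]
  have e1 : (-48 * (d ^ 2 * a 0)) ^ 3 = d ^ 6 * (-48 * a 0) ^ 3 := by ring
  have e2 : -64 * (d ^ 2 * a 0) ^ 3 - 432 * (d ^ 3 * a 1) ^ 2 =
    d ^ 6 * (-64 * a 0 ^ 3 - 432 * a 1 ^ 2) := by ring
  rw [e1, e2, mul_div_mul_left _ _ (pow_ne_zero 6 hd)]

/-- A cubic with a node. -/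
theorem node_cubic {F : Type} [Field F] {A B : F} (h6 : (6 : F) ≠ 0)
    (h : TypN (X ^ 3 + C A * X + C B : F[X])) :
    (-48 * A) ^ 3 ≠ 0 ∧ -64 * A ^ 3 - 432 * B ^ 2 = 0 := by
  obtain ⟨r, h, -, -, hf, hr⟩ := h
  have h0 := congrArg (eval r) hf
  have h1 := congrArg (fun p => eval r (derivative p)) hf
  have h2 := congrArg (fun p => eval r (derivative (derivative p))) hf
  simp only [derivative_add, derivative_mul, derivative_X, derivative_C, derivative_sub, eval_add,
    eval_mul, eval_pow, eval_X, eval_C, eval_sub, derivative_pow, eval_zero, eval_one,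
    sub_self] at h0 h1 h2
  norm_num at h0 h1 h2
  have hA : A = -3 * r ^ 2 := by linear_combination h1
  have hB : B = 2 * r ^ 3 := by
    rw [hA] at h0
    linear_combination h0
  have h2' : (2 : F) ≠ 0 := by
    intro h
    apply h6
    have : (6 : F) = 2 * 3 := by norm_num
    rw [this, h, zero_mul]
  have hr0 : r ≠ 0 := by
    rintro rfl
    apply hr
    have : 2 * eval 0 h = 0 := by linear_combination -h2
    exact (mul_eq_zero.1 this).resolve_left h2'
  constructor
  · rw [hA]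
    have : (-48 * (-3 * r ^ 2)) ^ 3 = (6 ^ 2 * 2 ^ 2 * r ^ 2) ^ 3 := by ring
    rw [this]
    exact pow_ne_zero 3 (mul_ne_zero (mul_ne_zero (pow_ne_zero 2 h6) (pow_ne_zero 2 h2'))
      (pow_ne_zero 2 hr0))
  · rw [hA, hB]
    ring

end jinv

section trans

variable {k k' K : Type} [Field k] [Field k'] [Finite k] [Field K] [Algebra k K] [Algebra k' K]

/-- The algebraic elements are in every valuation ring. -/
theorem mem_of_algebraic {x : K} (hx : IsAlgebraic k x) (w : ValuationSubring K) : x ∈ w := by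
  have h6 : IsIntegral k x := hx.isIntegral
  have : FiniteDimensional k (IntermediateField.adjoin k {x}) :=
    IntermediateField.adjoin.finiteDimensional h6
  have : Finite (IntermediateField.adjoin k {x}) := Module.finite_of_finite k
  exact mem_of_finite (algebraMap (IntermediateField.adjoin k {x}) K) w
    ⟨x, IntermediateField.mem_adjoin_simple_self k x⟩

/-- A curve with a place of multiplicative reduction has a transcendental `j`. -/
theorem trans_j (h6 : (6 : k') ≠ 0) {b : Fin (2 * 1) → K} (hb : (ell b).Δ ≠ 0)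
    {v : Place k' K} (hv : At v TypN b) : Transcendental k ((ell b).c₄ ^ 3 / (ell b).Δ) := by
  intro halg
  have hj := mem_of_algebraic halg v.ring
  obtain ⟨hint, ht⟩ := hv
  rw [pol_one] at ht
  have h6' : (6 : ResidueField v.ring) ≠ 0 := by
    intro h
    apply h6
    apply v.constMap.injective
    rw [map_ofNat, h, map_zero]
  obtain ⟨h1, h2⟩ := node_cubic h6' ht
  have e0 : redV v b 0 = residue v.ring ⟨b 0, hint 0⟩ := by
    rw [redV, red_of_mem]
  have e1 : redV v b 1 = residue v.ring ⟨b 1, hint 1⟩ := by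
    rw [redV, red_of_mem]
  rw [e0] at h1
  rw [e0, e1] at h2
  apply h1
  have h3 : (-48 * (⟨b 0, hint 0⟩ : v.ring)) ^ 3 =
      (⟨_, hj⟩ : v.ring) * (-64 * (⟨b 0, hint 0⟩ : v.ring) ^ 3 -
        432 * (⟨b 1, hint 1⟩ : v.ring) ^ 2) := by
    apply Subtype.ext
    change (-48 * b 0) ^ 3 = (ell b).c₄ ^ 3 / (ell b).Δ * (-64 * b 0 ^ 3 - 432 * b 1 ^ 2)
    rw [← c4_ell, ← disc_ell, div_mul_cancel₀ _ hb]
  have h4 := congrArg (residue v.ring) h3
  simp only [map_mul, map_pow, map_sub, map_neg, map_ofNat] at h4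
  rw [h4, h2, mul_zero]

end trans

section iff

variable {k K : Type} [Field k] [Finite k] [Field K] [Algebra k K] [Algebra.EssFiniteType k K]
  (hK : Algebra.trdeg k K = 1) (h6 : (6 : k) ≠ 0) {a : Fin (2 * 1) → K}
  (hs : (pol 1 a).Separable)

include h6 hs in
omit [Finite k] [Algebra.EssFiniteType k K] in
theorem isElliptic_ell : (ell a).IsElliptic := by
  rw [pol_one] at hs
  exact disc_ne (SmN.Fnl.two_ne_K h6) hs

include hK h6 hs

theorem good_ell {j : ℕ} (h : GoodF k (pol 1 a) j) : Sm.L.GoodC k (ell a) j := by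
  obtain ⟨ho, h1⟩ := h
  have key : ∀ (F G : K[X]) (_ : OddDeg F) (_ : OddDeg G), F = G → GoodP k F j → GoodP k G j := by
    rintro F _ _ _ rfl h
    exact h
  rw [pol_one] at hs
  exact goodE_short hK h6 hs (key _ _ _ _ (pol_one a) h1)

omit hK [Finite k] [Algebra.EssFiniteType k K] in
theorem ord_ell (h : OrdF k (pol 1 a)) : Sm.L.OrdC k (ell a) := by
  obtain ⟨ho, h1⟩ := h
  rw [pol_one] at hs
  exact ord_short h6 hs (ordP_congr _ _ (pol_one a) h1)

theorem rank0_ell_of (h : ZeroF k (pol 1 a)) : Sm.L.Rank0C k (ell a) := by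
  obtain ⟨ho, h1⟩ := h
  have key : ∀ (F G : K[X]) (_ : OddDeg F) (_ : OddDeg G), F = G → ZeroP k F → ZeroP k G := by
    rintro F _ _ _ rfl h
    exact h
  rw [pol_one] at hs
  exact rank0_short hK h6 hs (key _ _ _ _ (pol_one a) h1)

theorem corank1_ell_of (h : OneF k (pol 1 a)) : Sm.L.Corank1C k (ell a) := by
  obtain ⟨ho, h1⟩ := h
  have key : ∀ (F G : K[X]) (_ : OddDeg F) (_ : OddDeg G), F = G → OneP k F → OneP k G := by
    rintro F _ _ _ rfl h
    exact h
  rw [pol_one] at hs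
  exact corank1_short hK h6 hs (key _ _ _ _ (pol_one a) h1)

omit hK [Finite k] [Algebra.EssFiniteType k K] in
/-- The corank of the Jacobian is that of the elliptic curve. -/
theorem corank_back {r : ℕ} (h : Sm.L.HasCorank k (SeparableClosure K) (ell a) r)
    (ho : OddDeg (pol 1 a)) :
    SmJ.L.HasCorank k (SmJ.R.galP (SeparableClosure K) (pol 1 a)) r := by
  have h2 : (2 : K) ≠ 0 := SmN.Fnl.two_ne_K h6
  have hEl := isElliptic_ell h6 hs
  have hSh : SmN.Fnl.Short (ell a).toAffine := ⟨rfl, rfl⟩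
  obtain ⟨⟨e, he⟩, -⟩ := exists_isoE (ell a) h2 (SeparableClosure K)
  have h3 : SmJ.L.HasCorank k (Sm.L.gal (SeparableClosure K) (ell a)) r := by
    obtain ⟨B, hB⟩ := h
    refine ⟨B, fun i => ?_⟩
    rw [← sel_eq]
    exact hB i
  have h4 := hasCorank_iso (k := k) e.symm (fun s x => he_symm e he s x) h3
  have hc : cubW (ell a).toAffine = pol 1 a := by
    rw [pol_one]
    exact cubW_mk (a 0) (a 1)
  have key : ∀ (F G : K[X]) (_ : OddDeg F) (_ : OddDeg G), F = G →
      SmJ.L.HasCorank k (SmJ.R.galP (SeparableClosure K) F) r →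
        SmJ.L.HasCorank k (SmJ.R.galP (SeparableClosure K) G) r := by
    rintro F _ _ _ rfl h
    exact h
  exact key _ _ _ _ hc h4

end iff

section sha

variable {k K Ω : Type} [Field k] [Field K] [Field Ω] [Algebra k K] [Algebra K Ω]
  (W : WeierstrassCurve K)

theorem zsha_eq : Sm.L.ZSha k Ω W = SmJ.L.ZSha k (Sm.L.gal Ω W) := by
  ext ψ
  constructor
  · intro h
    exact ⟨h.cocycle, h.cont, h.loc⟩
  · intro h
    exact ⟨h.cocycle, h.cont, h.loc⟩

theorem sha_back (h : Finite (Sm.L.Sha2 k Ω W)) : Finite (SmJ.L.Sha2 k (Sm.L.gal Ω W)) := by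
  have h1 : ∀ (Z Z' : AddSubgroup ((Ω ≃ₐ[K] Ω) → Sm.L.Pts Ω W)), Z = Z' →
      Finite {x : Z ⧸ (Sm.L.BSha Ω W).addSubgroupOf Z // ∃ i : ℕ, 2 ^ i • x = 0} →
      Finite {x : Z' ⧸ (Sm.L.BSha Ω W).addSubgroupOf Z' // ∃ i : ℕ, 2 ^ i • x = 0} := by
    rintro Z _ rfl h
    exact h
  exact h1 _ _ (zsha_eq W) h

end sha

section back

variable {k K : Type} [Field k] [Field K] [Algebra k K]
  (h6 : (6 : k) ≠ 0) {a : Fin (2 * 1) → K}
  (hs : (pol 1 a).Separable)

include h6 hs

theorem zero_back (h : Sm.L.Rank0C k (ell a)) : ZeroF k (pol 1 a) := by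
  have ho : OddDeg (pol 1 a) := ⟨⟨1, natDegree_pol 1 a⟩⟩
  refine ⟨ho, (zeroOn_iff _ _).2 ⟨corank_back h6 hs h.1 ho, ?_⟩⟩
  have h2 : (2 : K) ≠ 0 := SmN.Fnl.two_ne_K h6
  have hEl := isElliptic_ell h6 hs
  have hSh : SmN.Fnl.Short (ell a).toAffine := ⟨rfl, rfl⟩
  obtain ⟨⟨e, he⟩, -⟩ := exists_isoE (ell a) h2 (SeparableClosure K)
  have h4 := finite_sha2_iso (k := k) e.symm (fun s x => he_symm e he s x) (sha_back (ell a) h.2.2)
  have hc : cubW (ell a).toAffine = pol 1 a := by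
    rw [pol_one]
    exact cubW_mk (a 0) (a 1)
  have key : ∀ (F G : K[X]) (_ : OddDeg F) (_ : OddDeg G), F = G →
      Finite (SmJ.L.Sha2 k (SmJ.R.galP (SeparableClosure K) F)) →
        Finite (SmJ.L.Sha2 k (SmJ.R.galP (SeparableClosure K) G)) := by
    rintro F _ _ _ rfl h
    exact h
  exact key _ _ _ _ hc h4

theorem one_back (h : Sm.L.Corank1C k (ell a)) : OneF k (pol 1 a) := by
  have ho : OddDeg (pol 1 a) := ⟨⟨1, natDegree_pol 1 a⟩⟩
  exact ⟨ho, corank_back h6 hs h.1 ho⟩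

end back

/-- The conclusions for an elliptic curve: the `j`-invariant is transcendental over `k`, the
Selmer groups of `V = E[2 ^ ∞]` and of `V ⊗ Z[ε] / ε ^ 2` have the same corank `r ≤ 1`, the rank is at
most `r`, and so on. -/
structure GoodEll (k : Type) {K : Type} [Field k] [Field K] [Algebra k K] (a : Fin (2 * 1) → K)
    (j : ℕ) : Prop where
  jinv : Transcendental k ((ell a).c₄ ^ 3 / (ell a).Δ)
  good : Sm.L.GoodC k (ell a) j
  ord : Sm.L.OrdC k (ell a)

theorem fam_congr {k K : Type} [Field k] [Field K] [Algebra k K] {g M N : ℕ}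
    {P Q : (Fin (2 * g) → K) → Prop} (h : ∀ a, (pol g a).Separable → (P a ↔ Q a)) :
    Fam k K g M N P = Fam k K g M N Q := by
  ext C
  refine exists_congr fun a => and_congr_right fun _ => and_congr_right fun hs =>
    and_congr_right fun _ => and_congr_right fun _ => h a hs

/-- **All elliptic curves over a global function field.** -/
theorem ell_main (k K : Type) [Field k] [Finite k] [Field K] [Algebra k K]
    [Algebra.EssFiniteType k K] (hK : Algebra.trdeg k K = 1) (h6 : (6 : k) ≠ 0) :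
    (∀ M N, (Fam k K 1 M N fun _ => True).Finite) ∧
    ∀ ε : ℝ, 0 < ε → ∃ M₀ : ℕ, ∀ M ≥ M₀, ∃ j N₀ : ℕ, ∀ N ≥ N₀,
      0 < (Fam k K 1 M N fun _ => True).ncard ∧
      ((Fam k K 1 M N fun a => ¬ GoodEll k a j).ncard : ℝ) ≤
        ε * (Fam k K 1 M N fun _ => True).ncard ∧
      |((Fam k K 1 M N fun a => Sm.L.Rank0C k (ell a)).ncard : ℝ) -
        (Fam k K 1 M N fun _ => True).ncard / 2| ≤ ε * (Fam k K 1 M N fun _ => True).ncard ∧
      |((Fam k K 1 M N fun a => Sm.L.Corank1C k (ell a)).ncard : ℝ) -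
        (Fam k K 1 M N fun _ => True).ncard / 2| ≤
        ε * (Fam k K 1 M N fun _ => True).ncard := by
  have hp : ((2 * 1 + 1).factorial : k) ≠ 0 := by
    have : (2 * 1 + 1).factorial = 6 := rfl
    rw [this]
    exact_mod_cast h6
  have h6' : (6 : cst k K) ≠ 0 := by
    intro h
    apply h6
    apply (algebraMap k (cst k K)).injective
    rw [map_ofNat, h, map_zero]
  obtain ⟨h1, h2⟩ := fam_mainG k K hK le_rfl hp (fun j a => GoodEll k a j)
    fun b hb hgen d j hG hO => by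
      have hsd : (pol 1 (sc (d : K) b)).Separable := sep_sc hb d.ne_zero
      have hel := isElliptic_ell h6 hb
      refine ⟨?_, good_ell hK h6 hsd hG, ord_ell h6 hsd hO⟩
      rw [j_sc b d.ne_zero]
      obtain ⟨v, -, hv⟩ := hgen.N
      exact trans_j h6' hel.isUnit.ne_zero hv
  have e0 : ∀ M N, (Fam k K 1 M N fun a => Sm.L.Rank0C k (ell a)) =
      Fam k K 1 M N fun a => ZeroF k (pol 1 a) := fun M N =>
    fam_congr fun a hs => ⟨zero_back h6 hs, rank0_ell_of hK h6 hs⟩
  have e1 : ∀ M N, (Fam k K 1 M N fun a => Sm.L.Corank1C k (ell a)) =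
      Fam k K 1 M N fun a => OneF k (pol 1 a) := fun M N =>
    fam_congr fun a hs => ⟨one_back h6 hs, corank1_ell_of hK h6 hs⟩
  refine ⟨h1, fun ε hε => ?_⟩
  simp only [e0, e1]
  exact h2 ε hε

end Pool.Agent.HA
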