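import Pool.Agent.Lib.HA.Defs
import Pool.Agent.Lib.HA.PermT
import Pool.Agent.Lib.HA.Pol
import Pool.Agent.Lib.SmNJ.GoodN

/-!
HA (all pointed hyperelliptic curves over a global function field, MP_950c68_ag), module FrobR.
Frobenius `phK Ω v` at the place `abK Ω v` above `v`: it acts on the reductions of the roots (they are integral, and distinct modulo the place) as
`x ↦ x ^ q_v`. The roots of an irreducible factor of degree `m` of the reduction form one orbit, a cycle of length `m`. Then `perm_top` for the range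
of `pm K a`. Also the place of type `N` gives the node of helper77 (`SmNJ/Mult.lean`).
-/

set_option autoImplicit false

open Polynomial

namespace Pool.Agent.HA

open Pool.Agent.BSDFF Pool.Agent.GBC Pool.Agent.GBU
open Pool.Agent.SmN.Fnl (Tws)
open IsLocalRing (ResidueField residue)

section finite

variable {F L : Type*} [Field F] [Finite F] [Field L]

private theorem FrobR_conj (ι : F →+* L) {h : F[X]} (hi : Irreducible h) {x y : L}
    (hx : h.eval₂ ι x = 0) (hy : h.eval₂ ι y = 0) : ∃ s : ℕ, y = x ^ (Nat.card F ^ s) := by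
  classical
  have := Fintype.ofFinite F
  algebraize [ι]
  have hx' : aeval x h = 0 := hx
  have hy' : aeval y h = 0 := hy
  have hix : IsIntegral F x := (isAlgebraic_iff_isIntegral).1 ⟨h, hi.ne_zero, hx'⟩
  have hiy : IsIntegral F y := (isAlgebraic_iff_isIntegral).1 ⟨h, hi.ne_zero, hy'⟩
  let E := IntermediateField.adjoin F ({x, y} : Set L)
  have hfd : FiniteDimensional F E := IntermediateField.finiteDimensional_adjoin (by
    rintro z (rfl | hz)
    · exact hix
    · rw [Set.mem_singleton_iff] at hz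
      subst hz
      exact hiy)
  have hfin : Finite E := Module.finite_of_finite F
  have hxE : x ∈ E := IntermediateField.subset_adjoin F _ (by simp)
  have hyE : y ∈ E := IntermediateField.subset_adjoin F _ (by simp)
  have hmx : minpoly F x = minpoly F y := by
    rw [← minpoly.eq_of_irreducible hi hx', ← minpoly.eq_of_irreducible hi hy']
  have hmE : minpoly F (⟨x, hxE⟩ : E) = minpoly F (⟨y, hyE⟩ : E) := by
    have e1 : minpoly F (algebraMap E L ⟨x, hxE⟩) = minpoly F (⟨x, hxE⟩ : E) :=
      minpoly.algebraMap_eq (algebraMap E L).injective _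
    have e2 : minpoly F (algebraMap E L ⟨y, hyE⟩) = minpoly F (⟨y, hyE⟩ : E) :=
      minpoly.algebraMap_eq (algebraMap E L).injective _
    rw [← e1, ← e2]
    exact hmx
  have hconj : IsConjRoot F (⟨y, hyE⟩ : E) (⟨x, hxE⟩ : E) := hmE.symm
  obtain ⟨r, hr⟩ := hconj.exists_algEquiv
  obtain ⟨n, hn⟩ := (FiniteField.bijective_frobeniusAlgEquivOfAlgebraic_pow F E).2 r
  refine ⟨n.1, ?_⟩
  have h2 : (FiniteField.frobeniusAlgEquivOfAlgebraic F E ^ n.1) (⟨x, hxE⟩ : E) =
      (⟨x, hxE⟩ : E) ^ (Fintype.card F ^ n.1) := by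
    rw [AlgEquiv.coe_pow, FiniteField.coe_frobeniusAlgEquivOfAlgebraic_iterate]
  have h3 : (⟨y, hyE⟩ : E) = r ⟨x, hxE⟩ := hr.symm
  rw [← hn] at h3
  simp only at h3
  rw [h2] at h3
  rw [Nat.card_eq_fintype_card]
  exact congrArg (fun z : E => (z : L)) h3

/-- A root of an irreducible polynomial of degree `m` is fixed by the `m`-th power of Frobenius. -/
private theorem FrobR_pow (ι : F →+* L) {h : F[X]} (hi : Irreducible h) {x : L}
    (hx : h.eval₂ ι x = 0) : x ^ (Nat.card F ^ h.natDegree) = x := by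
  classical
  have := Fintype.ofFinite F
  algebraize [ι]
  have hx' : aeval x h = 0 := hx
  have hix : IsIntegral F x := (isAlgebraic_iff_isIntegral).1 ⟨h, hi.ne_zero, hx'⟩
  let E := IntermediateField.adjoin F ({x} : Set L)
  have hfd : FiniteDimensional F E := IntermediateField.adjoin.finiteDimensional hix
  have hfin : Finite E := Module.finite_of_finite F
  have := Fintype.ofFinite E
  have hxE : x ∈ E := IntermediateField.subset_adjoin F _ (by simp)
  have hdeg : Module.finrank F E = h.natDegree := by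
    rw [IntermediateField.adjoin.finrank hix]
    have h1 := minpoly.eq_of_irreducible hi hx'
    rw [← h1, natDegree_mul_C (inv_ne_zero (leadingCoeff_ne_zero.2 hi.ne_zero))]
  have hcard : Fintype.card E = Nat.card F ^ h.natDegree := by
    rw [← hdeg, Nat.card_eq_fintype_card]
    exact Module.card_eq_pow_finrank
  have h2 := FiniteField.pow_card (⟨x, hxE⟩ : E)
  rw [hcard] at h2
  exact congrArg (fun z : E => (z : L)) h2

variable {I : Type*} [Fintype I] (ι : F →+* L) {f : F[X]} {c : I → L} {σ : Equiv.Perm I}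

omit [Field F] [Finite F] [Fintype I] in
private theorem FrobR_iter (hσ : ∀ i, c (σ i) = c i ^ Nat.card F) (s : ℕ) (i : I) :
    c ((σ ^ s) i) = c i ^ (Nat.card F ^ s) := by
  induction s with
  | zero => simp
  | succ s ih =>
    rw [pow_succ', Equiv.Perm.mul_apply, hσ, ih, ← pow_mul, ← pow_succ]

omit [Fintype I] in
private theorem FrobR_orb (hinj : Function.Injective c) (hσ : ∀ i, c (σ i) = c i ^ Nat.card F)
    {h : F[X]} (hi : Irreducible h) {i j : I} (h1 : h.eval₂ ι (c i) = 0)
    (h2 : h.eval₂ ι (c j) = 0) : ∃ s : ℕ, (σ ^ s) i = j := by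
  obtain ⟨s, hs⟩ := FrobR_conj ι hi h1 h2
  exact ⟨s, hinj (by rw [FrobR_iter hσ, hs])⟩

omit [Finite F] in
private theorem FrobR_inj (hf : f.Separable) (hc : f.map ι = ∏ i, (X - C (c i))) :
    Function.Injective c := by
  have h1 := hf.map (f := ι)
  rw [hc] at h1
  exact separable_prod_X_sub_C_iff.1 h1

omit [Finite F] in
private theorem FrobR_root (hc : f.map ι = ∏ i, (X - C (c i))) (i : I) : f.eval₂ ι (c i) = 0 := by
  classical
  rw [← eval_map, hc, eval_prod]
  exact Finset.prod_eq_zero (Finset.mem_univ i) (by simp)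

omit [Finite F] in
private theorem FrobR_exists (hc : f.map ι = ∏ i, (X - C (c i))) {y : L}
    (hy : f.eval₂ ι y = 0) : ∃ i, c i = y := by
  rw [← eval_map, hc, eval_prod, Finset.prod_eq_zero_iff] at hy
  obtain ⟨i, -, hi⟩ := hy
  rw [eval_sub, eval_X, eval_C, sub_eq_zero] at hi
  exact ⟨i, hi.symm⟩

private theorem FrobR_frob (h : F[X]) (x : L) (hx : h.eval₂ ι x = 0) :
    h.eval₂ ι (x ^ Nat.card F) = 0 := by
  have := Fintype.ofFinite F
  algebraize [ι]
  have hx' : aeval x h = 0 := hx
  have h1 : aeval (x ^ Fintype.card F) h = 0 := by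
    rw [← expand_aeval, FiniteField.expand_card, map_pow, hx', zero_pow Fintype.card_ne_zero]
  rw [Nat.card_eq_fintype_card]
  exact h1

private theorem FrobR_A (hf : Irreducible f) (hc : f.map ι = ∏ i, (X - C (c i)))
    (hσ : ∀ i, c (σ i) = c i ^ Nat.card F) : ∀ i j, ∃ s : ℕ, (σ ^ s) i = j := by
  have hinj := FrobR_inj ι (PerfectField.separable_of_irreducible hf) hc
  exact fun i j => FrobR_orb ι hinj hσ hf (FrobR_root ι hc i) (FrobR_root ι hc j)

private theorem FrobR_B {r : F} {h : F[X]} (hh : Irreducible h) (hf : f = (X - C r) * h)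
    (hr : h.eval r ≠ 0) (hc : f.map ι = ∏ i, (X - C (c i)))
    (hσ : ∀ i, c (σ i) = c i ^ Nat.card F) :
    ∃ i₀, σ i₀ = i₀ ∧ ∀ i ≠ i₀, ∀ j ≠ i₀, ∃ s : ℕ, (σ ^ s) i = j := by
  have := Fintype.ofFinite F
  have hsep : f.Separable := by
    rw [hf]
    refine Separable.mul (separable_X_sub_C) (PerfectField.separable_of_irreducible hh) ?_
    rw [(irreducible_X_sub_C r).coprime_iff_not_dvd, dvd_iff_isRoot]
    exact hr
  have hinj := FrobR_inj ι hsep hc
  obtain ⟨i₀, hi₀⟩ := FrobR_exists ι hc (y := ι r) (by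
    rw [hf, eval₂_mul, eval₂_sub, eval₂_X, eval₂_C, sub_self, zero_mul])
  have hroot : ∀ i ≠ i₀, h.eval₂ ι (c i) = 0 := by
    intro i hi
    have h1 := FrobR_root ι hc i
    rw [hf, eval₂_mul, eval₂_sub, eval₂_X, eval₂_C, mul_eq_zero, sub_eq_zero] at h1
    rcases h1 with h1 | h1
    · exact absurd (hinj (h1.trans hi₀.symm)) hi
    · exact h1
  refine ⟨i₀, hinj ?_, fun i hi j hj => FrobR_orb ι hinj hσ hh (hroot i hi) (hroot j hj)⟩
  rw [hσ, hi₀, ← map_pow, Nat.card_eq_fintype_card, FiniteField.pow_card]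

omit [Finite F] [Fintype I] in
private theorem FrobR_card {h : F[X]} (hh : h ≠ 0) (hinj : Function.Injective c) (s : Finset I)
    (hs : ∀ i ∈ s, h.eval₂ ι (c i) = 0) : s.card ≤ h.natDegree := by
  classical
  have h1 : (s.image c).card = s.card := Finset.card_image_of_injective s hinj
  rw [← h1, ← natDegree_map ι]
  refine card_le_degree_of_subset_roots (p := h.map ι) fun y hy => ?_
  obtain ⟨i, hi, rfl⟩ := Finset.mem_image.1 hy
  rw [mem_roots (map_ne_zero hh), IsRoot.def, eval_map]
  exact hs i hi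

private theorem FrobR_C {p h : F[X]} (hp : Irreducible p) (hpd : p.natDegree = 2)
    (hh : Irreducible h) (hodd : Odd h.natDegree) (hf : f = p * h)
    (hc : f.map ι = ∏ i, (X - C (c i))) (hσ : ∀ i, c (σ i) = c i ^ Nat.card F) :
    ∃ i j : I, i ≠ j ∧ σ i = j ∧ σ j = i ∧
      ∃ s : ℕ, Odd s ∧ ∀ l, l ≠ i → l ≠ j → (σ ^ s) l = l := by
  classical
  have hsep : f.Separable := by
    rw [hf]
    refine Separable.mul (PerfectField.separable_of_irreducible hp)
      (PerfectField.separable_of_irreducible hh) ?_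
    rw [hp.coprime_iff_not_dvd]
    intro hd
    have h1 := natDegree_eq_of_degree_eq (degree_eq_degree_of_associated
      (hp.associated_of_dvd hh hd))
    rw [hpd] at h1
    rw [← h1] at hodd
    exact absurd hodd (by decide)
  have hinj := FrobR_inj ι hsep hc
  set Ip : Finset I := Finset.univ.filter fun i => p.eval₂ ι (c i) = 0 with hIp
  set Ih : Finset I := Finset.univ.filter fun i => h.eval₂ ι (c i) = 0 with hIh
  have hun : Ip ∪ Ih = Finset.univ := by
    ext i
    have h1 := FrobR_root ι hc i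
    rw [hf, eval₂_mul, mul_eq_zero] at h1
    simp only [hIp, hIh, Finset.mem_union, Finset.mem_filter, Finset.mem_univ, true_and, iff_true]
    exact h1
  have hcard : Fintype.card I = 2 + h.natDegree := by
    have h1 : (f.map ι).natDegree = Fintype.card I := by
      rw [hc, natDegree_prod_of_monic _ _ fun i _ => monic_X_sub_C _]
      simp
    rw [natDegree_map, hf, natDegree_mul hp.ne_zero hh.ne_zero, hpd] at h1
    exact h1.symm
  have hcp : Ip.card ≤ 2 := by
    rw [← hpd]
    exact FrobR_card ι hp.ne_zero hinj Ip fun i hi => (Finset.mem_filter.1 hi).2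
  have hch : Ih.card ≤ h.natDegree :=
    FrobR_card ι hh.ne_zero hinj Ih fun i hi => (Finset.mem_filter.1 hi).2
  have hsum : Fintype.card I ≤ Ip.card + Ih.card := by
    rw [← Finset.card_univ, ← hun]
    exact Finset.card_union_le _ _
  have hcp2 : Ip.card = 2 := by omega
  obtain ⟨i, j, hij, hIpe⟩ := Finset.card_eq_two.1 hcp2
  have hmem : ∀ l, p.eval₂ ι (c l) = 0 ↔ l = i ∨ l = j := by
    intro l
    have h1 : l ∈ Ip ↔ l ∈ ({i, j} : Finset I) := by rw [hIpe]
    rw [hIp, Finset.mem_filter, Finset.mem_insert, Finset.mem_singleton] at h1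
    simpa using h1
  have hpi : p.eval₂ ι (c i) = 0 := (hmem i).2 (Or.inl rfl)
  have hpj : p.eval₂ ι (c j) = 0 := (hmem j).2 (Or.inr rfl)
  have hsi : σ i = j := by
    have h1 : p.eval₂ ι (c (σ i)) = 0 := by
      rw [hσ]
      exact FrobR_frob ι p _ hpi
    rcases (hmem _).1 h1 with h2 | h2
    · exfalso
      obtain ⟨s, hs⟩ := FrobR_orb ι hinj hσ hp hpi hpj
      apply hij
      rw [← hs]
      clear hs
      induction s with
      | zero => rfl
      | succ s ih => rw [pow_succ, Equiv.Perm.mul_apply, h2]; exact ih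
    · exact h2
  have hsj : σ j = i := by
    have h1 : p.eval₂ ι (c (σ j)) = 0 := by
      rw [hσ]
      exact FrobR_frob ι p _ hpj
    rcases (hmem _).1 h1 with h2 | h2
    · exact h2
    · exact absurd (σ.injective (hsi.trans h2.symm)) hij
  refine ⟨i, j, hij, hsi, hsj, h.natDegree, hodd, fun l hli hlj => hinj ?_⟩
  have h1 := FrobR_root ι hc l
  rw [hf, eval₂_mul, mul_eq_zero] at h1
  rcases h1 with h1 | h1
  · rcases (hmem l).1 h1 with h2 | h2
    · exact absurd h2 hli
    · exact absurd h2 hlj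
  · rw [FrobR_iter hσ]
    exact FrobR_pow ι hh h1

end finite

section core

open Pool.Agent.Lib.SmD Pool.Agent.SmNJ Pool.Agent.SmJ

variable {K Ω : Type} [Field K] [Field Ω] [Algebra K Ω] {g : ℕ}

/-- The reductions of the roots, with the action of Frobenius. -/
private theorem FrobR_core {w : ValuationSubring Ω} {φ : Ω ≃ₐ[K] Ω} (hφ : IsFrob K w φ)
    {b : Fin (2 * g) → K} {a : Fin (2 * g + 1) → Ω} [RtG K a]
    (h : (pol g b).map (algebraMap K Ω) = ff a) (hb : ∀ j, b j ∈ below K w) :
    ∃ c : Fin (2 * g + 1) → ResidueField w,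
      (pol g fun j => residue (below K w) ⟨b j, hb j⟩).map (resMap K w) = ∏ i, (X - C (c i)) ∧
      ∀ i, c (pm K a φ i) = c i ^ Nat.card (ResidueField (below K w)) := by
  have h1 : (pol g fun j => inclBelow K w ⟨b j, hb j⟩).map (algebraMap w Ω) = ff a := by
    rw [← h, map_pol, map_pol]
    rfl
  have hroot : ∀ i, (ff a).eval (a i) = 0 := by
    intro i
    rw [ff, eval_prod]
    exact Finset.prod_eq_zero (Finset.mem_univ i) (by simp)
  have hint : ∀ i, ∃ y : w, algebraMap w Ω y = a i := by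
    intro i
    refine IsIntegrallyClosed.isIntegral_iff.1
      ⟨pol g fun j => inclBelow K w ⟨b j, hb j⟩, pol_monic g _, ?_⟩
    rw [← eval_map, h1]
    exact hroot i
  choose c' hc' using hint
  have h2 : (pol g fun j => inclBelow K w ⟨b j, hb j⟩) = ∏ i, (X - C (c' i)) := by
    apply Polynomial.map_injective (algebraMap w Ω) (IsFractionRing.injective w Ω)
    rw [h1, Polynomial.map_prod, ff]
    refine Finset.prod_congr rfl fun i _ => ?_
    rw [Polynomial.map_sub, map_X, map_C, hc']
  refine ⟨fun i => residue w (c' i), ?_, fun i => ?_⟩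
  · have h3 := congrArg (Polynomial.map (residue w)) h2
    rw [map_pol, Polynomial.map_prod] at h3
    rw [map_pol]
    have h4 : (fun j => resMap K w (residue (below K w) ⟨b j, hb j⟩)) =
        fun j => residue w (inclBelow K w ⟨b j, hb j⟩) := by
      funext j
      rw [resMap_residue]
      rfl
    rw [h4, h3]
    refine Finset.prod_congr rfl fun i _ => ?_
    rw [Polynomial.map_sub, map_X, map_C]
  · have hi : (c' (pm K a φ i) : Ω) = φ (a i) :=
      (hc' (pm K a φ i)).trans (pm_spec K a φ i)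
    have hmi : (c' i : Ω) = a i := hc' i
    have h5 := hφ.frob (c' i : Ω) (c' i).2
    rw [hmi, ← hi] at h5
    have h6 : residue w (c' (pm K a φ i)) = residue w (c' i ^ resCard (below K w)) := by
      refine (residue_eq_iff w (c' (pm K a φ i)).2 (c' i ^ resCard (below K w)).2).2 ?_
      rw [← hmi] at h5
      exact h5
    change residue w (c' (pm K a φ i)) = residue w (c' i) ^ resCard (below K w)
    rw [h6, map_pow]

end core

variable {k K : Type} [Field k] [Field K] [Algebra k K]

private theorem FrobR_tr {g : ℕ} (T : ∀ (F : Type) [Field F], F[X] → Prop) {v : Place k K}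
    {b : Fin (2 * g) → K} (h : At v (T _) b) {R : ValuationSubring K} (hR : R = v.ring) :
    ∃ hb : ∀ j, b j ∈ R, T (ResidueField R) (pol g fun j => residue R ⟨b j, hb j⟩) := by
  subst hR
  refine ⟨h.1, ?_⟩
  have h1 := h.2
  have h2 : redV v b = fun j => residue v.ring ⟨b j, h.1 j⟩ := by
    funext j
    rw [redV, red, dif_pos (h.1 j)]
  rw [h2] at h1
  exact h1

variable [Finite k] [Algebra (RatFunc k) K] [IsScalarTower k (RatFunc k) K]
  [FiniteDimensional (RatFunc k) K] [Algebra.IsSeparable (RatFunc k) K]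

variable {Ω : Type} [Field Ω] [Algebra K Ω] [IsSepClosure K Ω] {g : ℕ}

open Pool.Agent.SmNJ Pool.Agent.SmJ in
theorem surj_pm (hg : 1 ≤ g) (h2 : (2 : k) ≠ 0) {b : Fin (2 * g) → K}
    {a : Fin (2 * g + 1) → Ω} [RtG K a] (h : (pol g b).map (algebraMap K Ω) = ff a)
    (hA : ∃ v : Place k K, At v TypA b) (hB : ∃ v : Place k K, At v TypB b)
    (hC : ∃ v : Place k K, At v TypC b) : Function.Surjective (pm K a) := by
  have : IsGalois K Ω := inferInstance
  rw [← MonoidHom.range_eq_top]
  refine perm_top hg _ ?_ ?_ ?_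
  · obtain ⟨v, hv⟩ := hA
    obtain ⟨hb, ht⟩ := FrobR_tr (fun F _ f => TypA f) hv (below_abK Ω v)
    have := finite_residue_of_below (Om := Ω) (below_abK Ω v)
    obtain ⟨c, hc, hσ⟩ := FrobR_core (phK_frob (Om := Ω) v) (a := a) h hb
    exact ⟨pm K a (phK Ω v), ⟨_, rfl⟩, FrobR_A _ ht hc hσ⟩
  · obtain ⟨v, hv⟩ := hB
    obtain ⟨hb, ht⟩ := FrobR_tr (fun F _ f => TypB f) hv (below_abK Ω v)
    have := finite_residue_of_below (Om := Ω) (below_abK Ω v)
    obtain ⟨c, hc, hσ⟩ := FrobR_core (phK_frob (Om := Ω) v) (a := a) h hb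
    obtain ⟨r, f, -, hf, hfe, hr⟩ := ht
    exact ⟨pm K a (phK Ω v), ⟨_, rfl⟩, FrobR_B _ hf hfe hr hc hσ⟩
  · obtain ⟨v, hv⟩ := hC
    obtain ⟨hb, ht⟩ := FrobR_tr (fun F _ f => TypC f) hv (below_abK Ω v)
    have := finite_residue_of_below (Om := Ω) (below_abK Ω v)
    obtain ⟨c, hc, hσ⟩ := FrobR_core (phK_frob (Om := Ω) v) (a := a) h hb
    obtain ⟨p, f, -, hp, hpd, -, hf, hodd, hfe⟩ := ht
    exact ⟨pm K a (phK Ω v), ⟨_, rfl⟩, FrobR_C _ hp hpd hf hodd hfe hc hσ⟩

open Pool.Agent.SmNJ Pool.Agent.SmJ in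
/-- Frobenius at a place of type `C`: a transposition times a product of cycles of odd length. -/
theorem typC_phK {b : Fin (2 * g) → K} {a : Fin (2 * g + 1) → Ω} [RtG K a]
    (h : (pol g b).map (algebraMap K Ω) = ff a) {v : Place k K} (hv : At v TypC b) :
    ∃ i j : Fin (2 * g + 1), i ≠ j ∧ pm K a (phK Ω v) i = j ∧ pm K a (phK Ω v) j = i ∧
      ∃ s : ℕ, Odd s ∧ ∀ l, l ≠ i → l ≠ j → (pm K a (phK Ω v) ^ s) l = l := by
  obtain ⟨hb, ht⟩ := FrobR_tr (fun F _ f => TypC f) hv (below_abK Ω v)
  have := finite_residue_of_below (Om := Ω) (below_abK Ω v)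
  obtain ⟨c, hc, hσ⟩ := FrobR_core (phK_frob (Om := Ω) v) (a := a) h hb
  obtain ⟨p, f, -, hp, hpd, -, hf, hodd, hfe⟩ := ht
  exact FrobR_C _ hp hpd hf hodd hfe hc hσ

end Pool.Agent.HA
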