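import Pool.Agent.Lib.HA.Defs
import Pool.Agent.Lib.SmNJ.NodeF

/-!
HA: a place of type `N` (`f = (X - r) ^ 2 h` modulo `v`, `h` irreducible, `h (r) ≠ 0`) is a place with
one node, hence a flip place.
-/

set_option autoImplicit false

open Polynomial

namespace Pool.Agent.HA

open Pool.Agent.BSDFF Pool.Agent.GBC Pool.Agent.GBU Pool.Agent.SmJ Pool.Agent.SmNJ
open IsLocalRing (ResidueField residue)

theorem NodeN_map {R S : Type*} [CommRing R] [CommRing S] (φ : R →+* S) (g : ℕ)
    (a : Fin (2 * g) → R) : (pol g a).map φ = pol g fun j => φ (a j) := by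
  simp only [pol, Polynomial.map_add, Polynomial.map_pow, map_X, Polynomial.map_sum,
    Polynomial.map_mul, map_C]

section main

variable {k K Ω : Type} [Field k] [Field K] [Field Ω] [Algebra k K] [Algebra K Ω] {g : ℕ}
  {b : Fin (2 * g) → K} {a : Fin (2 * g + 1) → Ω} {v : Place k K}

/-- **Type `N` is a node.** -/
theorem exists_nodeN [Finite (ResidueField v.ring)] (hv : At v TypN b)
    (hf : (pol g b).map (algebraMap K Ω) = ff a) :
    ∃ i j, Node a v i j ∧ (abK Ω v).valuation (a i - a j) < 1 := by
  obtain ⟨hint, r, h, -, hirr, hred, hr⟩ := hv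
  let f : (v.ring)[X] := pol g fun j => ⟨b j, hint j⟩
  have h1 : f.map (algebraMap v.ring K) = pol g b := NodeN_map _ _ _
  have h2 : f.map (residue v.ring) = pol g (redV v b) := by
    rw [NodeN_map]
    congr 1
    funext j
    rw [redV, red, dif_pos (hint j)]
  exact exists_node (f := f) (h := h) (c := r) (by rw [h1, hf]) (by rw [h2, hred])
    (PerfectField.separable_of_irreducible hirr) hr

/-- **A place of type `N` is a flip place.** -/
theorem flipN [RtG K a] [HypA a] [Finite k] [Algebra (RatFunc k) K]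
    [IsScalarTower k (RatFunc k) K] [FiniteDimensional (RatFunc k) K]
    [Algebra.IsSeparable (RatFunc k) K] [IsSepClosure K Ω] (h2 : (2 : k) ≠ 0)
    (hinf : Infinite K) {T0 : Set (Place k K)} (hok : (sysT k K Ω a T0).Ok)
    (hg : ((2 * g + 1).factorial : K) ≠ 0) (hv : At v TypN b)
    (hf : (pol g b).map (algebraMap K Ω) = ff a) : SmN.Half.Flip (sysT k K Ω a T0) v := by
  have : Finite (ResidueField v.ring) := BSDK.residue_finite v
  obtain ⟨i, j, hN, hlt⟩ := exists_nodeN hv hf
  exact flip_node hN h2 hinf hok hg hlt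

end main

end Pool.Agent.HA
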