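import Pool.Agent.Lib.HA.Defs
import Pool.Agent.Lib.HA.FrobR
import Pool.Agent.Lib.HA.NodeN
import Pool.Agent.Lib.SmN.Fin.FinP
import Pool.Agent.Lib.SmN.Fin.KumO

/-!
HA (all pointed hyperelliptic curves over a global function field, MP_950c68_ag), module FixP.
The parity for the twists of one generic shape, ordered by `TwO k O N`.
-/

set_option autoImplicit false

open Polynomial

namespace Pool.Agent.HA

open Pool.Agent.BSDFF (Place)
open Pool.Agent.GBC (ord exists_geo)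
open Pool.Agent.SmJ Pool.Agent.SmNJ Pool.Agent.GBU Pool.Agent.SmN
open Pool.Agent.SmJ.L (EV)
open Pool.Agent.SmJ.R (OddDeg Jc JP jcMap galP map_gal GoodP ZeroP OneP goodOn_iff zeroOn_iff)
open Pool.Agent.Lib.SmD (chi)
open Fnl Half Ch
open IsLocalRing (ResidueField residue)

section ord

variable {G V V1 Pl : Type} [Group G] [AddCommGroup V] [DistribMulAction G V]
  [AddCommGroup V1] [Module (ZMod 2) V1] {S : SmN.Sys G V V1 Pl} {T : Finset Pl} {deg : Pl → ℕ}
  {ch : (XX (T : Set Pl) deg).Pr → G → ZMod 2} {rd : (G → ZMod 2) → ℕ} {W : (T → ZMod 2) → ℕ}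
  {τ : ℕ}

/-- From the ordering by the degree of the ramification to the other orderings. -/
theorem small_ord (h : S.Ok) (hF : LagF S (T : Set Pl))
    (hp : PrOk S T (XX (T : Set Pl) deg) Subtype.val ch) (hR : OrdOk h T deg rd W τ) {q : ℕ}
    (hX : (XX (T : Set Pl) deg).Ok q) (Bad : ℕ → (G → ZMod 2) → Prop)
    (hL : ∀ ε : ℝ, 0 < ε → ∃ m₁ : ℕ, ∀ m ≥ m₁, ∃ n₀ : ℕ, ∀ n ≥ n₀,
      (Nat.card {c : {c : G → ZMod 2 // S.HomG c} // rdeg S deg c.1 ≤ n ∧ Bad m c.1} : ℝ) ≤
        ε * Nat.card {c : {c : G → ZMod 2 // S.HomG c} // rdeg S deg c.1 ≤ n}) :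
    ∀ ε : ℝ, 0 < ε → ∃ m₁ : ℕ, ∀ m ≥ m₁, ∃ n₀ : ℕ, ∀ n ≥ n₀,
      (Nat.card {c : {c : G → ZMod 2 // S.HomG c} // rd c.1 ≤ n ∧ Bad m c.1} : ℝ) ≤
        ε * Nat.card {c : {c : G → ZMod 2 // S.HomG c} // rd c.1 ≤ n} := by
  classical
  intro ε hε
  obtain ⟨c₁, C, n₁, hG⟩ := growth_of hX
  have hc₁ := hG.pos
  have hq2 : (2 : ℝ) ≤ q := by exact_mod_cast hX.two_le
  have hR0 := ordOk_rdeg (T := T) (deg := deg) h
  set τ' := ∑ v ∈ T, deg v with hτ'
  obtain ⟨X, hXX⟩ : ∃ X : ℝ, X = (Nat.card (XG S T h) : ℝ) * (2 * |C|) := ⟨_, rfl⟩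
  have hX0 : 0 ≤ X := by
    rw [hXX]
    positivity
  set A : ℝ := X * (q : ℝ) ^ τ' * (q : ℝ) ^ τ / c₁ + 1 with hA
  have hA0 : 0 < A := by positivity
  obtain ⟨m₁, h1⟩ := hL (ε / A) (div_pos hε hA0)
  refine ⟨m₁, fun m hm => ?_⟩
  obtain ⟨n₀, h2⟩ := h1 m hm
  refine ⟨max n₀ (n₁ + τ), fun n hn => ?_⟩
  have hn0 : n₀ ≤ n + τ' := ((le_max_left _ _).trans hn).trans (Nat.le_add_right _ _)
  have hn1 : n₁ + τ ≤ n := (le_max_right _ _).trans hn
  have h3 := h2 (n + τ') hn0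
  have hle : ∀ c : {c : G → ZMod 2 // S.HomG c}, rd c.1 ≤ n → rdeg S deg c.1 ≤ n + τ' := by
    intro c hc
    have h4 := hR0.up c
    have h5 := hR.ge c
    omega
  have hfin := finite_O h hF hp hR0 hX (n + τ')
  have h4 : Nat.card {c : {c : G → ZMod 2 // S.HomG c} // rd c.1 ≤ n ∧ Bad m c.1} ≤
      Nat.card {c : {c : G → ZMod 2 // S.HomG c} // rdeg S deg c.1 ≤ n + τ' ∧ Bad m c.1} := by
    have : Finite {c : {c : G → ZMod 2 // S.HomG c} // rdeg S deg c.1 ≤ n + τ' ∧ Bad m c.1} :=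
      Finite.of_injective (β := {c : {c : G → ZMod 2 // S.HomG c} // rdeg S deg c.1 ≤ n + τ'})
        (fun c => ⟨c.1, c.2.1⟩) fun c c' hc => Subtype.ext (congrArg
          (fun x : {c : {c : G → ZMod 2 // S.HomG c} // rdeg S deg c.1 ≤ n + τ'} => x.1) hc)
    exact Nat.card_le_card_of_injective (fun c => ⟨c.1, hle c.1 c.2.1, c.2.2⟩) fun c c' hc =>
      Subtype.ext (congrArg (fun x : {c : {c : G → ZMod 2 // S.HomG c} //
        rdeg S deg c.1 ≤ n + τ' ∧ Bad m c.1} => x.1) hc)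
  have h5 := card_le_O h hF hp hR0 hX hG (n + τ')
  rw [← hXX] at h5
  have h6 := card_all_ge h hF hp hR hX hG hn1
  have hqn : (0 : ℝ) < (q : ℝ) ^ n := by positivity
  have hqτ : (0 : ℝ) < (q : ℝ) ^ τ := by positivity
  calc (Nat.card {c : {c : G → ZMod 2 // S.HomG c} // rd c.1 ≤ n ∧ Bad m c.1} : ℝ)
      ≤ Nat.card {c : {c : G → ZMod 2 // S.HomG c} // rdeg S deg c.1 ≤ n + τ' ∧ Bad m c.1} := by
        exact_mod_cast h4
    _ ≤ ε / A * Nat.card {c : {c : G → ZMod 2 // S.HomG c} // rdeg S deg c.1 ≤ n + τ'} := h3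
    _ ≤ ε / A * (X * (q : ℝ) ^ (n + τ')) :=
        mul_le_mul_of_nonneg_left h5 (div_pos hε hA0).le
    _ = ε / A * (X * (q : ℝ) ^ τ' * (q : ℝ) ^ τ / c₁) * (c₁ / (q : ℝ) ^ τ * (q : ℝ) ^ n) := by
        rw [pow_add]
        field_simp
    _ ≤ ε / A * A * (c₁ / (q : ℝ) ^ τ * (q : ℝ) ^ n) := by
        refine mul_le_mul_of_nonneg_right (mul_le_mul_of_nonneg_left ?_ (div_pos hε hA0).le)
          (by positivity)
        rw [hA]
        linarith
    _ = ε * (c₁ / (q : ℝ) ^ τ * (q : ℝ) ^ n) := by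
        rw [div_mul_cancel₀ _ hA0.ne']
    _ ≤ _ := mul_le_mul_of_nonneg_left h6 hε.le

end ord

section excl

variable {k K Ω M : Type} [Field k] [Field K] [Field Ω] [Algebra k K] [Algebra K Ω]
  [AddCommGroup M] {ρ : (Ω ≃ₐ[K] Ω) → M →+ M}

/-- The corank is well defined. -/
theorem corank_excl (h0 : SmJ.L.HasCorank k ρ 0) (h1 : SmJ.L.HasCorank k ρ 1) : False := by
  obtain ⟨B, hB⟩ := h0
  obtain ⟨B', hB'⟩ := h1
  have h2 := (hB' (B' * B)).2
  have h3 := (hB (B' * B)).1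
  rw [zero_mul, pow_zero, mul_one] at h3
  rw [one_mul] at h2
  have h4 := h2.trans (Nat.mul_le_mul_left _ h3)
  exact absurd h4 (not_le.2 (B' * B).lt_two_pow_self)

end excl

variable {k K : Type} [Field k] [Field K] [Algebra k K]
variable [Finite k] [Algebra (RatFunc k) K] [IsScalarTower k (RatFunc k) K]
  [FiniteDimensional (RatFunc k) K] [Algebra.IsSeparable (RatFunc k) K]

variable {g : ℕ}

theorem fix_half (hk : ∀ x : K, IsIntegral k x → ∃ c : k, algebraMap k K c = x) (hg : 1 ≤ g)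
    (hp : ((2 * g + 1).factorial : k) ≠ 0) {b : Fin (2 * g) → K} (hb : (pol g b).Separable)
    (hA : ∃ v : Place k K, At v TypA b) (hB : ∃ v : Place k K, At v TypB b)
    (hC : ∃ v : Place k K, At v TypC b) {v : Place k K} (hN : At v TypN b)
    {O : Set (Place k K)} (hO : O.Finite) (hv : v ∉ O) (ε : ℝ) (hε : 0 < ε) :
    ∃ N₀ : ℕ, ∀ N ≥ N₀,
      |((TwO k O N fun d => Even (ord v d) ∧ ZeroF k (pol g (sc d b))).ncard : ℝ) -
        (TwO k O N fun d => Even (ord v d)).ncard / 2| ≤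
        ε * (TwO k O N fun _ => True).ncard ∧
      |((TwO k O N fun d => Even (ord v d) ∧ OneF k (pol g (sc d b))).ncard : ℝ) -
        (TwO k O N fun d => Even (ord v d)).ncard / 2| ≤
        ε * (TwO k O N fun _ => True).ncard := by
  classical
  have h2 : (2 : k) ≠ 0 := two_ne_of hg hp
  have h2K : (2 : K) ≠ 0 := by
    intro h
    apply h2
    apply (algebraMap k K).injective
    rw [map_ofNat, h, map_zero]
  have hn : ((2 * g + 1).factorial : K) ≠ 0 := by
    intro h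
    apply hp
    apply (algebraMap k K).injective
    rw [map_natCast, h, map_zero]
  have hm : (pol g b).Monic := pol_monic g b
  have hd : (pol g b).natDegree = 2 * g + 1 := natDegree_pol g b
  have hodd : OddDeg (pol g b) := ⟨⟨g, hd⟩⟩
  have hgal : IsGalois K (SeparableClosure K) := IsSepClosure.isGalois
  have hinfO : Infinite (SeparableClosure K) := infinite_Om k K (SeparableClosure K)
  have hinfK : Infinite K := by
    have h1 : Infinite (RatFunc k) :=
      Infinite.of_injective (algebraMap (Polynomial k) (RatFunc k)) (RatFunc.algebraMap_injective k)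
    exact Infinite.of_injective (algebraMap (RatFunc k) K) (RingHom.injective _)
  obtain ⟨a, hinj, ha⟩ := exists_rts (F := (pol g b).map (algebraMap K (SeparableClosure K)))
    (hm.map _) (hb.map) (IsSepClosed.splits_codomain _ hb) (g := g)
    (by rw [natDegree_map]; exact hd)
  have hR : RtG K a := rtG_of h2K hinj ha
  have hHA : HypA a := ⟨hinj, hR.two⟩
  have hbig : BigIm K a := bigIm_of_surj (surj_pm hg h2 ha.symm hA hB hC)
  have : Nonempty (Place k K) := ⟨v⟩
  obtain ⟨G, -⟩ := exists_geo k K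
  obtain ⟨T0, T', fr, ca, cC, m0, hT', hWT, hP, hgT, hfr, hAOk⟩ :=
    exists_aOk_big k K (SeparableClosure K) a h2 hn hk hg hbig
      (W := {v} ∪ O) ((Set.finite_singleton v).union hO)
  obtain ⟨T, rfl⟩ : ∃ T : Finset (Place k K), (T : Set (Place k K)) = T' :=
    ⟨hT'.toFinset, hT'.coe_toFinset⟩
  have hnt : Nontrivial (EV g) := nontrivial_EV hg
  have hNN : (sysT k K (SeparableClosure K) a T0).NN = NP K (SeparableClosure K) := rfl
  have hLV : LocVals (sysT k K (SeparableClosure K) a T0).sg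
    (sysT k K (SeparableClosure K) a T0).phi := locVals h2
  obtain ⟨cd, hpl, hcd⟩ := exists_cdata' hAOk.ok hAOk.fi hAOk.up hAOk.lagV hAOk.lagF hAOk.nofix
    hAOk.span Place.degree
  have hc0 := hcd 0 ⟨SmN.Sys.HomG.zero hAOk.ok, fun _ _ => rfl⟩
  have hrange : ∀ v, v ∉ T ↔ v ∈ Set.range ({ cd with chi0 := 0 } :
      CData (sysT k K (SeparableClosure K) a T0)
        (XX (T : Set (Place k K)) Place.degree)).pl := by
    intro v
    change v ∉ T ↔ v ∈ Set.range cd.pl
    rw [hpl]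
    constructor
    · intro hv
      exact ⟨⟨v, hv⟩, rfl⟩
    · rintro ⟨P, rfl⟩
      exact P.2
  have hpr := PrOk.of_cd hc0 hrange
  have hch := fun v => chebQ_of hc0 hrange (CData.cheb_of hpl hAOk.cheb) hAOk.geo v
  rw [show ({ cd with chi0 := 0 } : CData (sysT k K (SeparableClosure K) a T0)
        (XX (T : Set (Place k K)) Place.degree)).pl = Subtype.val from hpl] at hpr
  have hchQ : ∀ v, ChebQ (sysT k K (SeparableClosure K) a T0) T
      (XX (T : Set (Place k K)) Place.degree) Subtype.val (Nat.card k) v := fun v => by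
    have h1 := hch v
    rw [show ({ cd with chi0 := 0 } : CData (sysT k K (SeparableClosure K) a T0)
        (XX (T : Set (Place k K)) Place.degree)).pl = Subtype.val from hpl] at h1
    exact h1
  have hPar : ParOk (sysT k K (SeparableClosure K) a T0) hAOk.ok _ _ :=
    ⟨qokT h2 hn hAOk.ok, qinvT k K a T0, recQ_of hAOk.lagF,
      fun c hc => fin_Sel1 hAOk.ok hAOk.lagV hc⟩
  have hgood : ∀ (B C : ℕ) (d : Kˣ), C ≤ 2 * Nat.card (EV g) →
      (∀ i, Nat.card ((sysT k K (SeparableClosure K) a T0).SelZ hAOk.ok (chi K (d : K)) i) ≤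
        B * C ^ i) → SmJ.L.GoodOn k (galP (SeparableClosure K) ((pol g b).scaleRoots (d : K)))
          (B + 1) := by
    intro B C d hC hB
    have h1 : (sysT k K (SeparableClosure K) a T0).HomG (chi K (d : K)) :=
      (homG_iff_homO _ h2K hNN).2 (homO_chi h2K d.ne_zero)
    exact good_of_small h2 hn (fun w hw => hbig.nofix hg w hw) hm ha d.ne_zero (T0 := T0)
      (Nat.le_add_left 1 B) (small_of_bound hAOk.ok h1 (hPar.fin _ h1) hC hB)
  have hE0 : ∀ d : Kˣ, Half.Ev (sysT k K (SeparableClosure K) a T0) hAOk.ok (chi K (d : K)) →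
      ZeroP k ((pol g b).scaleRoots (d : K)) := by
    intro d hE
    obtain ⟨B, hB⟩ := id hE
    exact (zeroOn_iff _ _).2 (zero_of_ev h2 hn (fun w hw => hbig.nofix hg w hw) hm ha d.ne_zero
      (hgood B _ d (Nat.le_mul_of_pos_left _ two_pos) hB) hAOk.ok hE)
  have hE1 : ∀ d : Kˣ, Half.Od (sysT k K (SeparableClosure K) a T0) hAOk.ok (chi K (d : K)) →
      OneP k ((pol g b).scaleRoots (d : K)) := by
    intro d hE
    obtain ⟨B, hB⟩ := hE.2
    exact one_of_od h2 hn (fun w hw => hbig.nofix hg w hw) hm ha d.ne_zero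
      (hgood B _ d le_rfl hB) hAOk.ok hE
  have hsc : ∀ d : K, pol g (sc d b) = (pol g b).scaleRoots d := fun d => (scaleRoots_pol g b d).symm
  have hz : ∀ d : K, ZeroF k (pol g (sc d b)) ↔ ZeroP k ((pol g b).scaleRoots d) := by
    intro d
    rw [hsc]
    exact ⟨fun h => h.2, fun h => ⟨inferInstance, h⟩⟩
  have ho : ∀ d : K, OneF k (pol g (sc d b)) ↔ OneP k ((pol g b).scaleRoots d) := by
    intro d
    rw [hsc]
    exact ⟨fun h => h.2, fun h => ⟨inferInstance, h⟩⟩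
  have hOT : O ⊆ (T : Set (Place k K)) := fun w hw => hWT (Or.inr hw)
  have key := half_kumO h2K hNN hLV hAOk.ok hPar (fun c hc => altnT h2 hn hAOk.ok hc) hAOk.lagF
    hpr hOT (fun w hw => by
      by_contra h
      exact hw (hgT h)) hAOk.xok (v := v) (hWT (Or.inl rfl))
    (flipN h2 hinfK hAOk.ok hn hN ha.symm) (hchQ v)
    (small_ord hAOk.ok hAOk.lagF hpr (ordOk_rdegO hAOk.ok hOT) hAOk.xok
      (fun m c => ¬ SmallS (sysT k K (SeparableClosure K) a T0) m c) (all_abs hT' hAOk).2)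
    (fun d => ZeroF k (pol g (sc d b))) (fun d => OneF k (pol g (sc d b)))
    (fun d h => (hz _).2 (hE0 d h)) (fun d h => (ho _).2 (hE1 d h))
    (fun d h h' => corank_excl ((zeroOn_iff _ _).1 ((hz _).1 h)).1 (hE1 d h'))
    (fun d h h' => corank_excl ((zeroOn_iff _ _).1 (hE0 d h')).1 ((ho _).1 h)) ε hε
  exact key

end Pool.Agent.HA
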