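import Pool.Agent.Lib.HA.Defs

/-!
HA (all pointed hyperelliptic curves over a global function field, MP_950c68_ag), module Move.
`exists_ord`: weak approximation (`GBR.approx` with the powers of `unif v`). `exists_reps_deg`: the
classes of the divisors whose degree is in `[M, M + d₀]`: `exists_reps` for degree `0`, multiples of one
place `w₀`, `d₀ = degree of w₀`, moved away from `S` with `exists_ord`. `h`, `d₀` do not depend on `S`, `M`.
-/

set_option autoImplicit false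

open Polynomial

namespace Pool.Agent.HA

open Pool.Agent.BSDFF Pool.Agent.GBC Pool.Agent.GBU
open Pool.Agent.SmN.Fnl (Tws)
open IsLocalRing (ResidueField residue)

variable {k K : Type} [Field k] [Field K] [Algebra k K]

theorem exists_ord (S : Finset (Place k K)) (D : Place k K → ℤ) :
    ∃ x : K, x ≠ 0 ∧ ∀ v ∈ S, ord v x = D v := by
  choose c hc0 hc using fun v : Place k K => Pool.Agent.GBC.exists_ord v (D v)
  obtain ⟨x, hx, h⟩ := Pool.Agent.GBR.exists_value S c (fun v _ => hc0 v)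
  refine ⟨x, hx, fun v hv => ?_⟩
  rw [← hc v]
  exact le_antisymm ((val_le_iff v (hc0 v) hx).1 (h v hv).ge)
    ((val_le_iff v hx (hc0 v)).1 (h v hv).le)

theorem exists_reps_deg (G : Geo k K) [Finite k] : ∃ h d₀ : ℕ, ∀ (S : Finset (Place k K))
    (M : ℕ), ∃ R : Finset (Place k K →₀ ℤ), R.card ≤ h ∧ (∀ D ∈ R, (∀ v ∈ S, D v = 0) ∧
      (M : ℤ) ≤ degD D ∧ degD D ≤ M + d₀) ∧ ∀ D : Place k K →₀ ℤ, degD D ≤ M →
        ∃ D' ∈ R, ∃ u : K, u ≠ 0 ∧ ∀ v, D v - ord v u ≤ D' v := by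
  classical
  obtain ⟨w₀⟩ := exists_place_geo G
  obtain ⟨R₀, hR, hR'⟩ := exists_reps G
  have hd := G.degree_pos w₀
  obtain ⟨δ, hδ⟩ : ∃ δ : ℕ, δ = w₀.degree := ⟨_, rfl⟩
  rw [← hδ] at hd
  refine ⟨δ * hR.toFinset.card, δ, fun S M => ?_⟩
  have hmove : ∀ F : Place k K →₀ ℤ, ∃ F' : Place k K →₀ ℤ, F - F' ∈ Prin k K ∧
      ∀ v ∈ S, F' v = 0 := by
    intro F
    obtain ⟨x, hx, h⟩ := exists_ord S (fun v => F v)
    obtain ⟨P, hP⟩ := exists_pdiv G hx
    refine ⟨F - P, ?_, ?_⟩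
    · rw [sub_sub_cancel]
      exact ⟨x, hx, hP⟩
    · intro v hv
      rw [Finsupp.sub_apply, hP, h v hv, sub_self]
  choose mv hmv1 hmv2 using hmove
  have hFe : ∀ e : ℤ, ∃ F : Place k K →₀ ℤ, (∃ F' : Place k K →₀ ℤ, degD F' = e) → degD F = e := by
    intro e
    by_cases h : ∃ F' : Place k K →₀ ℤ, degD F' = e
    · exact ⟨h.choose, fun _ => h.choose_spec⟩
    · exact ⟨0, fun h' => absurd h' h⟩
  choose Fe hFe using hFe
  refine ⟨(((Finset.range δ) ×ˢ hR.toFinset).image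
    (fun p => mv (Fe ((M : ℤ) + (p.1 : ℤ)) + p.2))).filter
    (fun D => (M : ℤ) ≤ degD D ∧ degD D ≤ M + δ), ?_, ?_, ?_⟩
  · refine le_trans (Finset.card_filter_le _ _) (le_trans Finset.card_image_le ?_)
    rw [Finset.card_product, Finset.card_range]
  · intro D hD
    rw [Finset.mem_filter] at hD
    refine ⟨?_, hD.2⟩
    obtain ⟨p, _, hp⟩ := Finset.mem_image.1 hD.1
    rw [← hp]
    exact hmv2 _
  · intro D hD
    have hδ0 : (0 : ℤ) < (δ : ℤ) := by exact_mod_cast hd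
    obtain ⟨n, hn0, hn1, hn2⟩ : ∃ n : ℤ, 0 ≤ n ∧ (M : ℤ) ≤ degD D + (δ : ℤ) * n ∧
        degD D + (δ : ℤ) * n < M + δ := by
      have h1 := Int.emod_add_mul_ediv ((M : ℤ) - degD D + δ - 1) (δ : ℤ)
      have h2 := Int.emod_nonneg ((M : ℤ) - degD D + δ - 1) hδ0.ne'
      have h3 := Int.emod_lt_of_pos ((M : ℤ) - degD D + δ - 1) hδ0
      refine ⟨((M : ℤ) - degD D + δ - 1) / δ, ?_, by linarith, by linarith⟩
      exact Int.ediv_nonneg (by linarith) hδ0.le
    obtain ⟨D₂, hD₂⟩ : ∃ D₂ : Place k K →₀ ℤ, D₂ = D + Finsupp.single w₀ n := ⟨_, rfl⟩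
    have hdeg : degD D₂ = degD D + (δ : ℤ) * n := by
      rw [hD₂, degD_add, degD_single, hδ]
    obtain ⟨i, hi⟩ : ∃ i : ℕ, degD D₂ = (M : ℤ) + (i : ℤ) := by
      have h1 : 0 ≤ degD D₂ - M := by
        rw [hdeg]
        linarith
      obtain ⟨i, hi⟩ := Int.eq_ofNat_of_zero_le h1
      exact ⟨i, by linarith⟩
    have hiδ : i < δ := by
      have h1 : ((i : ℕ) : ℤ) < (δ : ℤ) := by linarith
      exact_mod_cast h1
    have hF : degD (Fe ((M : ℤ) + (i : ℤ))) = (M : ℤ) + (i : ℤ) := hFe _ ⟨D₂, hi⟩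
    obtain ⟨E, hE, hE'⟩ := hR' (D₂ - Fe ((M : ℤ) + (i : ℤ))) (by
      rw [degD_sub, hF, hi, sub_self])
    obtain ⟨D', hD'⟩ : ∃ D' : Place k K →₀ ℤ, D' = mv (Fe ((M : ℤ) + (i : ℤ)) + E) := ⟨_, rfl⟩
    have hpr : D₂ - D' ∈ Prin k K := by
      have h1 : D₂ - D' = (D₂ - Fe ((M : ℤ) + (i : ℤ)) - E) +
          (Fe ((M : ℤ) + (i : ℤ)) + E - D') := by abel
      rw [h1]
      refine (Prin k K).add_mem hE' ?_
      rw [hD']
      exact hmv1 _
    have hdeg' : degD D' = degD D₂ := (degD_congr G hpr).symm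
    obtain ⟨u, hu, hu'⟩ := hpr
    refine ⟨D', ?_, u, hu, ?_⟩
    · rw [Finset.mem_filter]
      refine ⟨Finset.mem_image.2 ⟨(i, E), ?_, hD'.symm⟩, ?_, ?_⟩
      · rw [Finset.mem_product, Finset.mem_range, Set.Finite.mem_toFinset]
        exact ⟨hiδ, hE⟩
      · rw [hdeg', hdeg]
        exact hn1
      · rw [hdeg', hdeg]
        exact hn2.le
    · intro v
      have h1 := hu' v
      rw [Finsupp.sub_apply] at h1
      have h2 : D v ≤ D₂ v := by
        rw [hD₂, Finsupp.add_apply]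
        have h3 : 0 ≤ (Finsupp.single w₀ n : Place k K →₀ ℤ) v := by
          rw [Finsupp.single_apply]
          split_ifs
          · exact hn0
          · exact le_refl _
        linarith
      linarith

end Pool.Agent.HA
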