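import Pool.Agent.Lib.HA.Defs
import Pool.Agent.Lib.SmN.Fin.JDens

/-!
HA (all pointed hyperelliptic curves over a global function field, MP_950c68_ag), module Hts.
The number of the elements of height at most `δ`: sum over the effective `D` of degree `≤ δ` (at most
`B q ^ j` of degree `j`, `card_Eff_le`) of `q ^ l(D)`, `l(D) ≤ deg D + l(0)`.
-/

set_option autoImplicit false

open Polynomial

namespace Pool.Agent.HA

open Pool.Agent.BSDFF Pool.Agent.GBC Pool.Agent.GBU
open Pool.Agent.SmN.Fnl (Tws)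
open IsLocalRing (ResidueField residue)

variable {k K : Type} [Field k] [Field K] [Algebra k K]

private theorem Hts_geom (q : ℕ) (hq : 2 ≤ q) (n : ℕ) :
    ∑ j ∈ Finset.range (n + 1), q ^ (2 * j) ≤ 2 * q ^ (2 * n) := by
  induction n with
  | zero => simp
  | succ n ih =>
    rw [Finset.sum_range_succ]
    have h1 : 2 * q ^ (2 * n) ≤ q ^ (2 * (n + 1)) := by
      rw [show 2 * (n + 1) = 2 * n + 2 by ring, pow_add, mul_comm]
      exact Nat.mul_le_mul_left _ (by nlinarith)
    omega

theorem card_htLE (G : Geo k K) [Finite k] : ∃ B : ℕ, ∀ δ : ℕ,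
    {x : K | SmN.Fnl.HtLE k δ x}.ncard ≤ B * Nat.card k ^ (2 * δ) := by
  classical
  obtain ⟨B, hB⟩ := card_Eff_le G
  set l := Module.finrank k (LL (0 : Place k K →₀ ℤ)) with hl
  have hq : 2 ≤ Nat.card k := Finite.one_lt_card
  refine ⟨2 * (B * Nat.card k ^ l), fun δ => ?_⟩
  have hfin : ∀ D : Place k K →₀ ℤ, ((LL D : Submodule k K) : Set K).Finite := fun D => by
    have := LL_finite G D
    have h3 : Finite (LL D) := Module.finite_of_finite k
    exact Set.toFinite _
  have hcard : ∀ (D : Place k K →₀ ℤ) (n : ℕ), D ∈ Eff G (n : ℕ) →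
      (hfin D).toFinset.card ≤ Nat.card k ^ (n + l) := by
    intro D n hD
    rw [mem_Eff] at hD
    have hf := LL_finite G D
    have h1 : (hfin D).toFinset.card = Nat.card k ^ Module.finrank k (LL D) := by
      rw [← Set.ncard_eq_toFinset_card _ (hfin D), ← Module.natCard_eq_pow_finrank]
      exact (Nat.card_coe_set_eq _).symm
    rw [h1]
    refine Nat.pow_le_pow_right (by omega) ?_
    have h2 := LL_le G D (by rw [hD.2]; positivity)
    rw [hD.2] at h2
    exact_mod_cast h2
  have hsub : {x : K | SmN.Fnl.HtLE k δ x} ⊆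
      (((Finset.range (δ + 1)).biUnion fun n => (Eff G (n : ℕ)).biUnion fun D =>
        (hfin D).toFinset : Finset K) : Set K) := by
    rintro x ⟨D, hD, hd, hx⟩
    have h2 := degD_nonneg hD
    obtain ⟨n, hn⟩ := Int.eq_ofNat_of_zero_le h2
    rw [Finset.mem_coe, Finset.mem_biUnion]
    refine ⟨n, ?_, ?_⟩
    · rw [Finset.mem_range]
      omega
    · rw [Finset.mem_biUnion]
      refine ⟨D, ?_, ?_⟩
      · rw [mem_Eff]
        exact ⟨hD, hn⟩
      · rw [Set.Finite.mem_toFinset]
        exact hx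
  calc {x : K | SmN.Fnl.HtLE k δ x}.ncard
      ≤ (((Finset.range (δ + 1)).biUnion fun n => (Eff G (n : ℕ)).biUnion fun D =>
        (hfin D).toFinset : Finset K) : Set K).ncard :=
        Set.ncard_le_ncard hsub (Finset.finite_toSet _)
    _ = ((Finset.range (δ + 1)).biUnion fun n => (Eff G (n : ℕ)).biUnion fun D =>
        (hfin D).toFinset).card := Set.ncard_coe_finset _
    _ ≤ ∑ n ∈ Finset.range (δ + 1), ∑ D ∈ Eff G (n : ℕ), (hfin D).toFinset.card :=
        Finset.card_biUnion_le.trans (Finset.sum_le_sum fun n _ => Finset.card_biUnion_le)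
    _ ≤ ∑ n ∈ Finset.range (δ + 1), ∑ D ∈ Eff G (n : ℕ), Nat.card k ^ (n + l) :=
        Finset.sum_le_sum fun n _ => Finset.sum_le_sum fun D hD => hcard D n hD
    _ ≤ ∑ n ∈ Finset.range (δ + 1), (B * Nat.card k ^ l) * Nat.card k ^ (2 * n) := by
        refine Finset.sum_le_sum fun n _ => ?_
        rw [Finset.sum_const, smul_eq_mul]
        calc (Eff G (n : ℕ)).card * Nat.card k ^ (n + l)
            ≤ (B * Nat.card k ^ n) * Nat.card k ^ (n + l) := Nat.mul_le_mul_right _ (hB n)
          _ = (B * Nat.card k ^ l) * Nat.card k ^ (2 * n) := by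
            rw [pow_add, two_mul, pow_add]
            ring
    _ = (B * Nat.card k ^ l) * ∑ n ∈ Finset.range (δ + 1), Nat.card k ^ (2 * n) := by
        rw [Finset.mul_sum]
    _ ≤ (B * Nat.card k ^ l) * (2 * Nat.card k ^ (2 * δ)) :=
        Nat.mul_le_mul_left _ (Hts_geom _ hq δ)
    _ = 2 * (B * Nat.card k ^ l) * Nat.card k ^ (2 * δ) := by ring

end Pool.Agent.HA
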