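import Pool.Agent.Lib.HA.Defs

/-!
HA (all pointed hyperelliptic curves over a global function field, MP_950c68_ag), module Size.
The number of elements of `Box g D` (`LL_le`, `riemann_eq`, `LL_eq_bot`, `degD_nsmul`).
-/

set_option autoImplicit false

open Polynomial

namespace Pool.Agent.HA

open Pool.Agent.BSDFF Pool.Agent.GBC Pool.Agent.GBU
open Pool.Agent.SmN.Fnl (Tws)
open IsLocalRing (ResidueField residue)

variable {k K : Type} [Field k] [Field K] [Algebra k K]

private theorem Size_mem {g : ℕ} {D : Place k K →₀ ℤ} {a : Fin (2 * g) → K} :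
    a ∈ Box g D ↔ ∀ j : Fin (2 * g), a j ∈ LL (((j : ℕ) + 2) • D) := by
  unfold Box
  rw [Submodule.mem_pi]
  exact ⟨fun h j => h j (Set.mem_univ j), fun h j _ => h j⟩

private def Size_equiv (g : ℕ) (D : Place k K →₀ ℤ) :
    Box g D ≃ ((j : Fin (2 * g)) → LL (((j : ℕ) + 2) • D)) where
  toFun a j := ⟨(a : Fin (2 * g) → K) j, Size_mem.1 a.2 j⟩
  invFun b := ⟨fun j => (b j : K), Size_mem.2 fun j => (b j).2⟩
  left_inv _ := rfl
  right_inv _ := rfl

private theorem Size_finLL (G : Geo k K) [Finite k] (D : Place k K →₀ ℤ) : Finite (LL D) := by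
  have := LL_finite G D
  exact Module.finite_of_finite k

theorem finite_Box (G : Geo k K) [Finite k] (g : ℕ) (D : Place k K →₀ ℤ) :
    Finite (Box g D) := by
  have : ∀ D : Place k K →₀ ℤ, Finite (LL D) := fun D => Size_finLL G D
  exact Finite.of_equiv _ (Size_equiv g D).symm

theorem Box_eq_bot (G : Geo k K) (g : ℕ) {D : Place k K →₀ ℤ} (h : degD D < 0) :
    Box g D = ⊥ := by
  rw [Submodule.eq_bot_iff]
  intro a ha
  funext j
  have h1 := Size_mem.1 ha j
  rw [LL_eq_bot G (D := ((j : ℕ) + 2) • D) (by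
    rw [degD_nsmul]
    push_cast
    nlinarith)] at h1
  exact h1

private theorem Size_card (G : Geo k K) [Finite k] (g : ℕ) (D : Place k K →₀ ℤ) :
    Nat.card (Box g D) =
      Nat.card k ^ (∑ j : Fin (2 * g), Module.finrank k (LL (((j : ℕ) + 2) • D))) := by
  rw [Nat.card_congr (Size_equiv g D), Nat.card_pi, ← Finset.prod_pow_eq_pow_sum]
  refine Finset.prod_congr rfl fun j _ => ?_
  have := LL_finite G (((j : ℕ) + 2) • D)
  exact Module.natCard_eq_pow_finrank

theorem card_Box_le (G : Geo k K) [Finite k] (g : ℕ) : ∃ B : ℕ, ∀ D : Place k K →₀ ℤ,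
    0 ≤ degD D → Nat.card (Box g D) ≤ B * Nat.card k ^ (wt g * (degD D).toNat) := by
  refine ⟨Nat.card k ^ (2 * g * Module.finrank k (LL (0 : Place k K →₀ ℤ))), fun D hD => ?_⟩
  rw [Size_card G, ← pow_add]
  refine Nat.pow_le_pow_right Nat.card_pos ?_
  have h1 : ∀ j : Fin (2 * g), Module.finrank k (LL (((j : ℕ) + 2) • D)) ≤
      Module.finrank k (LL (0 : Place k K →₀ ℤ)) + ((j : ℕ) + 2) * (degD D).toNat := by
    intro j
    have h2 := LL_le G (((j : ℕ) + 2) • D) (by
      rw [degD_nsmul]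
      positivity)
    rw [degD_nsmul] at h2
    have h3 : ((degD D).toNat : ℤ) = degD D := Int.toNat_of_nonneg hD
    zify
    rw [h3]
    push_cast at h2
    linarith
  refine (Finset.sum_le_sum fun j _ => h1 j).trans ?_
  rw [Finset.sum_add_distrib, ← Finset.sum_mul, Finset.sum_const, Finset.card_univ,
    Fintype.card_fin, smul_eq_mul]
  exact le_of_eq rfl

theorem le_card_Box (G : Geo k K) [Finite k] (g : ℕ) : ∃ B : ℕ, 0 < B ∧ ∃ C : ℤ,
    ∀ D : Place k K →₀ ℤ, C ≤ degD D →
      Nat.card k ^ (wt g * (degD D).toNat) ≤ B * Nat.card (Box g D) := by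
  obtain ⟨c, _, hc⟩ := riemann_eq G
  refine ⟨Nat.card k ^ (2 * g * c.natAbs), Nat.pow_pos Nat.card_pos, 0, fun D hD => ?_⟩
  rw [Size_card G, ← pow_add]
  refine Nat.pow_le_pow_right Nat.card_pos ?_
  have h1 : ∀ j : Fin (2 * g), ((j : ℕ) + 2) * (degD D).toNat ≤
      c.natAbs + Module.finrank k (LL (((j : ℕ) + 2) • D)) := by
    intro j
    have h2 := (hc (((j : ℕ) + 2) • D)).1
    rw [degD_nsmul] at h2
    have h3 : ((degD D).toNat : ℤ) = degD D := Int.toNat_of_nonneg hD
    have h4 : -c ≤ |c| := neg_le_abs c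
    zify
    rw [h3]
    push_cast at h2
    linarith
  have h5 : ∑ j : Fin (2 * g), ((j : ℕ) + 2) * (degD D).toNat ≤
      ∑ j : Fin (2 * g), (c.natAbs + Module.finrank k (LL (((j : ℕ) + 2) • D))) :=
    Finset.sum_le_sum fun j _ => h1 j
  have h6 : ∑ j : Fin (2 * g), (c.natAbs + Module.finrank k (LL (((j : ℕ) + 2) • D))) =
      2 * g * c.natAbs + ∑ j : Fin (2 * g), Module.finrank k (LL (((j : ℕ) + 2) • D)) := by
    rw [Finset.sum_add_distrib, Finset.sum_const, Finset.card_univ, Fintype.card_fin, smul_eq_mul]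
  rw [← Finset.sum_mul, h6] at h5
  exact h5

end Pool.Agent.HA
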