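import Pool.Agent.Lib.HA.Defs
import Pool.Agent.Lib.HA.Hts
import Pool.Agent.Lib.HA.Size
import Pool.Agent.Lib.HA.Md

/-!
HA (all pointed hyperelliptic curves over a global function field, MP_950c68_ag), module Pairs.
If `a` and `sc u a` are in `Box g D` and `P` is the divisor of the poles of `u` then `a ∈ Box g (D - P)`.
So with `δ = deg P ≤ deg D` (else `a = 0` by `Box_eq_bot`) the number of pairs is at most the sum over
`δ` of `B q ^ (2 δ) * B' q ^ (wt g (deg D - δ))`, and `wt g ≥ 5`.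
-/

set_option autoImplicit false

open Polynomial

namespace Pool.Agent.HA

open Pool.Agent.BSDFF Pool.Agent.GBC Pool.Agent.GBU
open Pool.Agent.SmN.Fnl (Tws)
open IsLocalRing (ResidueField residue)

variable {k K : Type} [Field k] [Field K] [Algebra k K]

/-- The divisor of the poles of `u`. -/
private theorem exists_poles (G : Geo k K) (u : K) :
    ∃ P : Place k K →₀ ℤ, 0 ≤ P ∧ (u ≠ 0 → ∀ v, P v = max 0 (-ord v u)) := by
  by_cases hu : u = 0
  · exact ⟨0, le_refl _, fun h => absurd hu h⟩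
  · obtain ⟨F, hF⟩ := exists_pdiv G hu
    refine ⟨F.mapRange (fun z => max 0 (-z)) (by simp), fun v => ?_, fun _ v => ?_⟩
    · rw [Finsupp.mapRange_apply, Finsupp.zero_apply]
      exact le_max_left _ _
    · rw [Finsupp.mapRange_apply, hF v]

private theorem sum_pow_sub_le (q m : ℕ) (hq : 2 ≤ q) :
    ∀ n : ℕ, n ≤ m → ∑ i ∈ Finset.range (n + 1), q ^ (m - i) + q ^ (m - n) ≤ 2 * q ^ m := by
  intro n
  induction n with
  | zero =>
    intro _
    simp
    omega
  | succ n ih =>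
    intro h
    have h1 := ih (by omega)
    rw [Finset.sum_range_succ]
    have h2 : q ^ (m - n) = q * q ^ (m - (n + 1)) := by
      rw [← pow_succ']
      congr 1
      omega
    have h3 : 2 * q ^ (m - (n + 1)) ≤ q * q ^ (m - (n + 1)) := Nat.mul_le_mul_right _ hq
    omega

private theorem five_le_wt {g : ℕ} (hg : 1 ≤ g) : 5 ≤ wt g := by
  obtain ⟨m, rfl⟩ := Nat.exists_eq_add_of_le hg
  unfold wt
  have h1 : 2 * (1 + m) = 2 * m + 1 + 1 := by ring
  rw [Fin.sum_univ_eq_sum_range (fun j => j + 2) (2 * (1 + m)), h1, Finset.sum_range_succ,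
    Finset.sum_range_succ]
  rcases Nat.eq_zero_or_pos m with rfl | hm
  · simp
  · omega

theorem card_pairs (G : Geo k K) [Finite k] {g : ℕ} (hg : 1 ≤ g) : ∃ B : ℕ,
    ∀ D : Place k K →₀ ℤ, 0 ≤ degD D →
      {p : (Fin (2 * g) → K) × K | p.1 ≠ 0 ∧ p.1 ∈ Box g D ∧ p.2 ≠ 0 ∧
        sc p.2 p.1 ∈ Box g D}.Finite ∧
      {p : (Fin (2 * g) → K) × K | p.1 ≠ 0 ∧ p.1 ∈ Box g D ∧ p.2 ≠ 0 ∧
        sc p.2 p.1 ∈ Box g D}.ncard ≤ B * Nat.card k ^ (wt g * (degD D).toNat) := by
  classical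
  obtain ⟨B1, hB1⟩ := card_htLE G
  obtain ⟨B2, hB2⟩ := card_Box_le G g
  choose P hP0 hP using exists_poles G
  refine ⟨2 * (B1 * B2), fun D hD => ?_⟩
  set S : Set ((Fin (2 * g) → K) × K) := {p | p.1 ≠ 0 ∧ p.1 ∈ Box g D ∧ p.2 ≠ 0 ∧
    sc p.2 p.1 ∈ Box g D} with hS
  set n : ℕ := (degD D).toNat with hndef
  have hn : (n : ℤ) = degD D := Int.toNat_of_nonneg hD
  set q : ℕ := Nat.card k with hqdef
  have hq : 2 ≤ q := Finite.one_lt_card
  have key : ∀ p ∈ S, ∃ δ : ℕ, δ ≤ n ∧ degD (P p.2) = δ ∧ SmN.Fnl.HtLE k δ p.2 ∧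
      p.1 ∈ Box g (D - P p.2) := by
    rintro ⟨a, u⟩ ⟨ha, haD, hu, hua⟩
    change a ≠ 0 at ha
    change a ∈ Box g D at haD
    change u ≠ 0 at hu
    change sc u a ∈ Box g D at hua
    change ∃ δ : ℕ, δ ≤ n ∧ degD (P u) = δ ∧ SmN.Fnl.HtLE k δ u ∧ a ∈ Box g (D - P u)
    have hmem : a ∈ Box g (D - P u) := by
      rw [mem_Box_iff ha]
      intro v
      have h1 := (mem_Box_iff ha).1 haD v
      have h2 := (mem_Box_iff (sc_ne_zero hu ha)).1 hua v
      rw [md_sc v ha hu] at h2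
      rw [Finsupp.sub_apply, hP u hu v]
      rcases max_cases 0 (-ord v u) with ⟨h3, _⟩ | ⟨h3, _⟩
      · rw [h3]
        linarith
      · rw [h3]
        linarith
    have hdeg0 : 0 ≤ degD (P u) := degD_nonneg (hP0 u)
    have hdeg1 : 0 ≤ degD (D - P u) := by
      by_contra hcon
      push Not at hcon
      rw [Box_eq_bot G g hcon, Submodule.mem_bot] at hmem
      exact ha hmem
    rw [degD_sub] at hdeg1
    refine ⟨(degD (P u)).toNat, by omega, by omega, ⟨P u, hP0 u, by omega, ?_⟩, hmem⟩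
    rw [mem_LL_iff hu]
    intro w
    rw [hP u hu w]
    have := le_max_right 0 (-ord w u)
    linarith
  let f : ℕ → K → Finset ((Fin (2 * g) → K) × K) := fun δ u =>
    if degD (P u) = δ then
      (@Set.toFinite _ (Box g (D - P u) : Set (Fin (2 * g) → K))
        (finite_Box G g (D - P u))).toFinset.image (fun a => (a, u))
    else ∅
  let U : Finset ((Fin (2 * g) → K) × K) := (Finset.range (n + 1)).biUnion fun δ =>
    (SmN.Fnl.finite_htLE G δ).toFinset.biUnion (f δ)
  have hSU : S ⊆ (U : Set ((Fin (2 * g) → K) × K)) := by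
    intro p hp
    obtain ⟨δ, h1, h2, h3, h4⟩ := key p hp
    rw [Finset.mem_coe, Finset.mem_biUnion]
    refine ⟨δ, Finset.mem_range.2 (by omega), ?_⟩
    rw [Finset.mem_biUnion]
    refine ⟨p.2, (Set.Finite.mem_toFinset _).2 h3, ?_⟩
    change p ∈ (if degD (P p.2) = δ then _ else _)
    rw [if_pos h2, Finset.mem_image]
    exact ⟨p.1, (Set.Finite.mem_toFinset _).2 h4, rfl⟩
  refine ⟨U.finite_toSet.subset hSU, ?_⟩
  have hcf : ∀ δ ∈ Finset.range (n + 1), ∀ u ∈ (SmN.Fnl.finite_htLE G δ).toFinset,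
      (f δ u).card ≤ B2 * q ^ (wt g * (n - δ)) := by
    intro δ hδ u _
    rw [Finset.mem_range] at hδ
    change (if degD (P u) = δ then _ else _ : Finset ((Fin (2 * g) → K) × K)).card ≤ _
    split_ifs with h
    · refine Finset.card_image_le.trans ?_
      have h0 := Set.ncard_eq_toFinset_card (Box g (D - P u) : Set (Fin (2 * g) → K))
        (@Set.toFinite _ (Box g (D - P u) : Set (Fin (2 * g) → K)) (finite_Box G g (D - P u)))
      rw [← h0]
      have h1 : degD (D - P u) = ((n - δ : ℕ) : ℤ) := by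
        rw [degD_sub, h, ← hn]
        omega
      have h2 := hB2 (D - P u) (by rw [h1]; exact Int.natCast_nonneg _)
      rw [h1, Int.toNat_natCast] at h2
      exact h2
    · simp
  have h5 := five_le_wt hg
  calc S.ncard ≤ (U : Set ((Fin (2 * g) → K) × K)).ncard :=
        Set.ncard_le_ncard hSU U.finite_toSet
    _ = U.card := Set.ncard_coe_finset U
    _ ≤ ∑ δ ∈ Finset.range (n + 1), ((SmN.Fnl.finite_htLE G δ).toFinset.biUnion (f δ)).card :=
        Finset.card_biUnion_le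
    _ ≤ ∑ δ ∈ Finset.range (n + 1), (B1 * B2) * q ^ (wt g * n - δ) := by
        refine Finset.sum_le_sum fun δ hδ => ?_
        refine (Finset.card_biUnion_le_card_mul _ _ _ (hcf δ hδ)).trans ?_
        rw [← Set.ncard_eq_toFinset_card {x : K | SmN.Fnl.HtLE k δ x} (SmN.Fnl.finite_htLE G δ)]
        rw [Finset.mem_range] at hδ
        have h1 := hB1 δ
        have h2 : q ^ (2 * δ) * q ^ (wt g * (n - δ)) ≤ q ^ (wt g * n - δ) := by
          rw [← pow_add]
          refine Nat.pow_le_pow_right (by omega) ?_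
          have h3 : 5 * δ ≤ wt g * δ := Nat.mul_le_mul_right _ h5
          have h4 : wt g * (n - δ) + wt g * δ = wt g * n := by
            rw [← Nat.mul_add]
            congr 1
            omega
          omega
        calc {x : K | SmN.Fnl.HtLE k δ x}.ncard * (B2 * q ^ (wt g * (n - δ)))
            ≤ (B1 * q ^ (2 * δ)) * (B2 * q ^ (wt g * (n - δ))) := Nat.mul_le_mul_right _ h1
          _ = (B1 * B2) * (q ^ (2 * δ) * q ^ (wt g * (n - δ))) := by ring
          _ ≤ (B1 * B2) * q ^ (wt g * n - δ) := Nat.mul_le_mul_left _ h2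
    _ = (B1 * B2) * ∑ δ ∈ Finset.range (n + 1), q ^ (wt g * n - δ) := by
        rw [Finset.mul_sum]
    _ ≤ (B1 * B2) * (2 * q ^ (wt g * n)) := by
        refine Nat.mul_le_mul_left _ ?_
        have h6 : n ≤ wt g * n := Nat.le_mul_of_pos_left n (by omega)
        have := sum_pow_sub_le q (wt g * n) hq n h6
        omega
    _ = 2 * (B1 * B2) * q ^ (wt g * n) := by ring

end Pool.Agent.HA
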