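import Pool.Agent.Lib.HA.Defs
import Pool.Agent.Lib.HA.Move
import Pool.Agent.Lib.HA.Md
import Pool.Agent.Lib.HA.Size

/-!
HA (all pointed hyperelliptic curves over a global function field, MP_950c68_ag), module Upp.
Every shape of height at most `M` has a representative in `Box g D`, `D ∈ R` (`hgt_le_iff`, `box_sc`,
`exists_reps_deg`).
-/

set_option autoImplicit false

open Polynomial

namespace Pool.Agent.HA

open Pool.Agent.BSDFF Pool.Agent.GBC Pool.Agent.GBU
open Pool.Agent.SmN.Fnl (Tws)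
open IsLocalRing (ResidueField residue)

variable {k K : Type} [Field k] [Field K] [Algebra k K]

private theorem upp_pol_sc (g : ℕ) (a : Fin (2 * g) → K) {u : K} (hu : u ≠ 0) :
    pol g (sc u a) = C (u ^ (2 * g + 1)) * (pol g a).comp (C u⁻¹ * X) := by
  unfold pol
  rw [add_comp, mul_add, Polynomial.sum_comp, Finset.mul_sum]
  congr 1
  · rw [X_pow_comp, mul_pow, ← C_pow, ← mul_assoc, ← C_mul, ← mul_pow, mul_inv_cancel₀ hu,
      one_pow, C_1, one_mul]
  · refine Finset.sum_congr rfl fun j _ => ?_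
    rw [mul_comp, C_comp, X_pow_comp, mul_pow, ← C_pow, ← mul_assoc, ← mul_assoc, ← C_mul,
      ← C_mul]
    congr 2
    unfold sc
    have hj : u ^ (2 * g + 1) = u ^ ((j : ℕ) + 2) * u ^ (2 * g - 1 - (j : ℕ)) := by
      rw [← pow_add]
      congr 1
      have := j.2
      omega
    rw [hj]
    have h1 : u ^ (2 * g - 1 - (j : ℕ)) * u⁻¹ ^ (2 * g - 1 - (j : ℕ)) = 1 := by
      rw [← mul_pow, mul_inv_cancel₀ hu, one_pow]
    calc u ^ ((j : ℕ) + 2) * a j
        = u ^ ((j : ℕ) + 2) * a j * (u ^ (2 * g - 1 - (j : ℕ)) * u⁻¹ ^ (2 * g - 1 - (j : ℕ))) := by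
          rw [h1, mul_one]
      _ = _ := by ring

private theorem upp_sep_comp {f : K[X]} (hf : f.Separable) {c : K} (hc : c ≠ 0) :
    (f.comp (C c * X)).Separable := by
  rw [separable_def'] at hf ⊢
  obtain ⟨p, q, hpq⟩ := hf
  refine ⟨p.comp (C c * X), q.comp (C c * X) * C c⁻¹, ?_⟩
  have h1 : derivative (f.comp (C c * X)) = C c * (derivative f).comp (C c * X) := by
    rw [derivative_comp, derivative_mul, derivative_C, derivative_X, zero_mul, zero_add, mul_one]
  rw [h1]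
  have h2 : (p * f + q * derivative f).comp (C c * X) = 1 := by
    rw [hpq, one_comp]
  rw [add_comp, mul_comp, mul_comp] at h2
  rw [← h2]
  have h3 : (C c⁻¹ : K[X]) * C c = 1 := by
    rw [← C_mul, inv_mul_cancel₀ hc, C_1]
  calc p.comp (C c * X) * f.comp (C c * X) +
        q.comp (C c * X) * C c⁻¹ * (C c * (derivative f).comp (C c * X))
      = p.comp (C c * X) * f.comp (C c * X) +
        q.comp (C c * X) * (derivative f).comp (C c * X) * (C c⁻¹ * C c) := by ring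
    _ = _ := by rw [h3, mul_one]

private theorem upp_sep_sc {g : ℕ} {a : Fin (2 * g) → K} (h : (pol g a).Separable) {u : K}
    (hu : u ≠ 0) : (pol g (sc u a)).Separable := by
  rw [upp_pol_sc g a hu]
  exact Separable.unit_mul ((isUnit_C).2 (pow_ne_zero _ hu).isUnit)
    (upp_sep_comp h (inv_ne_zero hu))

private theorem upp_ne_zero {g : ℕ} (hg : 1 ≤ g) {a : Fin (2 * g) → K}
    (h : (pol g a).Separable) : a ≠ 0 := by
  rintro rfl
  rw [pol_zero] at h
  have h1 := h.squarefree X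
    ⟨X ^ (2 * g - 1), by rw [← pow_two, ← pow_add]; congr 1; omega⟩
  exact not_isUnit_X h1

theorem shapes_le (G : Geo k K) [Finite k] {g : ℕ} (hg : 1 ≤ g) : ∃ h d₀ : ℕ,
    ∀ (S : Finset (Place k K)) (M : ℕ), ∃ R : Finset (Place k K →₀ ℤ), R.card ≤ h ∧
      (∀ D ∈ R, (∀ v ∈ S, D v = 0) ∧ (M : ℤ) ≤ degD D ∧ degD D ≤ M + d₀) ∧
      ∀ P : (Fin (2 * g) → K) → Prop, (∀ (u : K) a, u ≠ 0 → P a → P (sc u a)) →
        (Shapes k K g M P).Finite ∧ (Shapes k K g M P).ncard ≤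
          ∑ D ∈ R, {a : Fin (2 * g) → K | a ∈ Box g D ∧ (pol g a).Separable ∧ P a}.ncard := by
  classical
  obtain ⟨h, d₀, H⟩ := exists_reps_deg G
  refine ⟨h, d₀, fun S M => ?_⟩
  obtain ⟨R, hR, hRS, hrep⟩ := H S M
  refine ⟨R, hR, hRS, fun P hP => ?_⟩
  have hfin : ∀ D : Place k K →₀ ℤ,
      {a : Fin (2 * g) → K | a ∈ Box g D ∧ (pol g a).Separable ∧ P a}.Finite := by
    intro D
    have hB : Finite (Box g D) := finite_Box G g D
    have hB' : ((Box g D : Submodule k (Fin (2 * g) → K)) : Set (Fin (2 * g) → K)).Finite := hB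
    exact hB'.subset fun a ha => ha.1
  have hsub : Shapes k K g M P ⊆ ⋃ D ∈ R, (Quotient.mk (scRel K g)) ''
      {a : Fin (2 * g) → K | a ∈ Box g D ∧ (pol g a).Separable ∧ P a} := by
    rintro z ⟨a, rfl, hsep, hh, hPa⟩
    have ha : a ≠ 0 := upp_ne_zero hg hsep
    obtain ⟨E, hE, hE'⟩ := exists_mdiv G ha
    obtain ⟨D', hD', u, hu, hle⟩ := hrep E (by rw [hE']; exact hh)
    refine Set.mem_iUnion₂.2 ⟨D', hD', sc u a, ⟨?_, upp_sep_sc hsep hu, hP u a hu hPa⟩, ?_⟩
    · rw [mem_Box_iff (sc_ne_zero hu ha)]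
      intro v
      rw [md_sc v ha hu, ← hE v]
      exact hle v
    · exact (Quotient.sound (s := scRel K g) ⟨u, hu, rfl⟩).symm
  have hfinU : (⋃ D ∈ R, (Quotient.mk (scRel K g)) ''
      {a : Fin (2 * g) → K | a ∈ Box g D ∧ (pol g a).Separable ∧ P a}).Finite :=
    Set.Finite.biUnion (Finset.finite_toSet R) fun D _ => (hfin D).image _
  refine ⟨hfinU.subset hsub, ?_⟩
  calc (Shapes k K g M P).ncard ≤ (⋃ D ∈ R, (Quotient.mk (scRel K g)) ''
      {a : Fin (2 * g) → K | a ∈ Box g D ∧ (pol g a).Separable ∧ P a}).ncard :=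
        Set.ncard_le_ncard hsub hfinU
    _ ≤ ∑ D ∈ R, ((Quotient.mk (scRel K g)) ''
      {a : Fin (2 * g) → K | a ∈ Box g D ∧ (pol g a).Separable ∧ P a}).ncard :=
        Finset.set_ncard_biUnion_le R _
    _ ≤ _ := Finset.sum_le_sum fun D _ => Set.ncard_image_le (hfin D)

end Pool.Agent.HA
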