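import Pool.Agent.Lib.HA.Defs
import Pool.Agent.Lib.SmBU.PlcK
import Pool.Agent.Lib.SmBU.Pnt

/-!
HA (all pointed hyperelliptic curves over a global function field, MP_950c68_ag), module Plc.
The places: `card_residue`; the sum of `1 / q ^ deg v` over the places of degree `≥ m` diverges (prime number theorem
for `K`: `SmBU/Pnt.lean`, `pnt_fin'`: the number of the places of degree `N` is at least `q ^ N / (2 N)`).
-/

set_option autoImplicit false

open Polynomial

namespace Pool.Agent.HA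

open Pool.Agent.BSDFF Pool.Agent.GBC Pool.Agent.GBU
open Pool.Agent.SmN.Fnl (Tws)
open IsLocalRing (ResidueField residue)

variable {k K : Type} [Field k] [Field K] [Algebra k K]
variable [Finite k] [Algebra (RatFunc k) K] [IsScalarTower k (RatFunc k) K]
  [FiniteDimensional (RatFunc k) K] [Algebra.IsSeparable (RatFunc k) K]

theorem card_residue (v : Place k K) :
    Nat.card (ResidueField v.ring) = Nat.card k ^ v.degree := by
  obtain ⟨G, -⟩ := exists_geo k K
  exact G.card_residue v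

/-- many places of degree `N` -/
private theorem Plc_many (hk : ∀ x : K, IsIntegral k x → ∃ c : k, algebraMap k K c = x) :
    ∃ C : ℕ, ∀ N : ℕ, N ≠ 0 → ∃ T : Finset (Place k K), (∀ v ∈ T, v.degree = N) ∧
      (Nat.card k : ℝ) ^ N - C * √((Nat.card k : ℝ) ^ N) ≤ (N : ℝ) * T.card := by
  classical
  let _ : Algebra k[X] K :=
    ((algebraMap (RatFunc k) K).comp (algebraMap k[X] (RatFunc k))).toAlgebra
  have : IsScalarTower k[X] (RatFunc k) K := IsScalarTower.of_algebraMap_eq fun x => rfl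
  have : IsScalarTower k k[X] K := by
    refine IsScalarTower.of_algebraMap_eq fun x => ?_
    rw [IsScalarTower.algebraMap_apply k (RatFunc k) K,
      IsScalarTower.algebraMap_apply k k[X] (RatFunc k)]
    rfl
  obtain ⟨C, hC⟩ := SmBU.pnt_fin' k K hk
  refine ⟨C, fun N hN => ?_⟩
  have hfin := SmBU.prK_finite (k := k) (K := K) N
  have hex : ∀ I : {I // I ∈ hfin.toFinset}, ∃ v : Place k K,
      SmBU.FinPl v ∧ SmBU.pI v = I.1 := by
    intro I
    have hI := hfin.mem_toFinset.1 I.2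
    exact SmBU.exists_pI hI.1 hI.2.1
  choose f hf using hex
  have hinj : Function.Injective f := by
    intro I J h
    apply Subtype.ext
    rw [← (hf I).2, ← (hf J).2, h]
  refine ⟨hfin.toFinset.attach.image f, ?_, ?_⟩
  · intro v hv
    rw [Finset.mem_image] at hv
    obtain ⟨I, -, rfl⟩ := hv
    refine (SmBU.pI_mem_PrK (hf I).1).1 ?_
    rw [(hf I).2]
    exact hfin.mem_toFinset.1 I.2
  · rw [Finset.card_image_of_injective _ hinj, Finset.card_attach]
    have h1 := hC N hN hfin.toFinset (fun v => hfin.mem_toFinset)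
    have h2 := (abs_le.1 h1).1
    linarith

theorem sum_places (hk : ∀ x : K, IsIntegral k x → ∃ c : k, algebraMap k K c = x) (m : ℕ)
    (B : ℝ) : ∃ S : Finset (Place k K), (∀ v ∈ S, m ≤ v.degree ∧ Even v.degree) ∧
      B ≤ ∑ v ∈ S, ((Nat.card k : ℝ) ^ v.degree)⁻¹ := by
  classical
  obtain ⟨C, hC⟩ := Plc_many (k := k) (K := K) hk
  have hq1 : 1 < Nat.card k := Finite.one_lt_card
  have hq : (2 : ℝ) ≤ Nat.card k := by exact_mod_cast hq1
  have hq0 : (0 : ℝ) < Nat.card k := by linarith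
  -- from `N₀` on the error is at most half
  have hN0 : ∃ N₀ : ℕ, ∀ N : ℕ, N₀ ≤ N → (2 * C : ℝ) ≤ √((Nat.card k : ℝ) ^ N) := by
    refine ⟨(2 * C) ^ 2, fun N hN => ?_⟩
    refine Real.le_sqrt_of_sq_le ?_
    have h1 : (N : ℝ) ≤ 2 ^ N := by exact_mod_cast (Nat.lt_two_pow_self (n := N)).le
    have h2 : ((2 * C : ℝ)) ^ 2 ≤ N := by exact_mod_cast hN
    exact h2.trans (h1.trans (pow_le_pow_left₀ (by norm_num) hq N))
  obtain ⟨N₀, hN₀⟩ := hN0
  set N₁ := max (max N₀ m) 1 with hN₁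
  have hT : ∀ N : ℕ, ∃ T : Finset (Place k K), (∀ v ∈ T, v.degree = N) ∧
      (N₁ ≤ N → (1 : ℝ) / (2 * N) ≤ T.card * ((Nat.card k : ℝ) ^ N)⁻¹) := by
    intro N
    by_cases hN : N₁ ≤ N
    · have hN1 : 1 ≤ N := le_trans (le_max_right _ _) hN
      obtain ⟨T, hT1, hT2⟩ := hC N (by omega)
      refine ⟨T, hT1, fun _ => ?_⟩
      have hP : (0 : ℝ) < (Nat.card k : ℝ) ^ N := pow_pos hq0 N
      have hs := hN₀ N (le_trans (le_trans (le_max_left _ _) (le_max_left _ _)) hN)
      have hs2 : √((Nat.card k : ℝ) ^ N) * √((Nat.card k : ℝ) ^ N) = (Nat.card k : ℝ) ^ N :=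
        Real.mul_self_sqrt hP.le
      have hs0 : 0 ≤ √((Nat.card k : ℝ) ^ N) := Real.sqrt_nonneg _
      have h3 : 2 * (C * √((Nat.card k : ℝ) ^ N)) ≤ (Nat.card k : ℝ) ^ N := by
        calc 2 * (C * √((Nat.card k : ℝ) ^ N)) = (2 * C) * √((Nat.card k : ℝ) ^ N) := by ring
          _ ≤ √((Nat.card k : ℝ) ^ N) * √((Nat.card k : ℝ) ^ N) :=
            mul_le_mul_of_nonneg_right hs hs0
          _ = _ := hs2
      have h4 : (Nat.card k : ℝ) ^ N ≤ 2 * ((N : ℝ) * T.card) := by linarith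
      have hNr : (0 : ℝ) < N := by exact_mod_cast hN1
      rw [← div_eq_mul_inv, div_le_div_iff₀ (by positivity) hP]
      linarith
    · exact ⟨∅, by simp, fun h => absurd h hN⟩
  choose T hT1 hT2 using hT
  -- divergence of the harmonic series
  obtain ⟨n, hn⟩ : ∃ n : ℕ, B ≤ ∑ N ∈ Finset.Ico N₁ n, (1 : ℝ) / (2 * (2 * N : ℕ)) := by
    have h1 := Real.tendsto_sum_range_one_div_nat_succ_atTop
    have h2 : Filter.Tendsto (fun n : ℕ => (1 / 4 : ℝ) * ∑ i ∈ Finset.range n, (1 : ℝ) / (i + 1)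
        - (1 / 4 : ℝ) * ∑ i ∈ Finset.range N₁, (1 : ℝ) / (i + 1)) Filter.atTop Filter.atTop :=
      Filter.tendsto_atTop_add_const_right _ _ (h1.const_mul_atTop (by norm_num))
    obtain ⟨n, hn1, hn2⟩ := ((Filter.tendsto_atTop.1 h2 B).and
      (Filter.eventually_ge_atTop N₁)).exists
    refine ⟨n + 1, hn1.trans ?_⟩
    rw [← mul_sub, ← Finset.sum_range_add_sum_Ico (fun i : ℕ => (1 : ℝ) / (i + 1)) hn2,
      add_sub_cancel_left, Finset.mul_sum]
    have h3 : ∑ i ∈ Finset.Ico N₁ n, (1 / 4 : ℝ) * (1 / ((i : ℝ) + 1))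
        = ∑ N ∈ Finset.Ico (N₁ + 1) (n + 1), (1 : ℝ) / (2 * (2 * N : ℕ)) := by
      rw [← Finset.sum_Ico_add' (fun N : ℕ => (1 : ℝ) / (2 * (2 * N : ℕ))) N₁ n 1]
      refine Finset.sum_congr rfl fun i _ => ?_
      push_cast
      rw [div_mul_div_comm, one_mul]
      congr 1
      ring
    rw [h3]
    refine Finset.sum_le_sum_of_subset_of_nonneg ?_ fun i _ _ => by positivity
    exact Finset.Ico_subset_Ico_left (Nat.le_succ _)
  refine ⟨(Finset.Ico N₁ n).biUnion fun N => T (2 * N), ?_, ?_⟩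
  · intro v hv
    rw [Finset.mem_biUnion] at hv
    obtain ⟨N, hN, hvN⟩ := hv
    rw [hT1 (2 * N) v hvN]
    have h1 : m ≤ N := le_trans (le_trans (le_max_right _ _) (le_max_left _ _))
      (Finset.mem_Ico.1 hN).1
    exact ⟨by omega, even_two_mul N⟩
  · rw [Finset.sum_biUnion]
    · refine hn.trans (Finset.sum_le_sum fun N hN => ?_)
      have h1 : ∑ v ∈ T (2 * N), ((Nat.card k : ℝ) ^ v.degree)⁻¹
          = ∑ _v ∈ T (2 * N), ((Nat.card k : ℝ) ^ (2 * N))⁻¹ :=
        Finset.sum_congr rfl fun v hv => by rw [hT1 (2 * N) v hv]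
      rw [h1, Finset.sum_const, nsmul_eq_mul]
      have h2 := (Finset.mem_Ico.1 hN).1
      exact hT2 (2 * N) (by omega)
    · intro N _ N' _ hNN
      rw [Function.onFun, Finset.disjoint_left]
      intro v hv hv'
      have h1 := (hT1 (2 * N) v hv).symm.trans (hT1 (2 * N') v hv')
      exact hNN (by omega)

end Pool.Agent.HA
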