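import Pool.Agent.Lib.HA.Defs
import Pool.Agent.Lib.HA.Low
import Pool.Agent.Lib.HA.DensA
import Pool.Agent.Lib.HA.DensC
import Pool.Agent.Lib.HA.Plc

/-!
HA (all pointed hyperelliptic curves over a global function field, MP_950c68_ag), module GenM.
100 per cent of the shapes are generic. Given `ε`, choose a finite set `S` of places of degree `≥ m₁` (large) such that the product
over `v ∈ S` of `1 - (density of the type)` is `< δ` for each of the types `A, B, C` (density `≥ c`) and `N` (density `≥ c / q_v`, `sum_places`),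
and `∏ q_v⁻¹ < δ` (for the coefficients of weight 2, 3: not zero modulo some `v ∈ S`). `shapes_le` and `sieve` bound the non generic shapes by
`h * 6 δ * B q ^ (wt g (M + d₀))`, `le_shapes` gives `c q ^ (wt g M)` shapes.
-/

set_option autoImplicit false

open Polynomial

namespace Pool.Agent.HA

open Pool.Agent.BSDFF Pool.Agent.GBC Pool.Agent.GBU
open Pool.Agent.SmN.Fnl (Tws)
open IsLocalRing (ResidueField residue)

/-! Counting -/

private theorem GenM_union {α ι : Type*} [Fintype ι] (s : Set α) (t : ι → Set α)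
    (hfin : ∀ i, (t i).Finite) (h : s ⊆ ⋃ i, t i) : s.ncard ≤ ∑ i, (t i).ncard := by
  classical
  calc s.ncard ≤ (↑(Finset.univ.biUnion fun i => (hfin i).toFinset) : Set α).ncard := by
        refine Set.ncard_le_ncard (fun x hx => ?_) (Finset.finite_toSet _)
        obtain ⟨i, hi⟩ := Set.mem_iUnion.1 (h hx)
        rw [Finset.mem_coe, Finset.mem_biUnion]
        exact ⟨i, Finset.mem_univ i, (hfin i).mem_toFinset.2 hi⟩
    _ = (Finset.univ.biUnion fun i => (hfin i).toFinset).card := Set.ncard_coe_finset _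
    _ ≤ ∑ i, (hfin i).toFinset.card := Finset.card_biUnion_le
    _ = ∑ i, (t i).ncard := by
        refine Finset.sum_congr rfl fun i _ => ?_
        rw [Set.ncard_eq_toFinset_card _ (hfin i)]

private theorem GenM_prod {ι : Type*} (S : Finset ι) (f w : ι → ℝ) (c : ℝ)
    (h0 : ∀ i ∈ S, 0 ≤ f i) (h1 : ∀ i ∈ S, f i ≤ 1 - c * w i) :
    ∏ i ∈ S, f i ≤ Real.exp (-(c * ∑ i ∈ S, w i)) := by
  rw [Finset.mul_sum, ← Finset.sum_neg_distrib, Real.exp_sum]
  refine Finset.prod_le_prod h0 fun i hi => (h1 i hi).trans ?_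
  have := Real.add_one_le_exp (-(c * w i))
  linarith

private theorem GenM_zero {F : Type} [Field F] [Finite F] {n : ℕ} (j : Fin n) :
    ({y : Fin n → F | y j = 0}.ncard : ℝ) * Nat.card F = Nat.card (Fin n → F) := by
  have h := card_preimage (Pi.evalAddMonoidHom (fun _ : Fin n => F) j)
    (fun x => ⟨fun _ => x, rfl⟩) Set.univ
  rw [Set.preimage_univ, Nat.card_coe_set_eq, Set.ncard_univ, Nat.card_coe_set_eq,
    Set.ncard_univ] at h
  have h2 : {y : Fin n → F | y j = 0}.ncard =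
      Nat.card (Pi.evalAddMonoidHom (fun _ : Fin n => F) j).ker := by
    rw [← Nat.card_coe_set_eq]
    rfl
  rw [h2, h]
  push_cast
  ring

/-- The complement of a set of density at least `c`. -/
private theorem GenM_compl {R : Type*} [Finite R] [Nonempty R] (Y : Set R) {c : ℝ}
    (h : c * Nat.card R ≤ Y.ncard) : ((Yᶜ).ncard : ℝ) / Nat.card R ≤ 1 - c := by
  have h1 := Set.ncard_add_ncard_compl Y (Set.toFinite _) (Set.toFinite _)
  have h2 : (0 : ℝ) < Nat.card R := by exact_mod_cast Nat.card_pos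
  rw [div_le_iff₀ h2]
  have h3 : (Y.ncard : ℝ) + (Yᶜ).ncard = Nat.card R := by exact_mod_cast h1
  linarith

/-- The bad sets. -/
private def GenM_bad {g : ℕ} {F : Type} [Field F] (i : Fin 6) : Set (Fin (2 * g) → F) :=
  match i with
  | 0 => {y | TypA (pol g y)}ᶜ
  | 1 => {y | TypB (pol g y)}ᶜ
  | 2 => {y | TypC (pol g y)}ᶜ
  | 3 => {y | TypN (pol g y)}ᶜ
  | 4 => {y | ∀ j : Fin (2 * g), (j : ℕ) = 0 → y j = 0}
  | 5 => {y | ∀ j : Fin (2 * g), (j : ℕ) = 1 → y j = 0}

private theorem GenM_dens {g : ℕ} (hg : 1 ≤ g) : ∃ c : ℝ, 0 < c ∧ ∃ Q₀ : ℕ, ∀ (F : Type)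
    [Field F] [Finite F], Q₀ ≤ Nat.card F → ((2 * g + 1).factorial : F) ≠ 0 → ∀ i : Fin 6,
      ((GenM_bad (g := g) (F := F) i).ncard : ℝ) / Nat.card (Fin (2 * g) → F) ≤
        1 - c * (Nat.card F : ℝ)⁻¹ := by
  obtain ⟨cA, hcA, QA, hA⟩ := dens_A hg
  obtain ⟨cB, hcB, QB, hB⟩ := dens_B hg
  obtain ⟨cC, hcC, QC, hC⟩ := dens_C hg
  obtain ⟨cN, hcN, QN, hN⟩ := dens_N hg
  refine ⟨min (min cA cB) (min (min cC cN) 1), by positivity, QA + QB + QC + QN + 2,
    fun F _ _ hQ hp i => ?_⟩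
  set c := min (min cA cB) (min (min cC cN) 1) with hc
  have hc0 : 0 < c := by positivity
  have h1A : c ≤ cA := (min_le_left _ _).trans (min_le_left _ _)
  have h1B : c ≤ cB := (min_le_left _ _).trans (min_le_right _ _)
  have h1C : c ≤ cC := (min_le_right _ _).trans ((min_le_left _ _).trans (min_le_left _ _))
  have h1N : c ≤ cN := (min_le_right _ _).trans ((min_le_left _ _).trans (min_le_right _ _))
  have h11 : c ≤ 1 := (min_le_right _ _).trans (min_le_right _ _)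
  have hcard : (Nat.card (Fin (2 * g) → F) : ℝ) = (Nat.card F : ℝ) ^ (2 * g) := by
    rw [Nat.card_fun, Nat.card_fin]
    push_cast
    rfl
  have hF2 : (2 : ℝ) ≤ Nat.card F := by
    have : 2 ≤ Nat.card F := le_trans (by omega) hQ
    exact_mod_cast this
  have hF0 : (0 : ℝ) < Nat.card F := by linarith
  have hFi : (Nat.card F : ℝ)⁻¹ ≤ 1 := inv_le_one_of_one_le₀ (by linarith)
  have hFi0 : 0 < (Nat.card F : ℝ)⁻¹ := inv_pos.2 hF0
  have hpow : (0 : ℝ) < (Nat.card F : ℝ) ^ (2 * g) := pow_pos hF0 _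
  have hdvd : ∀ n : ℕ, 0 < n → n ≤ 2 * g + 1 → (n : F) ≠ 0 := fun n hn hn' h => by
    obtain ⟨r, hr⟩ := Nat.dvd_factorial hn hn'
    apply hp
    rw [hr, Nat.cast_mul, h, zero_mul]
  have h2 : (2 : F) ≠ 0 := by
    have := hdvd 2 (by omega) (by omega)
    exact_mod_cast this
  have h3 : (3 : F) ≠ 0 := by
    have := hdvd 3 (by omega) (by omega)
    exact_mod_cast this
  -- the three types of positive density
  have key : ∀ (Y : Set (Fin (2 * g) → F)) (d : ℝ), c ≤ d →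
      d * (Nat.card F : ℝ) ^ (2 * g) ≤ Y.ncard →
      ((Yᶜ).ncard : ℝ) / Nat.card (Fin (2 * g) → F) ≤ 1 - c * (Nat.card F : ℝ)⁻¹ := by
    intro Y d hd hY
    apply GenM_compl
    rw [hcard]
    refine le_trans ?_ hY
    apply mul_le_mul_of_nonneg_right _ hpow.le
    calc c * (Nat.card F : ℝ)⁻¹ ≤ c * 1 := mul_le_mul_of_nonneg_left hFi hc0.le
      _ ≤ d := by linarith
  have keyz : ∀ j₀ : Fin (2 * g),
      ({y : Fin (2 * g) → F | ∀ j : Fin (2 * g), (j : ℕ) = j₀ → y j = 0}.ncard : ℝ) /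
        Nat.card (Fin (2 * g) → F) ≤ 1 - c * (Nat.card F : ℝ)⁻¹ := by
    intro j₀
    have e : {y : Fin (2 * g) → F | ∀ j : Fin (2 * g), (j : ℕ) = j₀ → y j = 0} =
        {y | y j₀ = 0} := by
      ext y
      constructor
      · intro h
        exact h j₀ rfl
      · intro h j hj
        rw [Fin.ext hj]
        exact h
    have h := GenM_zero (F := F) j₀
    rw [e, div_le_iff₀ (by rw [hcard]; exact hpow), ← h]
    have h0 : (0 : ℝ) ≤ {y : Fin (2 * g) → F | y j₀ = 0}.ncard := Nat.cast_nonneg _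
    have h5 : (1 : ℝ) ≤ (1 - c * (Nat.card F : ℝ)⁻¹) * Nat.card F := by
      rw [sub_mul, mul_assoc, inv_mul_cancel₀ hF0.ne']
      linarith
    nlinarith
  fin_cases i
  · exact key _ cA h1A (hA F (by omega) (by exact_mod_cast hdvd (2 * g + 1) (by omega) le_rfl))
  · exact key _ cB h1B (hB F (by omega))
  · exact key _ cC h1C (hC F (by omega) h2)
  · apply GenM_compl
    rw [hcard]
    refine le_trans ?_ (hN F (by omega) h2 h3)
    have e : (Nat.card F : ℝ) ^ (2 * g) = (Nat.card F : ℝ) ^ (2 * g - 1) * Nat.card F := by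
      rw [← pow_succ]
      congr 1
      omega
    rw [e]
    have h6 : c * (Nat.card F : ℝ)⁻¹ * ((Nat.card F : ℝ) ^ (2 * g - 1) * Nat.card F) =
        c * (Nat.card F : ℝ) ^ (2 * g - 1) := by
      field_simp
    rw [h6]
    exact mul_le_mul_of_nonneg_right h1N (pow_nonneg hF0.le _)
  · exact keyz ⟨0, by omega⟩
  · exact keyz ⟨1, by omega⟩

variable {k K : Type} [Field k] [Field K] [Algebra k K]
variable [Finite k] [Algebra (RatFunc k) K] [IsScalarTower k (RatFunc k) K]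
  [FiniteDimensional (RatFunc k) K] [Algebra.IsSeparable (RatFunc k) K]

omit [Algebra (RatFunc k) K] [IsScalarTower k (RatFunc k) K] [FiniteDimensional (RatFunc k) K]
  [Algebra.IsSeparable (RatFunc k) K] [Finite k] in
private theorem GenM_sc {g : ℕ} {m : ℕ} {u : K} {a : Fin (2 * g) → K} (hu : u ≠ 0)
    (h : ¬ GenS k m a) : ¬ GenS k m (sc u a) := by
  intro h1
  apply h
  obtain ⟨hne, w, hw, hA, hB, hC, hN⟩ := h1
  refine ⟨fun j hj h0 => hne j hj ?_, w * u, mul_ne_zero hw hu, ?_⟩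
  · rw [sc, h0, mul_zero]
  · rw [sc_sc] at hA hB hC hN
    exact ⟨hA, hB, hC, hN⟩

omit [Algebra (RatFunc k) K] [IsScalarTower k (RatFunc k) K] [FiniteDimensional (RatFunc k) K]
  [Algebra.IsSeparable (RatFunc k) K] [Finite k] in
/-- A vector of the box which is not generic is bad at all places of `S`. -/
private theorem GenM_all {g : ℕ} {m : ℕ} {S : Finset (Place k K)}
    (hS : ∀ v ∈ S, m ≤ v.degree ∧ Even v.degree)
    {D : Place k K →₀ ℤ} (hD : ∀ v ∈ S, D v = 0) {a : Fin (2 * g) → K} (ha : a ∈ Box g D)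
    (h : ¬ GenS k m a) : ∃ i : Fin 6, ∀ v ∈ S, redV v a ∈ GenM_bad i := by
  by_contra hcon
  push Not at hcon
  apply h
  have hint : ∀ v ∈ S, IntV v a := fun v hv => intV_of_mem_Box ha (hD v hv)
  constructor
  · intro j hj h0
    rcases (by omega : (j : ℕ) = 0 ∨ (j : ℕ) = 1) with hj | hj
    · obtain ⟨v, hv, hv'⟩ := hcon 4
      apply hv'
      intro j' hj'
      rw [Fin.ext (hj'.trans hj.symm)]
      change red v (a j) = 0
      rw [h0, red_zero]
    · obtain ⟨v, hv, hv'⟩ := hcon 5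
      apply hv'
      intro j' hj'
      rw [Fin.ext (hj'.trans hj.symm)]
      change red v (a j) = 0
      rw [h0, red_zero]
  · refine ⟨1, one_ne_zero, ?_⟩
    rw [sc_one]
    obtain ⟨v0, hv0, h0⟩ := hcon 0
    obtain ⟨v1, hv1, h1⟩ := hcon 1
    obtain ⟨v2, hv2, h2⟩ := hcon 2
    obtain ⟨v3, hv3, h3⟩ := hcon 3
    exact ⟨⟨v0, hint v0 hv0, Classical.not_not.1 h0⟩, ⟨v1, hint v1 hv1, Classical.not_not.1 h1⟩,
      ⟨v2, (hS v2 hv2).2, hint v2 hv2, Classical.not_not.1 h2⟩,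
      ⟨v3, (hS v3 hv3).1, hint v3 hv3, Classical.not_not.1 h3⟩⟩

omit [Algebra (RatFunc k) K] [IsScalarTower k (RatFunc k) K] [FiniteDimensional (RatFunc k) K]
  [Algebra.IsSeparable (RatFunc k) K] [Finite k] in
private theorem GenM_fac {n : ℕ} (hp : (n.factorial : k) ≠ 0) (v : Place k K) :
    (n.factorial : ResidueField v.ring) ≠ 0 := by
  rw [← map_natCast v.constMap]
  exact fun h => hp ((map_eq_zero _).1 h)

/-- A place with irreducible reductions. -/
private theorem GenM_low (hk : ∀ x : K, IsIntegral k x → ∃ c : k, algebraMap k K c = x) {g : ℕ}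
    (hg : 1 ≤ g) (hp : ((2 * g + 1).factorial : k) ≠ 0) : ∃ c : ℝ, 0 < c ∧ ∃ M₀ : ℕ, ∀ M ≥ M₀,
      c * (Nat.card k : ℝ) ^ (wt g * M) ≤ (Shapes k K g M fun _ => True).ncard := by
  obtain ⟨G, _⟩ := exists_geo k K
  obtain ⟨cA, hcA, QA, hA⟩ := dens_A hg
  obtain ⟨S, hS, hS1⟩ := sum_places (k := k) (K := K) hk QA 1
  have hne : S.Nonempty := by
    rw [Finset.nonempty_iff_ne_empty]
    rintro rfl
    rw [Finset.sum_empty] at hS1
    linarith
  obtain ⟨v₀, hv₀⟩ := hne
  have hfin : Finite (ResidueField v₀.ring) := finite_res G v₀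
  have hk2 : 1 < Nat.card k := Finite.one_lt_card
  have hQ : QA ≤ Nat.card (ResidueField v₀.ring) := by
    rw [card_residue v₀]
    exact (hS v₀ hv₀).1.trans (Nat.lt_pow_self hk2).le
  refine le_shapes G hg hp (v₀ := v₀) hcA ?_
  have hcard : (Nat.card (Fin (2 * g) → ResidueField v₀.ring) : ℝ) =
      (Nat.card (ResidueField v₀.ring) : ℝ) ^ (2 * g) := by
    rw [Nat.card_fun, Nat.card_fin]
    push_cast
    rfl
  rw [hcard]
  refine hA _ hQ ?_
  have hf := GenM_fac hp v₀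
  intro h
  apply hf
  rw [Nat.factorial_succ, Nat.cast_mul, h, zero_mul]

omit [Algebra (RatFunc k) K] [IsScalarTower k (RatFunc k) K] [FiniteDimensional (RatFunc k) K]
  [Algebra.IsSeparable (RatFunc k) K] in
/-- The vectors of a box which are not generic. -/
private theorem GenM_box (G : Geo k K) {g : ℕ} (m : ℕ) {S : Finset (Place k K)}
    (hS : ∀ v ∈ S, m ≤ v.degree ∧ Even v.degree) {c : ℝ}
    (hb : ∀ v ∈ S, ∀ i : Fin 6, ((GenM_bad (g := g) (F := ResidueField v.ring) i).ncard : ℝ) /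
      Nat.card (Fin (2 * g) → ResidueField v.ring) ≤ 1 - c * ((Nat.card k : ℝ) ^ v.degree)⁻¹) :
    ∃ C : ℤ, ∀ D : Place k K →₀ ℤ, (∀ v ∈ S, D v = 0) → C ≤ degD D →
      ({a : Fin (2 * g) → K | a ∈ Box g D ∧ (pol g a).Separable ∧ ¬ GenS k m a}.ncard : ℝ) ≤
        6 * (Nat.card (Box g D) *
          Real.exp (-(c * ∑ v ∈ S, ((Nat.card k : ℝ) ^ v.degree)⁻¹))) := by
  obtain ⟨C, hC⟩ := sieve G g S
  refine ⟨C, fun D hD hdeg => ?_⟩
  have hfB : (Box g D : Set (Fin (2 * g) → K)).Finite := by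
    have := finite_Box G g D
    exact Set.toFinite _
  set t : Fin 6 → Set (Fin (2 * g) → K) := fun i =>
    {a | a ∈ Box g D ∧ ∀ v ∈ S, redV v a ∈ GenM_bad i} with ht
  have h1 := GenM_union {a : Fin (2 * g) → K | a ∈ Box g D ∧ (pol g a).Separable ∧ ¬ GenS k m a} t
    (fun i => hfB.subset fun a ha => ha.1) (fun a ha => by
      obtain ⟨i, hi⟩ := GenM_all hS hD ha.1 ha.2.2
      exact Set.mem_iUnion.2 ⟨i, ha.1, hi⟩)
  have h2 : ∀ i, ((t i).ncard : ℝ) ≤ Nat.card (Box g D) *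
      Real.exp (-(c * ∑ v ∈ S, ((Nat.card k : ℝ) ^ v.degree)⁻¹)) := by
    intro i
    have h3 := hC D hD hdeg fun v => GenM_bad i
    rw [ht]
    rw [h3]
    refine mul_le_mul_of_nonneg_left ?_ (Nat.cast_nonneg _)
    exact GenM_prod S _ _ c (fun v _ => by positivity) fun v hv => hb v hv i
  calc ({a : Fin (2 * g) → K | a ∈ Box g D ∧ (pol g a).Separable ∧ ¬ GenS k m a}.ncard : ℝ)
      ≤ ((∑ i, (t i).ncard : ℕ) : ℝ) := by exact_mod_cast h1
    _ = ∑ i, ((t i).ncard : ℝ) := by push_cast; rfl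
    _ ≤ ∑ _i : Fin 6, (Nat.card (Box g D) *
          Real.exp (-(c * ∑ v ∈ S, ((Nat.card k : ℝ) ^ v.degree)⁻¹)) : ℝ) :=
        Finset.sum_le_sum fun i _ => h2 i
    _ = _ := by
        rw [Finset.sum_const, Finset.card_univ, Fintype.card_fin, nsmul_eq_mul]
        norm_num

theorem most_gen (hk : ∀ x : K, IsIntegral k x → ∃ c : k, algebraMap k K c = x) {g : ℕ}
    (hg : 1 ≤ g) (hp : ((2 * g + 1).factorial : k) ≠ 0) (m : ℕ) (ε : ℝ) (hε : 0 < ε) :
    ∃ M₀ : ℕ, ∀ M ≥ M₀, ((Shapes k K g M fun a => ¬ GenS k m a).ncard : ℝ) ≤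
      ε * (Shapes k K g M fun _ => True).ncard := by
  obtain ⟨G, _⟩ := exists_geo k K
  obtain ⟨cL, hcL, ML, hL⟩ := GenM_low (k := k) (K := K) hk hg hp
  obtain ⟨c, hc, Q, hQ⟩ := GenM_dens hg
  obtain ⟨h, d₀, hU⟩ := shapes_le G hg
  obtain ⟨Bb, hBb⟩ := card_Box_le G g
  have hk2 : 1 < Nat.card k := Finite.one_lt_card
  have hq : (1 : ℝ) < Nat.card k := by exact_mod_cast hk2
  have hq0 : (0 : ℝ) < Nat.card k := by linarith
  set q : ℝ := (Nat.card k : ℝ) with hqdef
  -- the constant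
  set A : ℝ := (h + 1) * (6 * ((Bb + 1) * q ^ (wt g * d₀))) with hA
  have hA0 : 0 < A := by positivity
  set δ : ℝ := ε * cL / A with hδ
  have hδ0 : 0 < δ := by positivity
  obtain ⟨S, hS, hSB⟩ := sum_places (k := k) (K := K) hk (m + Q) (-Real.log δ / c)
  have hexp : Real.exp (-(c * ∑ v ∈ S, (q ^ v.degree)⁻¹)) ≤ δ := by
    rw [← Real.le_log_iff_exp_le hδ0]
    rw [div_le_iff₀ hc] at hSB
    linarith
  have hfin : ∀ v : Place k K, Finite (ResidueField v.ring) := fun v => finite_res G v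
  obtain ⟨C, hC⟩ := GenM_box G (g := g) m (S := S)
    (fun v hv => ⟨(by omega : m ≤ m + Q).trans (hS v hv).1, (hS v hv).2⟩)
    (c := c) (fun v hv i => by
      have := hfin v
      have h1 := hQ (ResidueField v.ring) (by
        rw [card_residue v]
        exact ((by omega : Q ≤ m + Q).trans (hS v hv).1).trans (Nat.lt_pow_self hk2).le)
        (GenM_fac hp v) i
      rw [card_residue v] at h1
      push_cast at h1
      exact h1)
  refine ⟨max ML C.toNat, fun M hM => ?_⟩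
  have hM1 : ML ≤ M := (le_max_left _ _).trans hM
  have hM2 : C ≤ M := by
    have := (le_max_right _ _).trans hM
    omega
  obtain ⟨R, hRc, hRD, hR⟩ := hU S M
  obtain ⟨-, hR2⟩ := hR (fun a => ¬ GenS k m a) fun u a hu ha => GenM_sc hu ha
  have hbox : ∀ D ∈ R,
      ({a : Fin (2 * g) → K | a ∈ Box g D ∧ (pol g a).Separable ∧ ¬ GenS k m a}.ncard : ℝ) ≤
        6 * ((Bb + 1) * q ^ (wt g * (M + d₀)) * δ) := by
    intro D hD
    obtain ⟨hD0, hD1, hD2⟩ := hRD D hD
    refine (hC D hD0 (hM2.trans hD1)).trans ?_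
    refine mul_le_mul_of_nonneg_left ?_ (by norm_num)
    refine mul_le_mul ?_ hexp (Real.exp_pos _).le (by positivity)
    have h1 := hBb D (le_trans (by positivity) hD1)
    have h2 : (Nat.card (Box g D) : ℝ) ≤ Bb * q ^ (wt g * (degD D).toNat) := by
      rw [hqdef]
      exact_mod_cast h1
    refine h2.trans ?_
    refine mul_le_mul (by linarith) ?_ (by positivity) (by positivity)
    refine pow_le_pow_right₀ hq.le (Nat.mul_le_mul_left _ ?_)
    omega
  calc ((Shapes k K g M fun a => ¬ GenS k m a).ncard : ℝ)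
      ≤ ((∑ D ∈ R, {a : Fin (2 * g) → K | a ∈ Box g D ∧ (pol g a).Separable ∧
          ¬ GenS k m a}.ncard : ℕ) : ℝ) := by exact_mod_cast hR2
    _ = ∑ D ∈ R, ({a : Fin (2 * g) → K | a ∈ Box g D ∧ (pol g a).Separable ∧
          ¬ GenS k m a}.ncard : ℝ) := by push_cast; rfl
    _ ≤ ∑ _D ∈ R, 6 * ((Bb + 1) * q ^ (wt g * (M + d₀)) * δ) := Finset.sum_le_sum hbox
    _ = R.card * (6 * ((Bb + 1) * q ^ (wt g * (M + d₀)) * δ)) := by
        rw [Finset.sum_const, nsmul_eq_mul]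
    _ ≤ (h + 1) * (6 * ((Bb + 1) * q ^ (wt g * (M + d₀)) * δ)) := by
        refine mul_le_mul_of_nonneg_right ?_ (by positivity)
        have : (R.card : ℝ) ≤ h := by exact_mod_cast hRc
        linarith
    _ = A * δ * q ^ (wt g * M) := by
        rw [hA, Nat.mul_add, pow_add]
        ring
    _ = ε * (cL * q ^ (wt g * M)) := by
        rw [hδ, mul_div_cancel₀ _ hA0.ne']
        ring
    _ ≤ ε * (Shapes k K g M fun _ => True).ncard :=
        mul_le_mul_of_nonneg_left (hL M hM1) hε.le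

theorem finite_shapes {g : ℕ} (hg : 1 ≤ g) (M : ℕ) :
    (Shapes k K g M fun _ => True).Finite := by
  obtain ⟨G, _⟩ := exists_geo k K
  obtain ⟨h, d₀, hU⟩ := shapes_le G hg
  obtain ⟨R, -, -, hR⟩ := hU ∅ M
  exact (hR (fun _ => True) fun _ _ _ _ => trivial).1

theorem pos_shapes (hk : ∀ x : K, IsIntegral k x → ∃ c : k, algebraMap k K c = x) {g : ℕ}
    (hg : 1 ≤ g) (hp : ((2 * g + 1).factorial : k) ≠ 0) :
    ∃ M₁ : ℕ, ∀ M ≥ M₁, 0 < (Shapes k K g M fun _ => True).ncard := by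
  obtain ⟨c, hc, M₀, h⟩ := GenM_low (k := k) (K := K) hk hg hp
  refine ⟨M₀, fun M hM => ?_⟩
  have h1 := h M hM
  have hk0 : 0 < Nat.card k := Nat.card_pos
  have h2 : (0 : ℝ) < c * (Nat.card k : ℝ) ^ (wt g * M) := by positivity
  exact_mod_cast h2.trans_le h1

end Pool.Agent.HA
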