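import Pool.Agent.Lib.HA.Defs
import Pool.Agent.Lib.HA.FixP
import Pool.Agent.Lib.HA.Dec
import Pool.Agent.Lib.HA.Cnt
import Pool.Agent.Lib.HA.GenM
import Pool.Agent.Lib.HA.MdX

/-!
HA (all pointed hyperelliptic curves over a global function field, MP_950c68_ag), module Fin.
The final theorem (assembly, helper92).
-/

set_option autoImplicit false

open Polynomial

namespace Pool.Agent.HA

open Pool.Agent.BSDFF Pool.Agent.GBC Pool.Agent.GBU
open Pool.Agent.SmN.Fnl (Tws)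
open IsLocalRing (ResidueField residue)

section mono

variable {k K : Type} [Field k] [Field K] [Algebra k K]

theorem TwO_mono {O : Set (Place k K)} {N : ℕ} {P Q : K → Prop} (h : ∀ d : K, P d → Q d) :
    TwO k O N P ⊆ TwO k O N Q := by
  rintro c ⟨d, h1, h2, h3⟩
  exact ⟨d, h1, h2, h _ h3⟩

end mono

section rep

variable {k K : Type} [Field k] [Field K] [Algebra k K] {g : ℕ}

/-- The properties of the chosen representatives of the generic shapes. -/
structure GenR (k : Type) {K : Type} [Field k] [Field K] [Algebra k K] {g : ℕ} (m : ℕ)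
    (b : Fin (2 * g) → K) : Prop where
  ne : ∀ j : Fin (2 * g), (j : ℕ) ≤ 1 → b j ≠ 0
  A : ∃ v : Place k K, At v TypA b
  B : ∃ v : Place k K, At v TypB b
  C : ∃ v : Place k K, Even v.degree ∧ At v TypC b
  N : ∃ v : Place k K, m ≤ v.degree ∧ At v TypN b

theorem GenR.zero {m : ℕ} {b : Fin (2 * g) → K} (h : GenR k m b) : GenR k 0 b :=
  ⟨h.ne, h.A, h.B, h.C, h.N.imp fun _ h => ⟨Nat.zero_le _, h.2⟩⟩

theorem exists_rep (m M : ℕ) : ∃ r : Shp K g → Fin (2 * g) → K,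
    (∀ z, Quotient.mk (scRel K g) (r z) = z) ∧
    (∀ z, (z ∈ Shapes k K g M fun _ => True) → (pol g (r z)).Separable) ∧
    ∀ z, (z ∈ Shapes k K g M fun _ => True) → (z ∉ Shapes k K g M fun a => ¬ GenS k m a) →
      GenR k m (r z) := by
  classical
  have h1 : ∀ z : Shp K g, ∃ b : Fin (2 * g) → K, Quotient.mk (scRel K g) b = z ∧
      ((z ∈ Shapes k K g M fun _ => True) → (z ∉ Shapes k K g M fun a => ¬ GenS k m a) →
        GenR k m b) := by
    intro z
    by_cases hz : (z ∈ Shapes k K g M fun _ => True) ∧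
        (z ∉ Shapes k K g M fun a => ¬ GenS k m a)
    · obtain ⟨⟨a, ha, hs, hh, -⟩, h3⟩ := hz
      have h4 : GenS k m a := by
        by_contra h5
        exact h3 ⟨a, ha, hs, hh, h5⟩
      obtain ⟨hne, u, hu, hA, hB, hC, hN⟩ := h4
      refine ⟨sc u a, ?_, fun _ _ => ⟨fun j hj => mul_ne_zero (pow_ne_zero _ hu) (hne j hj),
        hA, hB, hC, hN⟩⟩
      rw [← ha]
      exact (Quotient.sound (s := scRel K g) (a := a) (b := sc u a) ⟨u, hu, rfl⟩).symm
    · obtain ⟨b, hb⟩ := Quotient.exists_rep z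
      exact ⟨b, hb, fun h4 h5 => absurd ⟨h4, h5⟩ hz⟩
  choose r hr hr' using h1
  refine ⟨r, hr, fun z hz => ?_, hr'⟩
  obtain ⟨a, ha, hs, -, -⟩ := hz
  obtain ⟨u, hu, h2⟩ := Quotient.exact (ha.trans (hr z).symm)
  rw [h2]
  exact sep_sc hs hu

end rep

section num

private theorem num_good {F A B FG TG ε : ℝ} (hA : A ≤ F) (hB : B ≤ ε / 4 * A) (hε : 0 < ε)
    (h1 : FG ≤ TG + B) (h2 : TG ≤ ε / 4 * A) (hA0 : 0 ≤ A) : FG ≤ ε * F := by
  have h3 : ε / 4 * A ≤ ε / 4 * F := mul_le_mul_of_nonneg_left hA (by linarith)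
  have h4 : 0 ≤ ε * F := mul_nonneg hε.le (hA0.trans hA)
  linarith

private theorem num_half {F A B FZ TZ ε : ℝ} (hA : A ≤ F) (hAB : F ≤ A + B)
    (hB : B ≤ ε / 4 * A) (hε : 0 < ε) (hA0 : 0 ≤ A) (h1 : FZ ≤ TZ + B) (h2 : TZ ≤ FZ)
    (h3 : TZ ≤ A / 2 + ε / 2 * A) (h4 : A / 2 - ε / 2 * A ≤ TZ) : |FZ - F / 2| ≤ ε * F := by
  have h5 : ε / 4 * A ≤ ε / 4 * F := mul_le_mul_of_nonneg_left hA (by linarith)
  have h6 : 0 ≤ ε * F := mul_nonneg hε.le (hA0.trans hA)
  rw [abs_le]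
  constructor <;> linarith

private theorem num_z {T All Ev Od E ε : ℝ} (h1 : E ≤ T) (h2 : T ≤ E + Od) (h3 : Ev ≤ All)
    (h4 : All ≤ Ev + Od) (h5 : |E - Ev / 2| ≤ ε / 4 * All) (h6 : Od ≤ ε / 4 * All) :
    T ≤ All / 2 + ε / 2 * All ∧ All / 2 - ε / 2 * All ≤ T := by
  rw [abs_le] at h5
  constructor
  · linarith [h5.2]
  · linarith [h5.1]

end num

variable {k K : Type} [Field k] [Field K] [Algebra k K]
variable [Finite k] [Algebra (RatFunc k) K] [IsScalarTower k (RatFunc k) K]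
  [FiniteDimensional (RatFunc k) K] [Algebra.IsSeparable (RatFunc k) K]

variable {g : ℕ}

/-- The estimates for one generic shape. -/
private theorem one_shape (hk : ∀ x : K, IsIntegral k x → ∃ c : k, algebraMap k K c = x)
    (hg : 1 ≤ g) (hp : ((2 * g + 1).factorial : k) ≠ 0) {c C : ℝ} (m : ℕ)
    {ε : ℝ} (hε : 0 < ε) (hm : C ≤ ε / 4 * c * (Nat.card k : ℝ) ^ m)
    (hb : ∀ O : Set (Place k K), O.Finite → ∃ N₀ : ℕ, ∀ N ≥ N₀,
      c * (Nat.card k : ℝ) ^ N ≤ (TwO k O N fun _ => True).ncard ∧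
      ((TwO k O N fun _ => True).ncard : ℝ) ≤ C * (Nat.card k : ℝ) ^ N ∧
      ∀ v ∉ O, ((TwO k O N fun d => ¬ Even (ord v d)).ncard : ℝ) * (Nat.card k : ℝ) ^ v.degree ≤
        C * (Nat.card k : ℝ) ^ N) {b : Fin (2 * g) → K} (hs : (pol g b).Separable)
    (hgen : GenR k m b) {Good : ℕ → (Fin (2 * g) → K) → Prop}
    (hgood : ∀ ε : ℝ, 0 < ε → ∃ j₀ : ℕ, ∀ j ≥ j₀, ∃ N₀ : ℕ, ∀ N ≥ N₀,
      ((TwO k (Od k b) N fun d => ¬ Good j (sc d b)).ncard : ℝ) ≤
        ε * (TwO k (Od k b) N fun _ => True).ncard) :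
    ∃ j₀ : ℕ, ∀ j ≥ j₀, ∃ N₀ : ℕ, ∀ N ≥ N₀,
      ((TwO k (Od k b) N fun d => ¬ Good j (sc d b)).ncard : ℝ) ≤
        ε / 4 * (TwO k (Od k b) N fun _ => True).ncard ∧
      (((TwO k (Od k b) N fun d => ZeroF k (pol g (sc d b))).ncard : ℝ) ≤
        ((TwO k (Od k b) N fun _ => True).ncard : ℝ) / 2 +
          ε / 2 * (TwO k (Od k b) N fun _ => True).ncard ∧
        ((TwO k (Od k b) N fun _ => True).ncard : ℝ) / 2 -
          ε / 2 * (TwO k (Od k b) N fun _ => True).ncard ≤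
            (TwO k (Od k b) N fun d => ZeroF k (pol g (sc d b))).ncard) ∧
      (((TwO k (Od k b) N fun d => OneF k (pol g (sc d b))).ncard : ℝ) ≤
        ((TwO k (Od k b) N fun _ => True).ncard : ℝ) / 2 +
          ε / 2 * (TwO k (Od k b) N fun _ => True).ncard ∧
        ((TwO k (Od k b) N fun _ => True).ncard : ℝ) / 2 -
          ε / 2 * (TwO k (Od k b) N fun _ => True).ncard ≤
            (TwO k (Od k b) N fun d => OneF k (pol g (sc d b))).ncard) := by
  classical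
  obtain ⟨G, -⟩ := exists_geo k K
  obtain ⟨v, hv, hN⟩ := hgen.N
  obtain ⟨hb0, hmd⟩ := md_eq_zero_N hN
  have hO : (Od k b).Finite := Od_finite G hb0
  have hC' : ∃ v : Place k K, At v TypC b := hgen.C.imp fun _ h => h.2
  have hvO : v ∉ Od k b := by
    intro h
    apply h
    rw [hmd]
    exact Even.zero
  obtain ⟨j₀, h1⟩ := hgood (ε / 4) (by linarith)
  obtain ⟨N₁, h2⟩ := fix_half hk hg hp hs hgen.A hgen.B hC' hN hO hvO (ε / 4) (by linarith)
  obtain ⟨N₂, h3⟩ := hb _ hO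
  refine ⟨j₀, fun j hj => ?_⟩
  obtain ⟨N₃, h4⟩ := h1 j hj
  refine ⟨max N₁ (max N₂ N₃), fun N hN' => ?_⟩
  have hN1 : N₁ ≤ N := (le_max_left _ _).trans hN'
  have hN2 : N₂ ≤ N := ((le_max_left _ _).trans (le_max_right _ _)).trans hN'
  have hN3 : N₃ ≤ N := ((le_max_right _ _).trans (le_max_right _ _)).trans hN'
  obtain ⟨h5, h6⟩ := h2 N hN1
  obtain ⟨h7, -, h8⟩ := h3 N hN2
  have hfin : (TwO k (Od k b) N fun _ => True).Finite := finite_TwO hO N
  have hle : ∀ P Q : K → Prop, (∀ d, P d → Q d) →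
      ((TwO k (Od k b) N P).ncard : ℝ) ≤ (TwO k (Od k b) N Q).ncard := by
    intro P Q hPQ
    have := Set.ncard_le_ncard (TwO_mono (O := Od k b) (N := N) hPQ)
      (hfin.subset (TwO_mono fun _ _ => trivial))
    exact_mod_cast this
  have hun : ∀ P : K → Prop, ((TwO k (Od k b) N P).ncard : ℝ) ≤
      (TwO k (Od k b) N fun d => Even (ord v d) ∧ P d).ncard +
        (TwO k (Od k b) N fun d => ¬ Even (ord v d)).ncard := by
    intro P
    have h9 : TwO k (Od k b) N P ⊆ (TwO k (Od k b) N fun d => Even (ord v d) ∧ P d) ∪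
        TwO k (Od k b) N fun d => ¬ Even (ord v d) := by
      rintro x ⟨d, hd1, hd2, hd3⟩
      by_cases he : Even (ord v (d : K))
      · exact Or.inl ⟨d, hd1, hd2, he, hd3⟩
      · exact Or.inr ⟨d, hd1, hd2, he⟩
    have h10 := (Set.ncard_le_ncard h9 ((hfin.subset (TwO_mono fun _ _ => trivial)).union
      (hfin.subset (TwO_mono fun _ _ => trivial)))).trans (Set.ncard_union_le _ _)
    exact_mod_cast h10
  have hodd : ((TwO k (Od k b) N fun d => ¬ Even (ord v d)).ncard : ℝ) ≤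
      ε / 4 * (TwO k (Od k b) N fun _ => True).ncard := by
    have hq : (1 : ℝ) ≤ Nat.card k := by
      have : 0 < Nat.card k := Nat.card_pos
      exact_mod_cast this
    have hqv : (Nat.card k : ℝ) ^ m ≤ (Nat.card k : ℝ) ^ v.degree := pow_le_pow_right₀ hq hv
    have hqm : 0 < (Nat.card k : ℝ) ^ m := by positivity
    have h9 : ((TwO k (Od k b) N fun d => ¬ Even (ord v d)).ncard : ℝ) * (Nat.card k : ℝ) ^ m ≤
        (ε / 4 * (TwO k (Od k b) N fun _ => True).ncard) * (Nat.card k : ℝ) ^ m := by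
      calc ((TwO k (Od k b) N fun d => ¬ Even (ord v d)).ncard : ℝ) * (Nat.card k : ℝ) ^ m
          ≤ ((TwO k (Od k b) N fun d => ¬ Even (ord v d)).ncard : ℝ) *
            (Nat.card k : ℝ) ^ v.degree := mul_le_mul_of_nonneg_left hqv (Nat.cast_nonneg _)
        _ ≤ C * (Nat.card k : ℝ) ^ N := h8 v hvO
        _ ≤ ε / 4 * c * (Nat.card k : ℝ) ^ m * (Nat.card k : ℝ) ^ N :=
            mul_le_mul_of_nonneg_right hm (by positivity)
        _ = ε / 4 * (Nat.card k : ℝ) ^ m * (c * (Nat.card k : ℝ) ^ N) := by ring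
        _ ≤ ε / 4 * (Nat.card k : ℝ) ^ m * ((TwO k (Od k b) N fun _ => True).ncard : ℝ) :=
            mul_le_mul_of_nonneg_left h7 (by positivity)
        _ = _ := by ring
    exact le_of_mul_le_mul_right h9 hqm
  have hall : ((TwO k (Od k b) N fun _ => True).ncard : ℝ) ≤
      (TwO k (Od k b) N fun d => Even (ord v d)).ncard +
        (TwO k (Od k b) N fun d => ¬ Even (ord v d)).ncard := by
    have h9 := hun fun _ => True
    have h10 := hle (fun d => Even (ord v d) ∧ True) (fun d => Even (ord v d)) fun _ h => h.1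
    linarith
  refine ⟨h4 N hN3, ?_, ?_⟩
  · exact num_z (hle _ _ fun _ h => h.2) (hun _) (hle _ _ fun _ _ => trivial) hall h5 hodd
  · exact num_z (hle _ _ fun _ h => h.2) (hun _) (hle _ _ fun _ _ => trivial) hall h6 hodd

/-- The reduction to the finitely many generic shapes. -/
theorem fam_frame (hk : ∀ x : K, IsIntegral k x → ∃ c : k, algebraMap k K c = x) (hg : 1 ≤ g)
    (hp : ((2 * g + 1).factorial : k) ≠ 0) (m : ℕ) {ε : ℝ} (hε : 0 < ε) :
    ∃ M₀ : ℕ, ∀ M ≥ M₀, ∃ (Z : Finset (Shp K g)) (r : Shp K g → Fin (2 * g) → K),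
      (∀ z ∈ Z, (pol g (r z)).Separable ∧ GenR k m (r z)) ∧ ∃ N₀ : ℕ, ∀ N ≥ N₀, ∃ B : ℝ,
        0 < ∑ z ∈ Z, ((TwO k (Od k (r z)) N fun _ => True).ncard : ℝ) ∧
        B ≤ ε / 4 * ∑ z ∈ Z, ((TwO k (Od k (r z)) N fun _ => True).ncard : ℝ) ∧
        ∀ P : (Fin (2 * g) → K) → Prop,
          ((Fam k K g M N P).ncard : ℝ) ≤
            ∑ z ∈ Z, ((TwO k (Od k (r z)) N fun d => P (sc d (r z))).ncard : ℝ) + B ∧
          ∑ z ∈ Z, ((TwO k (Od k (r z)) N fun d => P (sc d (r z))).ncard : ℝ) ≤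
            (Fam k K g M N P).ncard := by
  classical
  obtain ⟨G, -⟩ := exists_geo k K
  have hT : ∀ (N : ℕ) (O : Set (Place k K)), O.Finite → (TwO k O N fun _ => True).Finite :=
    fun N O hO => finite_TwO hO N
  have h2 : (2 : k) ≠ 0 := by
    intro h
    apply hp
    have h3 : 2 ∣ (2 * g + 1).factorial := Nat.dvd_factorial (by norm_num) (by omega)
    obtain ⟨t, ht⟩ := h3
    rw [ht, Nat.cast_mul, Nat.cast_ofNat, h, zero_mul]
  obtain ⟨c, C, hc, hC, hb⟩ := TwO_bounds (k := k) (K := K) h2 hk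
  set ε₂ : ℝ := min (1 / 2) (ε * c / (8 * C)) with hε₂
  have hε₂0 : 0 < ε₂ := lt_min (by norm_num) (by positivity)
  have hε₂1 : ε₂ ≤ 1 / 2 := min_le_left _ _
  have hε₂2 : ε₂ * (8 * C) ≤ ε * c := by
    have := min_le_right (1 / 2) (ε * c / (8 * C))
    rw [← hε₂, le_div_iff₀ (by positivity)] at this
    exact this
  obtain ⟨M₁, hM₁⟩ := most_gen hk hg hp m ε₂ hε₂0
  obtain ⟨M₂, hM₂⟩ := pos_shapes (K := K) hk hg hp
  refine ⟨max M₁ M₂, fun M hM => ?_⟩
  have h4 := hM₁ M ((le_max_left _ _).trans hM)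
  have h5 := hM₂ M ((le_max_right _ _).trans hM)
  obtain ⟨r, hr, hsep, hgen⟩ := exists_rep (k := k) (K := K) (g := g) m M
  have hZf : (Shapes k K g M fun _ => True).Finite := finite_shapes hg M
  set Z : Finset (Shp K g) := hZf.toFinset with hZ
  have hmZ : ∀ z, z ∈ Z ↔ z ∈ Shapes k K g M fun _ => True := fun z =>
    Set.Finite.mem_toFinset _
  set Zg := Z.filter fun z => z ∉ Shapes k K g M fun a => ¬ GenS k m a with hZg
  set Zb := Z.filter fun z => ¬ (z ∉ Shapes k K g M fun a => ¬ GenS k m a) with hZb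
  have hcard : (Z.card : ℝ) = Zg.card + Zb.card := by
    have := Finset.card_filter_add_card_filter_not (s := Z)
      (p := fun z => z ∉ Shapes k K g M fun a => ¬ GenS k m a)
    exact_mod_cast this.symm
  have hZc : (Shapes k K g M fun _ => True).ncard = Z.card := Set.ncard_eq_toFinset_card _ hZf
  have hZbc : (Zb.card : ℝ) ≤ ε₂ * Z.card := by
    rw [← hZc]
    refine le_trans ?_ h4
    have h6 : (Zb : Set (Shp K g)) ⊆ Shapes k K g M fun a => ¬ GenS k m a := by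
      intro z hz
      exact not_not.1 (Finset.mem_filter.1 (Finset.mem_coe.1 hz)).2
    have h7 : (Shapes k K g M fun a => ¬ GenS k m a).Finite := by
      refine hZf.subset ?_
      rintro z ⟨a, ha, hs, hh, -⟩
      exact ⟨a, ha, hs, hh, trivial⟩
    have h8 := Set.ncard_le_ncard h6 h7
    rw [Set.ncard_coe_finset] at h8
    exact_mod_cast h8
  have hZpos : (0 : ℝ) < Z.card := by
    rw [← hZc]
    exact_mod_cast h5
  have hOf : ∀ z ∈ Z, (Od k (r z)).Finite := fun z hz =>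
    Od_finite G (ne_zero_of_sep hg (hsep z ((hmZ z).1 hz)))
  have hbz : ∀ z : Shp K g, ∃ N₀ : ℕ, z ∈ Z → ∀ N ≥ N₀,
      c * (Nat.card k : ℝ) ^ N ≤ (TwO k (Od k (r z)) N fun _ => True).ncard ∧
      ((TwO k (Od k (r z)) N fun _ => True).ncard : ℝ) ≤ C * (Nat.card k : ℝ) ^ N := by
    intro z
    by_cases hz : z ∈ Z
    · obtain ⟨N₀, h8⟩ := hb _ (hOf z hz)
      exact ⟨N₀, fun _ N hN => ⟨(h8 N hN).1, (h8 N hN).2.1⟩⟩
    · exact ⟨0, fun h => absurd h hz⟩
  choose N₂ hN₂ using hbz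
  refine ⟨Zg, r, fun z hz => ⟨hsep z ((hmZ z).1 (Finset.mem_filter.1 hz).1),
    hgen z ((hmZ z).1 (Finset.mem_filter.1 hz).1) (Finset.mem_filter.1 hz).2⟩, Z.sup N₂,
    fun N hN => ?_⟩
  have hNz2 : ∀ z ∈ Z, N ≥ N₂ z := fun z hz => (Finset.le_sup (f := N₂) hz).trans hN
  have hfam : ∀ P : (Fin (2 * g) → K) → Prop, (Fam k K g M N P).Finite := fun P =>
    (fam_le G hg M N P (hT N) r hr hmZ).1
  set Q : ℝ := (Nat.card k : ℝ) ^ N with hQ
  have hQ0 : 0 < Q := by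
    have : 0 < Nat.card k := Nat.card_pos
    positivity
  set A : ℝ := ∑ z ∈ Zg, ((TwO k (Od k (r z)) N fun _ => True).ncard : ℝ) with hA
  set B : ℝ := ∑ z ∈ Zb, ((TwO k (Od k (r z)) N fun _ => True).ncard : ℝ) with hB
  have hA1 : (Zg.card : ℝ) * (c * Q) ≤ A := by
    rw [hA, ← nsmul_eq_mul]
    exact Finset.card_nsmul_le_sum _ _ _ fun z hz =>
      (hN₂ z (Finset.mem_filter.1 hz).1 N (hNz2 z (Finset.mem_filter.1 hz).1)).1
  have hB1 : B ≤ Zb.card * (C * Q) := by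
    rw [hB, ← nsmul_eq_mul]
    exact Finset.sum_le_card_nsmul _ _ _ fun z hz =>
      (hN₂ z (Finset.mem_filter.1 hz).1 N (hNz2 z (Finset.mem_filter.1 hz).1)).2
  have hZg : (Z.card : ℝ) / 2 ≤ Zg.card := by
    have : ε₂ * Z.card ≤ 1 / 2 * Z.card := mul_le_mul_of_nonneg_right hε₂1 hZpos.le
    linarith
  have hA2 : (Z.card : ℝ) / 2 * (c * Q) ≤ A :=
    (mul_le_mul_of_nonneg_right hZg (by positivity)).trans hA1
  refine ⟨B, lt_of_lt_of_le (by positivity) hA2, ?_, fun P => ⟨?_, ?_⟩⟩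
  · calc B ≤ Zb.card * (C * Q) := hB1
      _ ≤ ε₂ * Z.card * (C * Q) := mul_le_mul_of_nonneg_right hZbc (by positivity)
      _ = ε₂ * (8 * C) * (Z.card / 8 * Q) := by ring
      _ ≤ ε * c * (Z.card / 8 * Q) := mul_le_mul_of_nonneg_right hε₂2 (by positivity)
      _ = ε / 4 * (Z.card / 2 * (c * Q)) := by ring
      _ ≤ ε / 4 * A := mul_le_mul_of_nonneg_left hA2 (by positivity)
  · have h6 := (fam_le G hg M N P (hT N) r hr hmZ).2
    have h7 : ((∑ z ∈ Z, (TwO k (Od k (r z)) N fun d => P (sc d (r z))).ncard : ℕ) : ℝ) =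
        ∑ z ∈ Zg, ((TwO k (Od k (r z)) N fun d => P (sc d (r z))).ncard : ℝ) +
          ∑ z ∈ Zb, ((TwO k (Od k (r z)) N fun d => P (sc d (r z))).ncard : ℝ) := by
      rw [Nat.cast_sum]
      exact (Finset.sum_filter_add_sum_filter_not Z _ _).symm
    have h8 : ∑ z ∈ Zb, ((TwO k (Od k (r z)) N fun d => P (sc d (r z))).ncard : ℝ) ≤ B := by
      refine Finset.sum_le_sum fun z hz => ?_
      have := Set.ncard_le_ncard (TwO_mono (O := Od k (r z)) (N := N)
        (P := fun d => P (sc d (r z))) (Q := fun _ => True) fun _ _ => trivial)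
        (hT N _ (hOf z (Finset.mem_filter.1 hz).1))
      exact_mod_cast this
    have h9 : ((Fam k K g M N P).ncard : ℝ) ≤
      ((∑ z ∈ Z, (TwO k (Od k (r z)) N fun d => P (sc d (r z))).ncard : ℕ) : ℝ) := by
      exact_mod_cast h6
    linarith
  · have h6 := le_fam G hg M N P (hT N) (hfam P) r hr (Z := Zg) fun z hz =>
      ⟨(hmZ z).1 (Finset.mem_filter.1 hz).1,
        (hgen z ((hmZ z).1 (Finset.mem_filter.1 hz).1) (Finset.mem_filter.1 hz).2).ne⟩
    exact_mod_cast h6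

/-- From the twists of one generic shape to the family. -/
theorem fam_gen (hk : ∀ x : K, IsIntegral k x → ∃ c : k, algebraMap k K c = x) (hg : 1 ≤ g)
    (hp : ((2 * g + 1).factorial : k) ≠ 0) (E : (Fin (2 * g) → K) → Prop)
    (hE : ∀ b : Fin (2 * g) → K, (pol g b).Separable → GenR k 0 b → ∀ ε : ℝ, 0 < ε →
      ∃ N₀ : ℕ, ∀ N ≥ N₀, ((TwO k (Od k b) N fun d => ¬ E (sc d b)).ncard : ℝ) ≤
        ε * (TwO k (Od k b) N fun _ => True).ncard) (ε : ℝ) (hε : 0 < ε) :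
    ∃ M₀ : ℕ, ∀ M ≥ M₀, ∃ N₀ : ℕ, ∀ N ≥ N₀,
      0 < (Fam k K g M N fun _ => True).ncard ∧
      ((Fam k K g M N fun a => ¬ E a).ncard : ℝ) ≤
        ε * (Fam k K g M N fun _ => True).ncard := by
  classical
  obtain ⟨M₀, h1⟩ := fam_frame (K := K) hk hg hp 0 hε
  refine ⟨M₀, fun M hM => ?_⟩
  obtain ⟨Z, r, hZ, N₁, h3⟩ := h1 M hM
  have h4 : ∀ z : Shp K g, ∃ N₀ : ℕ, z ∈ Z → ∀ N ≥ N₀,
      ((TwO k (Od k (r z)) N fun d => ¬ E (sc d (r z))).ncard : ℝ) ≤
        ε / 4 * (TwO k (Od k (r z)) N fun _ => True).ncard := by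
    intro z
    by_cases hz : z ∈ Z
    · obtain ⟨N₀, h5⟩ := hE _ (hZ z hz).1 (hZ z hz).2 (ε / 4) (by linarith)
      exact ⟨N₀, fun _ => h5⟩
    · exact ⟨0, fun h => absurd h hz⟩
  choose N₂ hN₂ using h4
  refine ⟨max N₁ (Z.sup N₂), fun N hN => ?_⟩
  have hNz : ∀ z ∈ Z, N ≥ N₂ z := fun z hz =>
    ((Finset.le_sup (f := N₂) hz).trans (le_max_right _ _)).trans hN
  obtain ⟨B, hA0, hBA, hP⟩ := h3 N ((le_max_left _ _).trans hN)
  have hAF := (hP fun _ => True).2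
  refine ⟨by exact_mod_cast lt_of_lt_of_le hA0 hAF, ?_⟩
  refine num_good hAF hBA hε (hP fun a => ¬ E a).1 ?_ hA0.le
  rw [Finset.mul_sum]
  exact Finset.sum_le_sum fun z hz => hN₂ z hz N (hNz z hz)

/-- The final theorem, `Good` any property which holds for `100` per cent of the twists of a
generic shape. -/
theorem fam_core (hk : ∀ x : K, IsIntegral k x → ∃ c : k, algebraMap k K c = x) (hg : 1 ≤ g)
    (hp : ((2 * g + 1).factorial : k) ≠ 0) (Good : ℕ → (Fin (2 * g) → K) → Prop)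
    (hgood : ∀ b : Fin (2 * g) → K, (pol g b).Separable → GenR k 0 b → ∀ ε : ℝ, 0 < ε →
      ∃ j₀ : ℕ, ∀ j ≥ j₀, ∃ N₀ : ℕ, ∀ N ≥ N₀,
      ((TwO k (Od k b) N fun d => ¬ Good j (sc d b)).ncard : ℝ) ≤
        ε * (TwO k (Od k b) N fun _ => True).ncard) :
    (∀ M N, (Fam k K g M N fun _ => True).Finite) ∧
    ∀ ε : ℝ, 0 < ε → ∃ M₀ : ℕ, ∀ M ≥ M₀, ∃ j N₀ : ℕ, ∀ N ≥ N₀,
      0 < (Fam k K g M N fun _ => True).ncard ∧
      ((Fam k K g M N fun a => ¬ Good j a).ncard : ℝ) ≤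
        ε * (Fam k K g M N fun _ => True).ncard ∧
      |((Fam k K g M N fun a => ZeroF k (pol g a)).ncard : ℝ) -
        (Fam k K g M N fun _ => True).ncard / 2| ≤ ε * (Fam k K g M N fun _ => True).ncard ∧
      |((Fam k K g M N fun a => OneF k (pol g a)).ncard : ℝ) -
        (Fam k K g M N fun _ => True).ncard / 2| ≤
        ε * (Fam k K g M N fun _ => True).ncard := by
  classical
  obtain ⟨G, -⟩ := exists_geo k K
  refine ⟨fun M N => ?_, fun ε hε => ?_⟩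
  · obtain ⟨r, hr, -, -⟩ := exists_rep (k := k) (K := K) (g := g) 0 M
    exact (fam_le G hg M N _ (fun O hO => finite_TwO hO N) r hr
      (Z := (finite_shapes hg M).toFinset) fun z => Set.Finite.mem_toFinset _).1
  have h2 : (2 : k) ≠ 0 := by
    intro h
    apply hp
    have h3 : 2 ∣ (2 * g + 1).factorial := Nat.dvd_factorial (by norm_num) (by omega)
    obtain ⟨t, ht⟩ := h3
    rw [ht, Nat.cast_mul, Nat.cast_ofNat, h, zero_mul]
  obtain ⟨c, C, hc, hC, hb⟩ := TwO_bounds (k := k) (K := K) h2 hk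
  have hq : (1 : ℝ) < Nat.card k := by
    have : 1 < Nat.card k := Finite.one_lt_card
    exact_mod_cast this
  obtain ⟨m, hm⟩ : ∃ m : ℕ, C ≤ ε / 4 * c * (Nat.card k : ℝ) ^ m := by
    obtain ⟨m, hm⟩ := pow_unbounded_of_one_lt (C / (ε / 4 * c)) hq
    refine ⟨m, ?_⟩
    rw [div_lt_iff₀ (by positivity)] at hm
    linarith
  obtain ⟨M₀, h1⟩ := fam_frame (K := K) hk hg hp m hε
  refine ⟨M₀, fun M hM => ?_⟩
  obtain ⟨Z, r, hZ, N₁, h3⟩ := h1 M hM
  have hone : ∀ z : Shp K g, ∃ j₀ : ℕ, z ∈ Z → ∀ j ≥ j₀, ∃ N₀ : ℕ, ∀ N ≥ N₀,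
      ((TwO k (Od k (r z)) N fun d => ¬ Good j (sc d (r z))).ncard : ℝ) ≤
        ε / 4 * (TwO k (Od k (r z)) N fun _ => True).ncard ∧
      (((TwO k (Od k (r z)) N fun d => ZeroF k (pol g (sc d (r z)))).ncard : ℝ) ≤
        ((TwO k (Od k (r z)) N fun _ => True).ncard : ℝ) / 2 +
          ε / 2 * (TwO k (Od k (r z)) N fun _ => True).ncard ∧
        ((TwO k (Od k (r z)) N fun _ => True).ncard : ℝ) / 2 -
          ε / 2 * (TwO k (Od k (r z)) N fun _ => True).ncard ≤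
            (TwO k (Od k (r z)) N fun d => ZeroF k (pol g (sc d (r z)))).ncard) ∧
      (((TwO k (Od k (r z)) N fun d => OneF k (pol g (sc d (r z)))).ncard : ℝ) ≤
        ((TwO k (Od k (r z)) N fun _ => True).ncard : ℝ) / 2 +
          ε / 2 * (TwO k (Od k (r z)) N fun _ => True).ncard ∧
        ((TwO k (Od k (r z)) N fun _ => True).ncard : ℝ) / 2 -
          ε / 2 * (TwO k (Od k (r z)) N fun _ => True).ncard ≤
            (TwO k (Od k (r z)) N fun d => OneF k (pol g (sc d (r z)))).ncard) := by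
    intro z
    by_cases hz : z ∈ Z
    · obtain ⟨j₀, h8⟩ := one_shape hk hg hp m hε hm hb (hZ z hz).1 (hZ z hz).2
        (Good := Good) (hgood _ (hZ z hz).1 (hZ z hz).2.zero)
      exact ⟨j₀, fun _ => h8⟩
    · exact ⟨0, fun h => absurd h hz⟩
  choose j₀ hj₀ using hone
  set j := Z.sup j₀ with hj
  have hjz : ∀ z ∈ Z, j ≥ j₀ z := fun z hz => Finset.le_sup (f := j₀) hz
  have hone' : ∀ z : Shp K g, ∃ N₀ : ℕ, z ∈ Z → ∀ N ≥ N₀,
      ((TwO k (Od k (r z)) N fun d => ¬ Good j (sc d (r z))).ncard : ℝ) ≤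
        ε / 4 * (TwO k (Od k (r z)) N fun _ => True).ncard ∧
      (((TwO k (Od k (r z)) N fun d => ZeroF k (pol g (sc d (r z)))).ncard : ℝ) ≤
        ((TwO k (Od k (r z)) N fun _ => True).ncard : ℝ) / 2 +
          ε / 2 * (TwO k (Od k (r z)) N fun _ => True).ncard ∧
        ((TwO k (Od k (r z)) N fun _ => True).ncard : ℝ) / 2 -
          ε / 2 * (TwO k (Od k (r z)) N fun _ => True).ncard ≤
            (TwO k (Od k (r z)) N fun d => ZeroF k (pol g (sc d (r z)))).ncard) ∧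
      (((TwO k (Od k (r z)) N fun d => OneF k (pol g (sc d (r z)))).ncard : ℝ) ≤
        ((TwO k (Od k (r z)) N fun _ => True).ncard : ℝ) / 2 +
          ε / 2 * (TwO k (Od k (r z)) N fun _ => True).ncard ∧
        ((TwO k (Od k (r z)) N fun _ => True).ncard : ℝ) / 2 -
          ε / 2 * (TwO k (Od k (r z)) N fun _ => True).ncard ≤
            (TwO k (Od k (r z)) N fun d => OneF k (pol g (sc d (r z)))).ncard) := by
    intro z
    by_cases hz : z ∈ Z
    · obtain ⟨N₀, h8⟩ := hj₀ z hz j (hjz z hz)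
      exact ⟨N₀, fun _ => h8⟩
    · exact ⟨0, fun h => absurd h hz⟩
  choose N₂ hN₂ using hone'
  refine ⟨j, max N₁ (Z.sup N₂), fun N hN => ?_⟩
  have hNz : ∀ z ∈ Z, N ≥ N₂ z := fun z hz =>
    ((Finset.le_sup (f := N₂) hz).trans (le_max_right _ _)).trans hN
  obtain ⟨B, hA0, hBA, hP⟩ := h3 N ((le_max_left _ _).trans hN)
  have hAF := (hP fun _ => True).2
  have hFAB := (hP fun _ => True).1
  refine ⟨by exact_mod_cast lt_of_lt_of_le hA0 hAF, ?_, ?_, ?_⟩
  · refine num_good hAF hBA hε (hP fun a => ¬ Good j a).1 ?_ hA0.le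
    rw [Finset.mul_sum]
    exact Finset.sum_le_sum fun z hz => (hN₂ z hz N (hNz z hz)).1
  · refine num_half hAF hFAB hBA hε hA0.le (hP fun a => ZeroF k (pol g a)).1
      (hP fun a => ZeroF k (pol g a)).2 ?_ ?_
    · rw [Finset.sum_div, Finset.mul_sum, ← Finset.sum_add_distrib]
      exact Finset.sum_le_sum fun z hz => (hN₂ z hz N (hNz z hz)).2.1.1
    · rw [Finset.sum_div, Finset.mul_sum, ← Finset.sum_sub_distrib]
      exact Finset.sum_le_sum fun z hz => (hN₂ z hz N (hNz z hz)).2.1.2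
  · refine num_half hAF hFAB hBA hε hA0.le (hP fun a => OneF k (pol g a)).1
      (hP fun a => OneF k (pol g a)).2 ?_ ?_
    · rw [Finset.sum_div, Finset.mul_sum, ← Finset.sum_add_distrib]
      exact Finset.sum_le_sum fun z hz => (hN₂ z hz N (hNz z hz)).2.2.1
    · rw [Finset.sum_div, Finset.mul_sum, ← Finset.sum_sub_distrib]
      exact Finset.sum_le_sum fun z hz => (hN₂ z hz N (hNz z hz)).2.2.2

end Pool.Agent.HA
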