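import Pool.Agent.Lib.HA.FixG
import Pool.Agent.Lib.HA.FixP

/-!
HA (all pointed hyperelliptic curves over a global function field, MP_950c68_ag), module Fix.
The twist theorem for one generic shape, twists ordered by `TwO k O N`: `fix_good` is in `FixG`,
`fix_half` in `FixP`, and `fix_ord` (with the heights) in `FixH`.
-/
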