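import Pool.Agent.Lib.HA.Defs
import Pool.Agent.Lib.HA.FrobR
import Pool.Agent.Lib.HA.Cnt
import Pool.Agent.Lib.HA.Pol
import Pool.Agent.Lib.SmN.Fin.FinJ
import Pool.Agent.Lib.SmN.Fin.HalfKum

/-!
HA (all pointed hyperelliptic curves over a global function field, MP_950c68_ag), module FixG.
For one generic shape: almost all of the twists, ordered by `TwO k O N`, have the property `GoodF`.
Comparison with the ordering by the degree of the ramification (helper4, helper54: SMITH-U).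
-/

set_option autoImplicit false

open Polynomial

namespace Pool.Agent.HA

open Pool.Agent.BSDFF Pool.Agent.GBC Pool.Agent.GBU
open Pool.Agent.SmN.Fnl (Tws)
open IsLocalRing (ResidueField residue)

section ram

variable {k K : Type} [Field k] [Field K] [Algebra k K]

open Pool.Agent.SmN.Fnl (ramDeg TwLE)

private theorem FixG_empty (d : K) : ramO k (∅ : Set (Place k K)) d = ramDeg k d := by
  classical
  unfold ramO ramDeg
  refine finsum_congr fun v => ?_
  simp

private theorem FixG_deg (G : Geo k K) {O : Set (Place k K)} (hO : O.Finite) {d : K}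
    (hd : d ≠ 0) : ramDeg k d ≤ ramO k O d + ∑ v ∈ hO.toFinset, v.degree := by
  classical
  set F := (ord_finite G hd).toFinset ∪ hO.toFinset with hF
  have h1 : ramDeg k d = ∑ v ∈ F, if Even (ord v d) then 0 else v.degree := by
    unfold ramDeg
    refine finsum_eq_sum_of_support_subset _ fun v hv => ?_
    rw [Finset.mem_coe, hF, Finset.mem_union, Set.Finite.mem_toFinset]
    left
    intro h0
    apply hv
    dsimp only
    rw [h0, if_pos Even.zero]
  have h2 : ramO k O d = ∑ v ∈ F, if Even (ord v d) ↔ v ∉ O then 0 else v.degree := by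
    unfold ramO
    refine finsum_eq_sum_of_support_subset _ fun v hv => ?_
    rw [Finset.mem_coe, hF, Finset.mem_union, Set.Finite.mem_toFinset, Set.Finite.mem_toFinset]
    by_contra hcon
    rw [not_or] at hcon
    apply hv
    dsimp only
    have h0 : ord v d = 0 := by
      by_contra h
      exact hcon.1 h
    rw [if_pos]
    rw [h0]
    exact ⟨fun _ => hcon.2, fun _ => Even.zero⟩
  have h3 : ∑ v ∈ hO.toFinset, v.degree = ∑ v ∈ F, if v ∈ O then v.degree else 0 := by
    rw [← Finset.sum_filter]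
    refine Finset.sum_congr ?_ fun _ _ => rfl
    ext v
    rw [Finset.mem_filter, hF, Finset.mem_union, hO.mem_toFinset]
    tauto
  rw [h1, h2, h3, ← Finset.sum_add_distrib]
  refine Finset.sum_le_sum fun v _ => ?_
  by_cases hv : v ∈ O <;> by_cases he : Even (ord v d) <;> simp [hv, he]

private theorem FixG_sub (G : Geo k K) {O : Set (Place k K)} (hO : O.Finite) (N : ℕ)
    (P : K → Prop) : TwO k O N P ⊆ TwLE k (N + ∑ v ∈ hO.toFinset, v.degree) P := by
  rintro c ⟨d, hd, h1, h2⟩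
  exact ⟨d, hd, (FixG_deg G hO d.ne_zero).trans (Nat.add_le_add_right h1 _), h2⟩

private theorem FixG_TwLE (n : ℕ) (P : K → Prop) :
    TwLE k n P = TwO k (∅ : Set (Place k K)) n P := by
  ext c
  constructor
  · rintro ⟨d, hd, h1, h2⟩
    exact ⟨d, hd, by rwa [FixG_empty], h2⟩
  · rintro ⟨d, hd, h1, h2⟩
    exact ⟨d, hd, by rwa [FixG_empty] at h1, h2⟩

end ram

variable {k K : Type} [Field k] [Field K] [Algebra k K]
variable [Finite k] [Algebra (RatFunc k) K] [IsScalarTower k (RatFunc k) K]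
  [FiniteDimensional (RatFunc k) K] [Algebra.IsSeparable (RatFunc k) K]

variable {g : ℕ}

section core

open Pool.Agent.SmN.Fnl Pool.Agent.SmJ Pool.Agent.SmNJ
open Pool.Agent.SmJ.L (EV)
open Pool.Agent.SmJ.R (OddDeg GoodP goodOn_iff)
open Pool.Agent.Lib.SmD (chi)

private theorem FixG_core (h2 : (2 : k) ≠ 0)
    (hk : ∀ x : K, IsIntegral k x → ∃ c : k, algebraMap k K c = x) (hg : 1 ≤ g)
    (hp : ((2 * g + 1).factorial : k) ≠ 0) {b : Fin (2 * g) → K} (hb : (pol g b).Separable)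
    (hA : ∃ v : Place k K, At v TypA b) (hB : ∃ v : Place k K, At v TypB b)
    (hC : ∃ v : Place k K, At v TypC b) (ε : ℝ) (hε : 0 < ε) :
    ∃ j₀ : ℕ, ∀ j ≥ j₀, ∃ N₀ : ℕ, ∀ N ≥ N₀,
      ((TwLE k N fun d : K => ¬ GoodF k (pol g (sc d b)) j).ncard : ℝ) ≤
        ε * (TwLE k N fun _ : K => True).ncard := by
  have h2K : (2 : K) ≠ 0 := by
    intro h
    apply h2
    apply (algebraMap k K).injective
    rw [map_ofNat, h, map_zero]
  have hn : ((2 * g + 1).factorial : K) ≠ 0 := by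
    intro h
    apply hp
    apply (algebraMap k K).injective
    rw [map_natCast, h, map_zero]
  have hgal : IsGalois K (SeparableClosure K) := IsSepClosure.isGalois
  have hm : (pol g b).Monic := pol_monic g b
  have hodd : OddDeg (pol g b) := ⟨by
    rw [natDegree_pol]
    exact ⟨g, rfl⟩⟩
  obtain ⟨a, hinj, ha⟩ := exists_rts (F := (pol g b).map (algebraMap K (SeparableClosure K)))
    (hm.map _) (hb.map) (IsSepClosed.splits_codomain _ hb) (g := g)
    (by rw [natDegree_map, natDegree_pol])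
  have hR : RtG K a := rtG_of h2K hinj ha
  have hAa : HypA a := ⟨hinj, hR.two⟩
  have hbig : BigIm K a := bigIm_of_surj (surj_pm hg h2 ha.symm hA hB hC)
  obtain ⟨T0, T, fr, ca, cC, m0, hT, -, -, -, -, hAOk⟩ :=
    exists_aOk_big k K (SeparableClosure K) a h2 hn hk hg hbig (W := ∅) Set.finite_empty
  have hnt : Nontrivial (EV g) := nontrivial_EV hg
  obtain ⟨hfin, hall⟩ := all_abs hT hAOk
  obtain ⟨m₁, h1⟩ := hall ε hε
  refine ⟨max m₁ 1, fun j hj => ?_⟩
  obtain ⟨n₀, h3⟩ := h1 j ((le_max_left _ _).trans hj)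
  refine ⟨n₀, fun N hN => ?_⟩
  have h4 := tw_le_card h2K rfl (locVals h2) N (hfin N)
    (fun c => ¬ SmallS (sysT k K (SeparableClosure K) a T0) j c)
    (fun d : K => ¬ GoodF k (pol g (sc d b)) j) (fun d h5 h6 => h5 (by
      have h7 : GoodF k ((pol g b).scaleRoots (d : K)) j :=
        ⟨inferInstance, (goodOn_iff _ _ _).2 (good_of_small h2 hn
          (fun w hw => hbig.nofix hg w hw) hm ha d.ne_zero (T0 := T0)
          ((le_max_right _ _).trans hj) h6)⟩
      rw [scaleRoots_pol] at h7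
      exact h7))
  have h5 := tw_card_le h2K rfl (locVals h2) N (hfin N)
    (fun _ => True) (fun _ : K => True) (fun _ _ => trivial)
  have h6 : Nat.card {c : {c : (SeparableClosure K ≃ₐ[K] SeparableClosure K) → ZMod 2 //
      (sysT k K (SeparableClosure K) a T0).HomG c} //
      rdeg (sysT k K (SeparableClosure K) a T0) Place.degree c.1 ≤ N} ≤
      (TwLE k N fun _ : K => True).ncard := by
    refine le_trans (le_of_eq ?_) h5
    exact Nat.card_congr (Equiv.subtypeEquivRight fun c => by rw [and_true])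
  have h7 := h3 N hN
  calc ((TwLE k N fun d : K => ¬ GoodF k (pol g (sc d b)) j).ncard : ℝ) ≤ _ := Nat.cast_le.2 h4
    _ ≤ _ := h7
    _ ≤ _ := mul_le_mul_of_nonneg_left (Nat.cast_le.2 h6) hε.le

end core

theorem fix_good (hk : ∀ x : K, IsIntegral k x → ∃ c : k, algebraMap k K c = x) (hg : 1 ≤ g)
    (hp : ((2 * g + 1).factorial : k) ≠ 0) {b : Fin (2 * g) → K} (hb : (pol g b).Separable)
    (hA : ∃ v : Place k K, At v TypA b) (hB : ∃ v : Place k K, At v TypB b)
    (hC : ∃ v : Place k K, At v TypC b) {O : Set (Place k K)} (hO : O.Finite) (ε : ℝ)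
    (hε : 0 < ε) : ∃ j₀ : ℕ, ∀ j ≥ j₀, ∃ N₀ : ℕ, ∀ N ≥ N₀,
      ((TwO k O N fun d => ¬ GoodF k (pol g (sc d b)) j).ncard : ℝ) ≤
        ε * (TwO k O N fun _ => True).ncard := by
  have h2 : (2 : k) ≠ 0 := Pool.Agent.SmN.Fnl.two_ne_of hg hp
  obtain ⟨G, -⟩ := exists_geo k K
  obtain ⟨c, C, hc, hC0, hbd⟩ := TwO_bounds (k := k) (K := K) h2 hk
  obtain ⟨N₁, hN₁⟩ := hbd O hO
  obtain ⟨N₂, hN₂⟩ := hbd ∅ Set.finite_empty
  set q : ℝ := (Nat.card k : ℝ) with hq
  have hq0 : 0 < q := by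
    rw [hq]
    exact_mod_cast Nat.card_pos (α := k)
  set τ : ℕ := ∑ v ∈ hO.toFinset, v.degree with hτ
  obtain ⟨j₀, hj₀⟩ := FixG_core h2 hk hg hp hb hA hB hC (ε * c / (C * q ^ τ)) (by positivity)
  refine ⟨j₀, fun j hj => ?_⟩
  obtain ⟨N₃, hN₃⟩ := hj₀ j hj
  refine ⟨N₁ + N₂ + N₃, fun N hN => ?_⟩
  have h3 := hN₃ (N + τ) (by omega)
  have hfin : (Pool.Agent.SmN.Fnl.TwLE k (N + τ)
      fun d : K => ¬ GoodF k (pol g (sc d b)) j).Finite := by
    rw [FixG_TwLE]
    refine (finite_TwO (k := k) (K := K) Set.finite_empty (N + τ)).subset ?_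
    rintro x ⟨d, hd, h4, -⟩
    exact ⟨d, hd, h4, trivial⟩
  have h4 : ((TwO k O N fun d => ¬ GoodF k (pol g (sc d b)) j).ncard : ℝ) ≤
      (Pool.Agent.SmN.Fnl.TwLE k (N + τ) fun d : K => ¬ GoodF k (pol g (sc d b)) j).ncard :=
    Nat.cast_le.2 (Set.ncard_le_ncard (FixG_sub G hO N _) hfin)
  have h5 := (hN₂ (N + τ) (by omega)).2.1
  rw [← FixG_TwLE] at h5
  have h6 := (hN₁ N (by omega)).1
  calc ((TwO k O N fun d => ¬ GoodF k (pol g (sc d b)) j).ncard : ℝ) ≤ _ := h4
    _ ≤ _ := h3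
    _ ≤ ε * c / (C * q ^ τ) * (C * q ^ (N + τ)) :=
        mul_le_mul_of_nonneg_left h5 (by positivity)
    _ = ε * (c * q ^ N) := by
        rw [pow_add]
        field_simp
    _ ≤ _ := mul_le_mul_of_nonneg_left h6 hε.le

end Pool.Agent.HA
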