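import Pool.Agent.Lib.HA.FrobR
import Pool.Agent.Lib.SmN.Fin.GeoS

/-!
HA, heights: the geometric Galois group of a generic shape is the symmetric group.

At a place of type `C` of even degree Frobenius acts on the roots as an odd permutation, and modulo
the geometric group it is an even power of the Frobenius element of the constants. So the geometric
group contains an odd permutation, and it contains the alternating group.
-/

set_option autoImplicit false

open Polynomial Equiv

namespace Pool.Agent.HA

open Pool.Agent.BSDFF Pool.Agent.GBC Pool.Agent.GBU Pool.Agent.Lib.SmD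
open Pool.Agent.SmNJ Pool.Agent.SmJ
open Pool.Agent.SmN.Fnl (alt_le_geo)

/-- The sign of a permutation which swaps `i` and `j` and has an odd power which fixes all others. -/
theorem sign_of_swap {n : ℕ} {σ : Perm (Fin n)} {i j : Fin n} (hij : i ≠ j) (hi : σ i = j)
    (hj : σ j = i) {s : ℕ} (hs : Odd s) (h : ∀ l, l ≠ i → l ≠ j → (σ ^ s) l = l) :
    Perm.sign σ = -1 := by
  obtain ⟨m, rfl⟩ := hs
  have h2 : ∀ m : ℕ, (σ ^ (2 * m)) i = i ∧ (σ ^ (2 * m)) j = j := by
    intro m
    induction m with
    | zero => simp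
    | succ m ih =>
      have e : 2 * (m + 1) = 2 * m + 1 + 1 := by ring
      rw [e, pow_succ, pow_succ, Perm.mul_apply, Perm.mul_apply, Perm.mul_apply, Perm.mul_apply,
        hi, hj, hi]
      exact ⟨ih.1, ih.2⟩
  have h3 : σ ^ (2 * m + 1) = swap i j := by
    ext l
    congr 1
    by_cases h4 : l = i
    · subst h4
      rw [pow_succ, Perm.mul_apply, hi, (h2 m).2, swap_apply_left]
    · by_cases h5 : l = j
      · subst h5
        rw [pow_succ, Perm.mul_apply, hj, (h2 m).1, swap_apply_right]
      · rw [h l h4 h5, swap_apply_of_ne_of_ne h4 h5]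
  have h6 := congrArg Perm.sign h3
  rw [map_pow, Perm.sign_swap hij] at h6
  rcases Int.units_eq_one_or (Perm.sign σ) with h7 | h7
  · rw [h7, one_pow] at h6
    exact absurd h6 (by decide)
  · exact h7

section

variable {k K Ω : Type} [Field k] [Field K] [Algebra k K] [Field Ω] [Algebra K Ω] {g : ℕ}
  {a : Fin (2 * g + 1) → Ω}

/-- **The geometric Galois group**: a Frobenius element at a place of even degree is an odd
permutation of the roots. -/
theorem geo_top_of_frob [Finite k] [RtG K a] (hs : Function.Surjective (pm K a))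
    {fr : Ω ≃ₐ[K] Ω} (hfr : IsFrC k fr) {w : ValuationSubring Ω} {φ : Ω ≃ₐ[K] Ω}
    (hφ : IsFrob K w φ) {d : ℕ} (hd : resCard (below K w) = Nat.card k ^ d) (hev : Even d)
    (hodd : Perm.sign (pm K a φ) = -1) : (GeoK k K Ω).map (pm K a) = ⊤ := by
  have hA := alt_le_geo (k := k) (K := K) a hs
  have h1 := frob_mem_GeoK hfr hφ hd
  have h2 : Perm.sign (pm K a ((fr ^ d)⁻¹ * φ)) = -1 := by
    obtain ⟨m, rfl⟩ := hev
    rw [map_mul, map_inv, map_pow, Perm.sign_mul, Perm.sign_inv, map_pow, hodd, pow_add]
    rcases Int.units_eq_one_or (Perm.sign (pm K a fr)) with h3 | h3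
    · rw [h3, one_pow, one_mul, one_mul]
    · rw [h3, ← mul_pow]
      simp
  rw [eq_top_iff]
  intro σ _
  rcases Int.units_eq_one_or (Perm.sign σ) with h | h
  · exact hA (Perm.mem_alternatingGroup.2 h)
  · have h3 : σ * (pm K a ((fr ^ d)⁻¹ * φ))⁻¹ ∈ (GeoK k K Ω).map (pm K a) := by
      apply hA
      rw [Perm.mem_alternatingGroup, Perm.sign_mul, Perm.sign_inv, h2, h]
      rfl
    have h4 := mul_mem h3 (Subgroup.mem_map_of_mem (pm K a) h1)
    rwa [inv_mul_cancel_right] at h4

end

end Pool.Agent.HA
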