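import Pool.Agent.Lib.HA.Cnt
import Pool.Agent.Lib.HA.GeoH
import Pool.Agent.Lib.SmN.Fin.FinJ
import Pool.Agent.Lib.SmN.Fin.OrdO
import Pool.Agent.Lib.SmNH.Fin.FinNH
import Pool.Agent.Lib.SmNH.Inst.HGeo

/-!
HA, heights: the order of vanishing for the twists of one generic shape, twists ordered by `TwO k O N`.
-/

set_option autoImplicit false

open Polynomial

namespace Pool.Agent.HA

open Pool.Agent.BSDFF Pool.Agent.GBC Pool.Agent.GBU Pool.Agent.Lib.SmD
open Pool.Agent.SmNJ Pool.Agent.SmJ Pool.Agent.SmNH Pool.Agent.SmNH.Fnl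
open Pool.Agent.SmN.Fnl
open Pool.Agent.SmJ.L (EV)
open Pool.Agent.SmJ.R (OddDeg GoodP goodOn_iff)

/-- The Selmer groups of `V = J[2 ^ ∞]` and of `V ⊗ Z[ε] / ε ^ 2` have the same corank `r ≤ 1`, `J` the
Jacobian of `y ^ 2 = f(x)`. -/
def OrdF (k : Type) {K : Type} [Field k] [Field K] [Algebra k K] (f : K[X]) : Prop :=
  ∃ _ : OddDeg f, OrdP k f

variable {k K : Type} [Field k] [Field K] [Algebra k K]
variable [Finite k] [Algebra (RatFunc k) K] [IsScalarTower k (RatFunc k) K]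
  [FiniteDimensional (RatFunc k) K] [Algebra.IsSeparable (RatFunc k) K]

omit [Finite k] [Algebra (RatFunc k) K] [IsScalarTower k (RatFunc k) K]
  [FiniteDimensional (RatFunc k) K] [Algebra.IsSeparable (RatFunc k) K] in
theorem twO_empty (N : ℕ) (P : K → Prop) : TwO k (∅ : Set (Place k K)) N P = TwLE k N P := by
  classical
  have h : ∀ d : K, ramO k (∅ : Set (Place k K)) d = ramDeg k d := fun d => by
    unfold ramO ramDeg
    refine finsum_congr fun v => ?_
    by_cases h0 : Even (ord v d)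
    · rw [if_pos h0, if_pos ⟨fun _ => Set.notMem_empty v, fun _ => h0⟩]
    · rw [if_neg h0, if_neg fun h1 => h0 (h1.2 (Set.notMem_empty v))]
  unfold TwO TwLE
  simp only [h]

omit [Finite k] [Algebra (RatFunc k) K] [IsScalarTower k (RatFunc k) K]
  [FiniteDimensional (RatFunc k) K] [Algebra.IsSeparable (RatFunc k) K] in
/-- Comparison of the two orderings. -/
theorem ramDeg_le (G : Geo k K) {O : Set (Place k K)} (hO : O.Finite) (d : Kˣ) :
    ramDeg k (d : K) ≤ ramO k O (d : K) + ∑ v ∈ hO.toFinset, v.degree := by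
  classical
  set F := (hO.union (ord_finite G d.ne_zero)).toFinset with hF
  have hmem : ∀ v, v ∉ F → v ∉ O ∧ ord v (d : K) = 0 := by
    intro v hv
    rw [hF, Set.Finite.mem_toFinset, Set.mem_union, not_or] at hv
    refine ⟨hv.1, ?_⟩
    by_contra h
    exact hv.2 h
  have e1 : ramDeg k (d : K) = ∑ v ∈ F, if Even (ord v (d : K)) then 0 else v.degree := by
    refine finsum_eq_sum_of_support_subset _ fun v hv => ?_
    by_contra hcon
    obtain ⟨-, h1⟩ := hmem v hcon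
    apply hv
    dsimp only
    rw [if_pos (by rw [h1]; exact Even.zero)]
  have e2 : ramO k O (d : K) =
      ∑ v ∈ F, if Even (ord v (d : K)) ↔ v ∉ O then 0 else v.degree := by
    refine finsum_eq_sum_of_support_subset _ fun v hv => ?_
    by_contra hcon
    obtain ⟨h0, h1⟩ := hmem v hcon
    apply hv
    dsimp only
    rw [if_pos ⟨fun _ => h0, fun _ => by rw [h1]; exact Even.zero⟩]
  have e3 : ∑ v ∈ F, (if v ∈ O then v.degree else 0) ≤ ∑ v ∈ hO.toFinset, v.degree := by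
    rw [← Finset.sum_filter]
    refine Finset.sum_le_sum_of_subset fun v hv => ?_
    rw [Set.Finite.mem_toFinset]
    exact (Finset.mem_filter.1 hv).2
  rw [e1, e2]
  refine le_trans ?_ (Nat.add_le_add_left e3 _)
  rw [← Finset.sum_add_distrib]
  refine Finset.sum_le_sum fun v _ => ?_
  by_cases h1 : Even (ord v (d : K))
  · rw [if_pos h1]
    exact Nat.zero_le _
  · rw [if_neg h1]
    by_cases h3 : v ∈ O
    · rw [if_pos h3]
      exact Nat.le_add_left _ _
    · rw [if_neg h3, if_neg fun h4 => h1 (h4.2 h3)]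
      exact le_rfl

/-- From the ordering by the ramification to the ordering `TwO k O`. -/
theorem twO_of_twLE (h2 : (2 : k) ≠ 0)
    (hk : ∀ x : K, IsIntegral k x → ∃ c : k, algebraMap k K c = x) {O : Set (Place k K)}
    (hO : O.Finite) {Bad : ℕ → K → Prop}
    (h : ∀ ε : ℝ, 0 < ε → ∃ j₀ : ℕ, ∀ j ≥ j₀, ∃ N₀ : ℕ, ∀ N ≥ N₀,
      ((TwLE k N (Bad j)).ncard : ℝ) ≤ ε * (TwLE k N (fun _ : K => True)).ncard)
    (ε : ℝ) (hε : 0 < ε) : ∃ j₀ : ℕ, ∀ j ≥ j₀, ∃ N₀ : ℕ, ∀ N ≥ N₀,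
      ((TwO k O N (Bad j)).ncard : ℝ) ≤ ε * (TwO k O N fun _ => True).ncard := by
  obtain ⟨G, -⟩ := exists_geo k K
  obtain ⟨c, C, hc, hC, hb⟩ := TwO_bounds (k := k) (K := K) h2 hk
  set δ := ∑ v ∈ hO.toFinset, v.degree with hδ
  have hq : (0 : ℝ) < Nat.card k := by exact_mod_cast Nat.card_pos
  obtain ⟨j₀, hj₀⟩ := h (ε * c / (C * (Nat.card k : ℝ) ^ δ)) (by positivity)
  refine ⟨j₀, fun j hj => ?_⟩
  obtain ⟨N₀, hN₀⟩ := hj₀ j hj
  obtain ⟨N₁, hN₁⟩ := hb ∅ Set.finite_empty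
  obtain ⟨N₂, hN₂⟩ := hb O hO
  refine ⟨max N₀ (max N₁ N₂), fun N hN => ?_⟩
  have k0 : N₀ ≤ N := (le_max_left _ _).trans hN
  have k1 : N₁ ≤ N := ((le_max_left _ _).trans (le_max_right _ _)).trans hN
  have k2 : N₂ ≤ N := ((le_max_right _ _).trans (le_max_right _ _)).trans hN
  have hfin : (TwLE k (N + δ) (fun _ : K => True)).Finite := by
    rw [← twO_empty]
    exact finite_TwO Set.finite_empty _
  have e1 : (TwO k O N (Bad j)).ncard ≤ (TwLE k (N + δ) (Bad j)).ncard := by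
    refine Set.ncard_le_ncard ?_ (hfin.subset ?_)
    · rintro c ⟨d, h3, h4, h5⟩
      exact ⟨d, h3, (ramDeg_le G hO d).trans (Nat.add_le_add_right h4 _), h5⟩
    · rintro c ⟨d, h3, h4, -⟩
      exact ⟨d, h3, h4, trivial⟩
  have e2 := hN₀ (N + δ) (k0.trans (Nat.le_add_right _ _))
  have e3 := (hN₁ (N + δ) (k1.trans (Nat.le_add_right _ _))).2.1
  rw [twO_empty] at e3
  have e4 := (hN₂ N k2).1
  calc ((TwO k O N (Bad j)).ncard : ℝ) ≤ (TwLE k (N + δ) (Bad j)).ncard := by exact_mod_cast e1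
    _ ≤ ε * c / (C * (Nat.card k : ℝ) ^ δ) * (C * (Nat.card k : ℝ) ^ (N + δ)) :=
        e2.trans (mul_le_mul_of_nonneg_left e3 (by positivity))
    _ = ε * (c * (Nat.card k : ℝ) ^ N) := by
        rw [pow_add]
        field_simp
    _ ≤ _ := mul_le_mul_of_nonneg_left e4 hε.le

/-- The order of vanishing for the quadratic twists of one generic shape, ordered by ramification;
`k` is the field of constants of `K`, `k₀` a subfield of `k`. -/
theorem fix_ordLE (k₀ : Type) [Field k₀] [Finite k₀] [Algebra k₀ K] [Algebra k₀ k]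
    (hk : ∀ x : K, IsIntegral k x → ∃ c : k, algebraMap k K c = x) {g : ℕ}
    (hg : 1 ≤ g) (hp : ((2 * g + 1).factorial : k) ≠ 0) {b : Fin (2 * g) → K}
    (hb : (pol g b).Separable) (hA : ∃ v : Place k K, At v TypA b)
    (hB : ∃ v : Place k K, At v TypB b) (hC : ∃ v : Place k K, Even v.degree ∧ At v TypC b)
    (ε : ℝ) (hε : 0 < ε) : ∃ j₀ : ℕ, ∀ j ≥ j₀, ∃ N₀ : ℕ, ∀ N ≥ N₀,
      ((TwLE k N fun d : K =>
        ¬ (GoodF k₀ (pol g (sc d b)) j ∧ OrdF k₀ (pol g (sc d b)))).ncard : ℝ) ≤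
        ε * (TwLE k N (fun _ : K => True)).ncard := by
  have h2 : (2 : k) ≠ 0 := two_ne_of hg hp
  have h2K : (2 : K) ≠ 0 := by
    intro h
    apply h2
    apply (algebraMap k K).injective
    rw [map_ofNat, h, map_zero]
  have hnK : ((2 * g + 1).factorial : K) ≠ 0 := by
    intro h
    apply hp
    apply (algebraMap k K).injective
    rw [map_natCast, h, map_zero]
  have hm := pol_monic g b
  have hod : OddDeg (pol g b) := ⟨by rw [natDegree_pol]; exact ⟨g, rfl⟩⟩
  have hgal : IsGalois K (SeparableClosure K) := IsSepClosure.isGalois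
  have hsc : IsSepClosed (SeparableClosure K) := IsSepClosure.sep_closed K
  obtain ⟨a, hinj, ha⟩ := exists_rts (F := (pol g b).map (algebraMap K (SeparableClosure K)))
    (hm.map _) (hb.map) (IsSepClosed.splits_codomain _ hb) (g := g)
    (by rw [natDegree_map]; exact natDegree_pol g b)
  have hR : RtG K a := rtG_of h2K hinj ha
  have hHA : HypA a := ⟨hinj, hR.two⟩
  obtain ⟨v, hev, hv⟩ := hC
  have hsurj : Function.Surjective (pm K a) := surj_pm hg h2 ha.symm hA hB ⟨v, hv⟩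
  have hbig : BigIm K a := bigIm_of_surj hsurj
  have hfix : ∀ w : EV g, (∀ s, acN K a s w = w) → w = 0 := fun w hw => hbig.nofix hg w hw
  -- the geometric group
  obtain ⟨fr0, hfr0⟩ := exists_isFrC (k := k) (K := K) (Om := SeparableClosure K) fun x hx =>
    hk x (SmBU.isIntegral_iff_isC.2 hx)
  obtain ⟨i, l, hil, hi, hl, s, hs, hfx⟩ := typC_phK (Ω := SeparableClosure K) (a := a) ha.symm hv
  have hgeo := geo_top_of_frob (k := k) hsurj hfr0 (phK_frob (Om := SeparableClosure K) v)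
    (d := v.degree) (SmBU.resCard_eq (below_abK (SeparableClosure K) v)) hev
    (sign_of_swap hil hi hl hs hfx)
  have hgeo' := hgeo_of_map hgeo
  obtain ⟨T0, T, fr, ca, cC, H, hT, -, -, -, hfr, hdeg, -, hAOk, hAH⟩ :=
    exists_ahOk k K (SeparableClosure K) a h2 hnK hk hg hbig hgeo' (W := ∅) Set.finite_empty
  have hnt : Nontrivial (EV g) := nontrivial_EV hg
  obtain ⟨hfin, hall⟩ := all_absH hT hAOk (main_H hAOk hAH)
  obtain ⟨m₁, hm₁⟩ := hall ε hε
  refine ⟨max m₁ 1, fun j hj => ?_⟩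
  obtain ⟨n₀, hn₀⟩ := hm₁ j ((le_max_left _ _).trans hj)
  refine ⟨n₀, fun N hN => ?_⟩
  have hNN : (shrink (sysT k K (SeparableClosure K) a T0) Tᶜ).NN = NP K (SeparableClosure K) := rfl
  have hdd : ∀ d : Kˣ, rdeg (shrink (sysT k K (SeparableClosure K) a T0) Tᶜ) Place.degree
      (chi K (d : K)) = ramDeg k (d : K) := fun d => rdeg_chi h2K (locVals h2) d
  have e1 := twR_le_card (rk := ramDeg k) h2K hNN hdd N (hfin N)
    (fun c => ¬ SmallH (shrink (sysT k K (SeparableClosure K) a T0) Tᶜ) H j c)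
    (fun d : K => ¬ (GoodF k₀ (pol g (sc d b)) j ∧ OrdF k₀ (pol g (sc d b)))) fun d hd hS => by
      obtain ⟨h5, h6⟩ := ord_of_smallH (T0 := (T0 : Set (Place k K))) h2 hnK hfix hm ha d.ne_zero
        hfr hAOk.ok hAH.hok hdeg ((le_max_right _ _).trans hj) hS.1 hS.2
      apply hd
      have h7 : (pol g b).scaleRoots (d : K) = pol g (sc (d : K) b) := scaleRoots_pol g b d
      rw [← h7]
      exact ⟨⟨inferInstance, (goodOn_iff _ _ _).2 (goodOnJ_const k k₀ _ _ h5)⟩,
        ⟨inferInstance, ord_const_tw h2 hnK hfix hm ha d.ne_zero h6⟩⟩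
  have e2 := twR_card_le (rk := ramDeg k) h2K hNN hdd N (hfin N) (fun _ => True)
    (fun _ : K => True) fun _ _ => trivial
  have e3 := hn₀ N hN
  have e4 : Nat.card {c : {c : (SeparableClosure K ≃ₐ[K] SeparableClosure K) → ZMod 2 //
      (shrink (sysT k K (SeparableClosure K) a T0) Tᶜ).HomG c} //
        rdeg (shrink (sysT k K (SeparableClosure K) a T0) Tᶜ) Place.degree c.1 ≤ N} ≤
      (TwLE k N (fun _ : K => True)).ncard := by
    refine le_trans (le_of_eq ?_) e2
    exact Nat.card_congr (Equiv.subtypeEquivRight fun c => (and_iff_left trivial).symm)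
  calc ((TwLE k N fun d : K =>
        ¬ (GoodF k₀ (pol g (sc d b)) j ∧ OrdF k₀ (pol g (sc d b)))).ncard : ℝ)
      ≤ _ := by exact_mod_cast e1
    _ ≤ _ := e3
    _ ≤ ε * (TwLE k N (fun _ : K => True)).ncard :=
        mul_le_mul_of_nonneg_left (by exact_mod_cast e4) hε.le

/-- **The order of vanishing for the quadratic twists of one generic shape.** -/
theorem fix_ord (k₀ : Type) [Field k₀] [Finite k₀] [Algebra k₀ K] [Algebra k₀ k]
    (hk : ∀ x : K, IsIntegral k x → ∃ c : k, algebraMap k K c = x) {g : ℕ}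
    (hg : 1 ≤ g) (hp : ((2 * g + 1).factorial : k) ≠ 0) {b : Fin (2 * g) → K}
    (hb : (pol g b).Separable) (hA : ∃ v : Place k K, At v TypA b)
    (hB : ∃ v : Place k K, At v TypB b) (hC : ∃ v : Place k K, Even v.degree ∧ At v TypC b)
    {O : Set (Place k K)} (hO : O.Finite) (ε : ℝ) (hε : 0 < ε) :
    ∃ j₀ : ℕ, ∀ j ≥ j₀, ∃ N₀ : ℕ, ∀ N ≥ N₀,
      ((TwO k O N fun d =>
        ¬ (GoodF k₀ (pol g (sc d b)) j ∧ OrdF k₀ (pol g (sc d b)))).ncard : ℝ) ≤
        ε * (TwO k O N fun _ => True).ncard :=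
  twO_of_twLE (two_ne_of hg hp) hk hO
    (fun ε hε => fix_ordLE k₀ hk hg hp hb hA hB hC ε hε) ε hε

end Pool.Agent.HA
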