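import Pool.Agent.Lib.HA.Fin
import Pool.Agent.Lib.HA.FixH
import Pool.Agent.Lib.SmN.Fin.Const
import Pool.Agent.Lib.SmBU.CstK

/-!
HA (all pointed hyperelliptic curves over a global function field, MP_950c68_ag), module Main.
The final theorem for any finitely generated extension `K` of transcendence degree one of a finite field `k`: the
case of `Fin` for the field of constants of `K`, and a comparison of the heights and degrees.
-/

set_option autoImplicit false

open Polynomial

namespace Pool.Agent.HA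

open Pool.Agent.BSDFF Pool.Agent.GBC Pool.Agent.GBU
open Pool.Agent.SmN.Fnl (Tws plE degree_plE finrank_pos const_iff cst finite_cst trdeg_cst
  essFinite_cst const_cst)
open IsLocalRing (ResidueField residue)

section const

variable (k k' : Type) {K : Type} [Field k] [Field k'] [Finite k] [Finite k'] [Field K]
  [Algebra k K] [Algebra k' K] {g : ℕ}

theorem md_const (v : Place k K) (a : Fin (2 * g) → K) : md (plE k k' v) a = md v a := rfl

section height

variable [Algebra k k'] [IsScalarTower k k' K]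

theorem hgt_const (a : Fin (2 * g) → K) : hgt k a = (Module.finrank k k' : ℤ) * hgt k' a := by
  have hn : (Module.finrank k k' : ℤ) ≠ 0 := by
    have := finrank_pos k k'
    exact_mod_cast this.ne'
  have h0 : Function.Injective (AddMonoidHom.mulLeft (Module.finrank k k' : ℤ)) := fun a b h =>
    mul_left_cancel₀ hn h
  have h1 := (AddMonoidHom.mulLeft (Module.finrank k k' : ℤ)).map_finsum_of_injective h0
    fun v : Place k' K => (v.degree : ℤ) * md v a
  change _ = AddMonoidHom.mulLeft (Module.finrank k k' : ℤ) (hgt k' a)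
  unfold hgt
  rw [h1, ← finsum_comp_equiv (plE k k' : Place k K ≃ Place k' K)]
  refine finsum_congr fun v => ?_
  rw [md_const, degree_plE k k' v, AddMonoidHom.coe_mulLeft, Nat.cast_mul, mul_assoc]

theorem tdg_const (a : Fin (2 * g) → K) : tdg k a = Module.finrank k k' * tdg k' a := by
  have h0 : Function.Injective (AddMonoidHom.mulLeft (Module.finrank k k')) := fun a b h =>
    Nat.eq_of_mul_eq_mul_left (finrank_pos k k') h
  have h1 := (AddMonoidHom.mulLeft (Module.finrank k k')).map_finsum_of_injective h0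
    fun v : Place k' K => if Even (md v a) then 0 else v.degree
  change _ = AddMonoidHom.mulLeft (Module.finrank k k') (tdg k' a)
  unfold tdg
  rw [h1, ← finsum_comp_equiv (plE k k' : Place k K ≃ Place k' K)]
  refine finsum_congr fun v => ?_
  rw [md_const, degree_plE k k' v, AddMonoidHom.coe_mulLeft]
  split_ifs
  · rfl
  · rfl

theorem fam_const (M N : ℕ) (P : (Fin (2 * g) → K) → Prop) :
    Fam k K g M N P = Fam k' K g (M / Module.finrank k k') (N / Module.finrank k k') P := by
  have hn := finrank_pos k k'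
  ext C
  refine exists_congr fun a => and_congr_right fun _ => and_congr_right fun _ => ?_
  rw [hgt_const k k', tdg_const k k', Nat.le_div_iff_mul_le hn, mul_comm (tdg k' a),
    Int.natCast_div, Int.le_ediv_iff_mul_le (by exact_mod_cast hn), mul_comm (hgt k' a)]

end height

theorem goodF_const (f : K[X]) (j : ℕ) : GoodF k f j ↔ GoodF k' f j := by
  constructor
  · rintro ⟨h, h1⟩
    exact ⟨h, (SmJ.R.goodOn_iff _ _ j).2 (SmN.Fnl.goodOn_const k k' _
      (fun w => const_iff k k' w) ((SmJ.R.goodOn_iff _ _ j).1 h1))⟩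
  · rintro ⟨h, h1⟩
    exact ⟨h, (SmJ.R.goodOn_iff _ _ j).2 (SmN.Fnl.goodOn_const k' k _
      (fun w => const_iff k' k w) ((SmJ.R.goodOn_iff _ _ j).1 h1))⟩

theorem zeroF_const (f : K[X]) : ZeroF k f ↔ ZeroF k' f := by
  constructor
  · rintro ⟨h, h1⟩
    have h2 := (SmJ.R.zeroOn_iff _ _).1 h1
    exact ⟨h, (SmJ.R.zeroOn_iff _ _).2 ⟨SmN.Fnl.hasCorank_const k k' _
      (fun w => const_iff k k' w) h2.1, SmN.Fnl.finite_sha2_const k k' _
      (fun w => const_iff k k' w) h2.2⟩⟩
  · rintro ⟨h, h1⟩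
    have h2 := (SmJ.R.zeroOn_iff _ _).1 h1
    exact ⟨h, (SmJ.R.zeroOn_iff _ _).2 ⟨SmN.Fnl.hasCorank_const k' k _
      (fun w => const_iff k' k w) h2.1, SmN.Fnl.finite_sha2_const k' k _
      (fun w => const_iff k' k w) h2.2⟩⟩

theorem oneF_const (f : K[X]) : OneF k f ↔ OneF k' f := by
  constructor
  · rintro ⟨h, h1⟩
    exact ⟨h, SmN.Fnl.hasCorank_const k k' _ (fun w => const_iff k k' w) h1⟩
  · rintro ⟨h, h1⟩
    exact ⟨h, SmN.Fnl.hasCorank_const k' k _ (fun w => const_iff k' k w) h1⟩

end const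

theorem TwO_mono_unit {k K : Type} [Field k] [Field K] [Algebra k K] {O : Set (Place k K)} {N : ℕ}
    {P Q : K → Prop} (h : ∀ d : Kˣ, P (d : K) → Q (d : K)) : TwO k O N P ⊆ TwO k O N Q := by
  rintro c ⟨d, h1, h2, h3⟩
  exact ⟨d, h1, h2, h _ h3⟩

/-- The final theorem with any property `Good j a` which follows, for the curves of a generic shape,
from `GoodF` and `OrdF`. -/
theorem fam_mainG (k K : Type) [Field k] [Finite k] [Field K] [Algebra k K]
    [Algebra.EssFiniteType k K] (hK : Algebra.trdeg k K = 1) {g : ℕ} (hg : 1 ≤ g)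
    (hp : ((2 * g + 1).factorial : k) ≠ 0) (Good : ℕ → (Fin (2 * g) → K) → Prop)
    (hgood : ∀ b : Fin (2 * g) → K, (pol g b).Separable → GenR (cst k K) 0 b →
      ∀ (d : Kˣ) (j : ℕ), GoodF k (pol g (sc (d : K) b)) j → OrdF k (pol g (sc (d : K) b)) →
        Good j (sc (d : K) b)) :
    (∀ M N, (Fam k K g M N fun _ => True).Finite) ∧
    ∀ ε : ℝ, 0 < ε → ∃ M₀ : ℕ, ∀ M ≥ M₀, ∃ j N₀ : ℕ, ∀ N ≥ N₀,
      0 < (Fam k K g M N fun _ => True).ncard ∧
      ((Fam k K g M N fun a => ¬ Good j a).ncard : ℝ) ≤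
        ε * (Fam k K g M N fun _ => True).ncard ∧
      |((Fam k K g M N fun a => ZeroF k (pol g a)).ncard : ℝ) -
        (Fam k K g M N fun _ => True).ncard / 2| ≤ ε * (Fam k K g M N fun _ => True).ncard ∧
      |((Fam k K g M N fun a => OneF k (pol g a)).ncard : ℝ) -
        (Fam k K g M N fun _ => True).ncard / 2| ≤
        ε * (Fam k K g M N fun _ => True).ncard := by
  have := finite_cst k K hK
  have := essFinite_cst k K
  have h1 := trdeg_cst k K hK
  have : PerfectField (cst k K) := inferInstance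
  obtain ⟨alg, h2, h3, h4⟩ := exists_ratFunc (cst k K) K h1
  have hp' : ((2 * g + 1).factorial : cst k K) ≠ 0 := by
    intro h
    apply hp
    apply (algebraMap k (cst k K)).injective
    rw [map_natCast, map_zero]
    exact h
  have hk : ∀ x : K, IsIntegral (cst k K) x → ∃ c : cst k K, algebraMap (cst k K) K c = x :=
    fun x hx => const_cst k K x (SmBU.isIntegral_iff_isC.1 hx)
  obtain ⟨G, -⟩ := exists_geo (cst k K) K
  obtain ⟨h5, h6⟩ := fam_core hk hg hp' Good fun b hb hgen ε hε => by
    have hO := Od_finite G (ne_zero_of_sep hg hb)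
    obtain ⟨j₀, h7⟩ := fix_ord k hk hg hp' hb hgen.A hgen.B hgen.C hO ε hε
    refine ⟨j₀, fun j hj => ?_⟩
    obtain ⟨N₀, h8⟩ := h7 j hj
    refine ⟨N₀, fun N hN => le_trans ?_ (h8 N hN)⟩
    refine Nat.cast_le.2 (Set.ncard_le_ncard (TwO_mono_unit fun d hd hgd => hd ?_)
      ((finite_TwO hO N).subset (TwO_mono fun _ _ => trivial)))
    exact hgood b hb hgen d j hgd.1 hgd.2
  have hn := finrank_pos k (cst k K)
  have hZ : (fun a : Fin (2 * g) → K => ZeroF k (pol g a)) =
      fun a => ZeroF (cst k K) (pol g a) := by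
    funext a
    rw [zeroF_const k (cst k K)]
  have hO : (fun a : Fin (2 * g) → K => OneF k (pol g a)) =
      fun a => OneF (cst k K) (pol g a) := by
    funext a
    rw [oneF_const k (cst k K)]
  refine ⟨fun M N => ?_, fun ε hε => ?_⟩
  · rw [fam_const k (cst k K)]
    exact h5 _ _
  · obtain ⟨M₀, h7⟩ := h6 ε hε
    refine ⟨M₀ * Module.finrank k (cst k K), fun M hM => ?_⟩
    obtain ⟨j, N₀, h8⟩ := h7 (M / Module.finrank k (cst k K))
      ((Nat.le_div_iff_mul_le hn).2 hM)
    refine ⟨j, N₀ * Module.finrank k (cst k K), fun N hN => ?_⟩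
    have h9 := h8 (N / Module.finrank k (cst k K)) ((Nat.le_div_iff_mul_le hn).2 hN)
    rw [hZ, hO, fam_const k (cst k K), fam_const k (cst k K), fam_const k (cst k K),
      fam_const k (cst k K)]
    exact h9

/-- **All pointed hyperelliptic curves of genus `g` over a global function field.** -/
theorem fam_main (k K : Type) [Field k] [Finite k] [Field K] [Algebra k K]
    [Algebra.EssFiniteType k K] (hK : Algebra.trdeg k K = 1) {g : ℕ} (hg : 1 ≤ g)
    (hp : ((2 * g + 1).factorial : k) ≠ 0) :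
    (∀ M N, (Fam k K g M N fun _ => True).Finite) ∧
    ∀ ε : ℝ, 0 < ε → ∃ M₀ : ℕ, ∀ M ≥ M₀, ∃ j N₀ : ℕ, ∀ N ≥ N₀,
      0 < (Fam k K g M N fun _ => True).ncard ∧
      ((Fam k K g M N fun a => ¬ (GoodF k (pol g a) j ∧ OrdF k (pol g a))).ncard : ℝ) ≤
        ε * (Fam k K g M N fun _ => True).ncard ∧
      |((Fam k K g M N fun a => ZeroF k (pol g a)).ncard : ℝ) -
        (Fam k K g M N fun _ => True).ncard / 2| ≤ ε * (Fam k K g M N fun _ => True).ncard ∧
      |((Fam k K g M N fun a => OneF k (pol g a)).ncard : ℝ) -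
        (Fam k K g M N fun _ => True).ncard / 2| ≤
        ε * (Fam k K g M N fun _ => True).ncard :=
  fam_mainG k K hK hg hp (fun j a => GoodF k (pol g a) j ∧ OrdF k (pol g a))
    fun _ _ _ _ _ h1 h2 => ⟨h1, h2⟩

end Pool.Agent.HA
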