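import Pool.Agent.Lib.HA.Defs
import Pool.Agent.Lib.HA.Pol
import Pool.Agent.Lib.SmNJ.Mult
import Pool.Agent.Lib.SmNJ.NodeF

/-!
HA (all pointed hyperelliptic curves over a global function field, MP_950c68_ag), module NodeR.
A place of type `N` is a node (helper77): the roots are integral at `abK Ω v`; the reduction is `(X - r) ^ 2 h` with `h` separable (irreducible of degree
prime to the characteristic or less than it) and `h(r) ≠ 0`: exactly two roots `a i, a j` reduce to `r`.
-/

set_option autoImplicit false

open Polynomial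

namespace Pool.Agent.HA

open Pool.Agent.BSDFF Pool.Agent.GBC Pool.Agent.GBU
open Pool.Agent.SmN.Fnl (Tws)
open IsLocalRing (ResidueField residue)

variable {k K : Type} [Field k] [Field K] [Algebra k K]
variable [Finite k] [Algebra (RatFunc k) K] [IsScalarTower k (RatFunc k) K]
  [FiniteDimensional (RatFunc k) K] [Algebra.IsSeparable (RatFunc k) K]

variable {Ω : Type} [Field Ω] [Algebra K Ω] [IsSepClosure K Ω] {g : ℕ}

open Pool.Agent.SmNJ Pool.Agent.SmJ in
theorem node_of (hg : 1 ≤ g) (h2 : (2 : k) ≠ 0) (hp : ((2 * g + 1).factorial : k) ≠ 0)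
    {b : Fin (2 * g) → K} {a : Fin (2 * g + 1) → Ω} [RtG K a]
    (h : (pol g b).map (algebraMap K Ω) = ff a) {v : Place k K} (hN : At v TypN b) :
    ∃ i j, Node a v i j ∧ (abK Ω v).valuation (a i - a j) < 1 := by
  obtain ⟨hI, r, q, hmon, hirr, hfac, hr⟩ := hN
  have hfin : Finite (ResidueField v.ring) := BSDK.residue_finite v
  have hsep : q.Separable := PerfectField.separable_of_irreducible hirr
  have hf : ((pol g fun j => (⟨b j, hI j⟩ : v.ring)).map (algebraMap v.ring K)).map
      (algebraMap K Ω) = ff a := by
    rw [map_pol]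
    exact h
  have hred : (pol g fun j => (⟨b j, hI j⟩ : v.ring)).map (residue v.ring) =
      (X - C r) ^ 2 * q := by
    rw [map_pol, ← hfac]
    congr 1
    funext j
    change residue v.ring ⟨b j, hI j⟩ = red v (b j)
    rw [red, dif_pos (hI j)]
  exact exists_node hf hred hsep hr

end Pool.Agent.HA
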