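import Pool.Agent.Lib.HA.Defs
import Pool.Agent.Lib.Hyp.Surj

/-!
HA: elements of `LL D` with prescribed reductions at the places of a finite set `S`, if `D` is zero on
`S` and of large degree.
-/

set_option autoImplicit false

namespace Pool.Agent.HA

open Pool.Agent.BSDFF Pool.Agent.GBC Pool.Agent.GBU
open IsLocalRing (ResidueField residue)

variable {k K : Type} [Field k] [Field K] [Algebra k K]

theorem red_of_mem (v : Place k K) {x : K} (h : x ∈ v.ring) : red v x = residue v.ring ⟨x, h⟩ := by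
  unfold red
  exact dif_pos h

theorem red_of_notMem (v : Place k K) {x : K} (h : x ∉ v.ring) : red v x = 0 := by
  unfold red
  exact dif_neg h

theorem red_zero (v : Place k K) : red v (0 : K) = 0 := by
  rw [red_of_mem v v.ring.zero_mem]
  exact map_zero (residue v.ring)

theorem red_one (v : Place k K) : red v (1 : K) = 1 := by
  rw [red_of_mem v v.ring.one_mem]
  exact map_one (residue v.ring)

theorem red_add (v : Place k K) {x y : K} (hx : x ∈ v.ring) (hy : y ∈ v.ring) :
    red v (x + y) = red v x + red v y := by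
  rw [red_of_mem v hx, red_of_mem v hy, red_of_mem v (v.ring.add_mem _ _ hx hy)]
  exact map_add (residue v.ring) ⟨x, hx⟩ ⟨y, hy⟩

theorem red_sub (v : Place k K) {x y : K} (hx : x ∈ v.ring) (hy : y ∈ v.ring) :
    red v (x - y) = red v x - red v y := by
  rw [red_of_mem v hx, red_of_mem v hy,
    red_of_mem v (show x - y ∈ v.ring from sub_mem hx hy)]
  exact map_sub (residue v.ring) ⟨x, hx⟩ ⟨y, hy⟩

theorem red_mul (v : Place k K) {x y : K} (hx : x ∈ v.ring) (hy : y ∈ v.ring) :
    red v (x * y) = red v x * red v y := by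
  rw [red_of_mem v hx, red_of_mem v hy, red_of_mem v (v.ring.mul_mem _ _ hx hy)]
  exact map_mul (residue v.ring) ⟨x, hx⟩ ⟨y, hy⟩

theorem red_surj (v : Place k K) (y : ResidueField v.ring) : ∃ x ∈ v.ring, red v x = y := by
  obtain ⟨x, hx⟩ := IsLocalRing.residue_surjective y
  exact ⟨x, x.2, by rw [red_of_mem v x.2]; exact hx⟩

/-- The elements with reduction `0`. -/
theorem red_eq_zero_iff (v : Place k K) {x : K} (hx : x ∈ v.ring) :
    red v x = 0 ↔ x ∈ Hyp.Ge v 1 := by
  rw [red_of_mem v hx, IsLocalRing.residue_eq_zero_iff, ValuationSubring.valuation_lt_one_iff]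
  change v.ring.valuation x < 1 ↔ _
  rw [Hyp.mem_Ge]
  rcases eq_or_ne x 0 with h0 | h0
  · rw [h0, map_zero]
    exact ⟨fun _ => Or.inl rfl, fun _ => zero_lt_one⟩
  · rw [val_lt_one_iff v h0]
    exact ⟨Or.inr, fun h => h.resolve_left h0⟩

/-- An element of `LL D` is integral at the places at which `D` is zero. -/
theorem mem_ring_of_mem_LL {D : Place k K →₀ ℤ} {x : K} (hx : x ∈ LL D) {v : Place k K}
    (hv : D v = 0) : x ∈ v.ring := by
  rw [← Hyp.mem_Ge_zero]
  have h := Hyp.mem_LL_iff_Ge.1 hx v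
  rwa [hv, neg_zero] at h

theorem finite_res [Finite k] (G : Geo k K) (v : Place k K) : Finite (ResidueField v.ring) := by
  letI := v.constMap.toAlgebra
  have hfr : Module.Finite k (ResidueField v.ring) :=
    Module.finite_of_finrank_pos (G.degree_pos v)
  exact Module.finite_of_finite k

/-- **Elements with prescribed reductions.** -/
theorem exists_LL [Finite k] (G : Geo k K) (S : Finset (Place k K)) :
    ∃ C : ℤ, ∀ D : Place k K →₀ ℤ, (∀ v ∈ S, D v = 0) → C ≤ degD D →
      ∀ y : (v : Place k K) → ResidueField v.ring, ∃ u ∈ LL D, ∀ v ∈ S, red v u = y v := by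
  classical
  obtain ⟨C, hC⟩ := Hyp.exists_approx G
  set E : Place k K →₀ ℕ := Finsupp.indicator S fun _ _ => 1 with hE
  have hE1 : ∀ v ∈ S, E v = 1 := fun v hv => by
    rw [hE]
    exact Finsupp.indicator_of_mem hv _
  have hE0 : ∀ v, E v ≠ 0 → v ∈ S := fun v hv => by
    by_contra hcon
    exact hv (Finsupp.indicator_of_notMem hcon _)
  refine ⟨C + E.sum (fun w n => (n : ℤ) * w.degree), fun D hD hdeg y => ?_⟩
  choose y' hy' hyy using fun v => red_surj v (y v)
  obtain ⟨x, hx, hxy⟩ := hC E D hdeg y' (fun w hw => by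
    rw [hD w (hE0 w hw), neg_zero, Hyp.mem_Ge_zero]
    exact hy' w)
  refine ⟨x, hx, fun v hv => ?_⟩
  have h1 := hxy v (by rw [hE1 v hv]; exact one_ne_zero)
  rw [hD v hv, hE1 v hv, neg_zero, zero_add, Nat.cast_one] at h1
  have hxr := mem_ring_of_mem_LL hx (hD v hv)
  have h2 := (red_eq_zero_iff v (sub_mem hxr (hy' v))).2 h1
  rw [red_sub v hxr (hy' v), sub_eq_zero] at h2
  rw [h2, hyy]

end Pool.Agent.HA
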